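import Pool.Agent.H21.POT.Inf

/-!
# Data (row 366, K_POT)

A datum is a finite space with the point `(s, (y, n))`, a variable `Z` which carries little
information about `(y, n)` given `s`, and a body `A`, a function of `(s, Z)`, in which `n` is full given
`(y, (s, Z))`. `Dt.add`: the sum of two data, independent given the point.
-/

set_option autoImplicit false

namespace Pool.POT

open Finset Real
open Pool.Agent.H49.Ent Pool.Agent.H32.Dense Pool.STK Pool.FAD

variable {c : ℕ} {σ υ : Type}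

/-- A datum. -/
structure Dt (c : ℕ) (σ υ : Type) where
  Ω : Type
  iΩ : Fintype Ω
  ζ : Type
  p : Ω → ℝ
  s : Ω → σ
  y : Ω → υ
  n : Ω → Fin c → ℤ
  Z : Ω → ζ
  A : Ω → Matrix (Fin c) (Fin c) ℝ

attribute [instance] Dt.iΩ

/-- The point. -/
def Dt.pt (D : Dt c σ υ) (ω : D.Ω) : σ × (υ × (Fin c → ℤ)) := (D.s ω, (D.y ω, D.n ω))

/-- An integer vector in units `2 ^ X`. -/
noncomputable def xv (X : ℕ) (n : Fin c → ℤ) (i : Fin c) : ℝ := n i / 2 ^ X

/-- The hypotheses: the law of the point is `μ`, the price is `a`. -/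
structure Dt.Ok (D : Dt c σ υ) (X : ℕ) (C : ℝ) (μ : σ × (υ × (Fin c → ℤ)) → ℝ) (a : ℝ) :
    Prop where
  law : IsLaw D.p
  mar : ∀ P, Pool.Agent.H49.Ent.law D.p D.pt P = μ P
  det : ∀ ω, (D.A ω).det ≠ 0
  ent : ∀ ω i j, |D.A ω i j| ≤ C
  inv : ∀ ω i j, |(D.A ω)⁻¹ i j| ≤ 2 ^ X
  dZ : Det D.p (fun ω => (D.s ω, D.Z ω)) D.A
  fr : MI D.p (fun ω => (D.y ω, D.n ω)) D.Z D.s ≤ a
  fu : DF D.p (fun _ => Tx c X) D.A (fun ω => xv X (D.n ω)) (fun ω => (D.y ω, (D.s ω, D.Z ω))) ≤ a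

theorem Dt.Ok.mono {D : Dt c σ υ} {X : ℕ} {C : ℝ} {μ : σ × (υ × (Fin c → ℤ)) → ℝ} {a b : ℝ}
    (h : D.Ok X C μ a) (hab : a ≤ b) : D.Ok X C μ b :=
  { h with fr := h.fr.trans hab, fu := h.fu.trans hab }

theorem Dt.Ok.mono' {D : Dt c σ υ} {X : ℕ} {C C' : ℝ} {μ : σ × (υ × (Fin c → ℤ)) → ℝ} {a b : ℝ}
    (h : D.Ok X C μ a) (hC : C ≤ C') (hab : a ≤ b) : D.Ok X C' μ b :=
  { h with ent := fun ω i j => (h.ent ω i j).trans hC, fr := h.fr.trans hab, fu := h.fu.trans hab }

/-- The cell of the small body. -/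
theorem cl_Tx (X : ℕ) (n : Fin c → ℤ) : cl (Tx c X) (xv X n) = n := by
  funext i
  unfold Tx
  rw [Pool.FEK74.cl_diag _ (fun _ => by positivity)]
  have : xv X n i / ((2 : ℝ) ^ X)⁻¹ = (n i : ℝ) := by
    unfold xv
    field_simp
  rw [this, Int.floor_intCast]

/-- The deficit of a body. -/
theorem DF_xv {Ω ζ : Type} [Fintype Ω] (p : Ω → ℝ) (X : ℕ) (A : Ω → Matrix (Fin c) (Fin c) ℝ)
    (n : Ω → Fin c → ℤ) (Z : Ω → ζ) :
    DF p (fun _ => Tx c X) A (fun ω => xv X (n ω)) Z =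
      Ex p (fun ω => lv (A ω) - lv (Tx c X)) -
        CH p n (fun ω => (cl (A ω) (xv X (n ω)), Z ω)) := by
  unfold DF
  simp only [cl_Tx]

/-- More context. -/
theorem DF_more {Ω ζ ζ' : Type} [Fintype Ω] {p : Ω → ℝ} (hp : ∀ ω, 0 ≤ p ω) (X : ℕ)
    {A : Ω → Matrix (Fin c) (Fin c) ℝ} {n : Ω → Fin c → ℤ} {Z : Ω → ζ} (Y : Ω → ζ')
    (hd : Det p Z A) :
    DF p (fun _ => Tx c X) A (fun ω => xv X (n ω)) (fun ω => (Y ω, Z ω)) ≤
      DF p (fun _ => Tx c X) A (fun ω => xv X (n ω)) Z + MI p n Y Z := by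
  rw [DF_xv, DF_xv]
  have h1 : MI p n Y (fun ω => (cl (A ω) (xv X (n ω)), Z ω)) ≤ MI p n Y Z := by
    refine MI_data hp (fun _ _ _ _ h => (Prod.ext_iff.mp h).1) ?_
    intro ω ω' a b h
    simp only [Prod.mk.injEq] at h
    simp only [h.1, hd ω ω' a b h.2]
  have h2 : CH p n (fun ω => (Y ω, (cl (A ω) (xv X (n ω)), Z ω))) =
      CH p n (fun ω => (cl (A ω) (xv X (n ω)), (Y ω, Z ω))) := by
    refine le_antisymm ?_ ?_ <;>
    · refine CH_mono_cond hp fun ω ω' _ _ h => ?_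
      simp only [Prod.mk.injEq] at h ⊢
      tauto
  unfold MI at h1 ⊢
  linarith

/-- Less context. -/
theorem DF_less {Ω ζ ζ' : Type} [Fintype Ω] {p : Ω → ℝ} (hp : ∀ ω, 0 ≤ p ω) (X : ℕ)
    {A : Ω → Matrix (Fin c) (Fin c) ℝ} {n : Ω → Fin c → ℤ} {Z : Ω → ζ} {Z' : Ω → ζ'}
    (hd : Det p Z' Z) :
    DF p (fun _ => Tx c X) A (fun ω => xv X (n ω)) Z ≤
      DF p (fun _ => Tx c X) A (fun ω => xv X (n ω)) Z' := by
  rw [DF_xv, DF_xv]
  have h1 : CH p n (fun ω => (cl (A ω) (xv X (n ω)), Z' ω)) ≤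
      CH p n (fun ω => (cl (A ω) (xv X (n ω)), Z ω)) := by
    refine CH_mono_cond hp fun ω ω' a b h => ?_
    simp only [Prod.mk.injEq] at h ⊢
    exact ⟨h.1, hd ω ω' a b h.2⟩
  linarith

theorem DF_image {Ω Ω' ζ : Type} [Fintype Ω] [Fintype Ω'] {q : Ω' → ℝ} {p : Ω → ℝ} {f : Ω' → Ω}
    (h : Im q p f) (X : ℕ) (A : Ω → Matrix (Fin c) (Fin c) ℝ) (n : Ω → Fin c → ℤ) (Z : Ω → ζ) :
    DF q (fun _ => Tx c X) (fun ω => A (f ω)) (fun ω => xv X (n (f ω))) (fun ω => Z (f ω)) =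
      DF p (fun _ => Tx c X) A (fun ω => xv X (n ω)) Z := by
  rw [DF_xv, DF_xv]
  rw [h.Ex (fun ω => lv (A ω) - lv (Tx c X)), h.CH n (fun ω => (cl (A ω) (xv X (n ω)), Z ω))]

/-! ### Sums -/

/-- The sum of two data, independent given the point. -/
noncomputable def Dt.add (D E : Dt c σ υ) (X : ℕ) : Dt c σ υ where
  Ω := D.Ω × E.Ω
  iΩ := inferInstance
  ζ := D.ζ × E.ζ
  p := glue D.p E.p D.pt E.pt
  s w := D.s w.1
  y w := D.y w.1
  n w := D.n w.1
  Z w := (D.Z w.1, E.Z w.2)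
  A w := sb X (D.A w.1) (E.A w.2)

theorem Dt.add_ok {D E : Dt c σ υ} {X : ℕ} {C : ℝ} {μ : σ × (υ × (Fin c → ℤ)) → ℝ} {a b : ℝ}
    (hC : 1 ≤ C) (hD : D.Ok X C μ a) (hE : E.Ok X C μ b) :
    (D.add E X).Ok X C μ (2 * (a + b) + |Csb c|) := by
  have hm : ∀ P, law D.p D.pt P = law E.p E.pt P := fun P => (hD.mar P).trans (hE.mar P).symm
  have h0 : ∀ w, 0 ≤ glue D.p E.p D.pt E.pt w := glue_nonneg hD.law.nonneg hE.law.nonneg
  have i1 := im_fst (p₂ := E.p) hD.law.nonneg hm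
  have i2 := im_snd (p₁ := D.p) hE.law.nonneg hm
  have heq : ∀ w, 0 < glue D.p E.p D.pt E.pt w → D.pt w.1 = E.pt w.2 := fun w hw =>
    ((glue_pos_iff hD.law.nonneg hE.law.nonneg w).1 hw).2.2
  have ha : 0 ≤ a := (MI_nonneg hD.law.nonneg _ _ _).trans hD.fr
  have hb : 0 ≤ b := (MI_nonneg hE.law.nonneg _ _ _).trans hE.fr
  -- the price of each part
  have m1 : MI (glue D.p E.p D.pt E.pt) (fun w => (D.y w.1, D.n w.1)) (fun w => D.Z w.1)
      (fun w => D.s w.1) ≤ a := by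
    rw [i1.MI (fun ω => (D.y ω, D.n ω)) D.Z D.s]
    exact hD.fr
  have m2 : MI (glue D.p E.p D.pt E.pt) (fun w => (D.y w.1, D.n w.1)) (fun w => E.Z w.2)
      (fun w => D.s w.1) ≤ b := by
    have e := i2.MI (fun ω => (E.y ω, E.n ω)) E.Z E.s
    have e2 : MI (glue D.p E.p D.pt E.pt) (fun w => (D.y w.1, D.n w.1)) (fun w => E.Z w.2)
        (fun w => D.s w.1) = MI (glue D.p E.p D.pt E.pt) (fun w => (E.y w.2, E.n w.2))
        (fun w => E.Z w.2) (fun w => E.s w.2) := by
      refine MI_congr h0 ?_ ?_ ?_ ?_ ?_ ?_ <;>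
      · intro w w' x x' h
        have k1 := heq w x
        have k2 := heq w' x'
        simp only [Dt.pt, Prod.mk.injEq] at k1 k2 h ⊢
        simp only [k1, k2] at h ⊢
        tauto
    rw [e2, e]
    exact hE.fr
  -- both together
  have ci := glue_ci hD.law.nonneg hE.law.nonneg hm D.Z E.Z
  have m3 : MI (glue D.p E.p D.pt E.pt) (fun w => (D.y w.1, D.n w.1)) (fun w => E.Z w.2)
      (fun w => (D.Z w.1, D.s w.1)) ≤ b := by
    have e1 := MI_chain_left h0 (fun w => D.Z w.1) (fun w => (D.y w.1, D.n w.1))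
      (fun w => E.Z w.2) (fun w => D.s w.1)
    have e2 := MI_chain_left h0 (fun w => (D.y w.1, D.n w.1)) (fun w => D.Z w.1)
      (fun w => E.Z w.2) (fun w => D.s w.1)
    have e3 : MI (glue D.p E.p D.pt E.pt) (fun w => (D.Z w.1, (D.y w.1, D.n w.1)))
        (fun w => E.Z w.2) (fun w => D.s w.1) = MI (glue D.p E.p D.pt E.pt)
        (fun w => ((D.y w.1, D.n w.1), D.Z w.1)) (fun w => E.Z w.2) (fun w => D.s w.1) := by
      refine MI_congr h0 ?_ ?_ ?_ ?_ ?_ ?_ <;>
      · intro w w' x x' h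
        simp only [Prod.mk.injEq] at h ⊢
        tauto
    have e4 : MI (glue D.p E.p D.pt E.pt) (fun w => D.Z w.1) (fun w => E.Z w.2)
        (fun w => ((D.y w.1, D.n w.1), D.s w.1)) = 0 := by
      rw [← ci]
      refine MI_congr h0 ?_ ?_ ?_ ?_ ?_ ?_ <;>
      · intro w w' x x' h
        simp only [Dt.pt, Prod.mk.injEq] at h ⊢
        tauto
    have e5 := MI_nonneg h0 (fun w => D.Z w.1) (fun w => E.Z w.2) (fun w => D.s w.1)
    linarith
  refine ⟨⟨h0, ?_⟩, ?_, fun w => sb_det _ _ _, fun w => sb_entry X hC (hD.ent _) (hE.ent _),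
    fun w => sb_inv _ _ _, ?_, ?_, ?_⟩
  · exact (sum_glue hD.law.nonneg hm).trans hD.law.sum_one
  · intro P
    exact (i1.law D.pt P).trans (hD.mar P)
  · intro w w' x x' h
    have g1 := heq w x
    have g2 := heq w' x'
    have h' : (D.s w.1, (D.Z w.1, E.Z w.2)) = (D.s w'.1, (D.Z w'.1, E.Z w'.2)) := h
    simp only [Prod.mk.injEq] at h'
    simp only [Dt.pt, Prod.mk.injEq] at g1 g2
    have k1 := i1.det h0 hD.dZ w w' x x' (Prod.ext h'.1 h'.2.1)
    have k2 := i2.det h0 hE.dZ w w' x x' (Prod.ext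
      (g1.1.symm.trans (h'.1.trans g2.1)) h'.2.2)
    change sb X (D.A w.1) (E.A w.2) = sb X (D.A w'.1) (E.A w'.2)
    simp only at k1 k2
    rw [k1, k2]
  · have e := MI_chain h0 (fun w => (D.y w.1, D.n w.1)) (fun w => D.Z w.1) (fun w => E.Z w.2)
      (fun w => D.s w.1)
    have hC0 := abs_nonneg (Csb c)
    change MI (glue D.p E.p D.pt E.pt) (fun w => (D.y w.1, D.n w.1))
      (fun w => (D.Z w.1, E.Z w.2)) (fun w => D.s w.1) ≤ _
    linarith
  · change DF (glue D.p E.p D.pt E.pt) (fun _ => Tx c X) (fun w => sb X (D.A w.1) (E.A w.2))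
      (fun w => xv X (D.n w.1)) (fun w => (D.y w.1, (D.s w.1, (D.Z w.1, E.Z w.2)))) ≤ _
    have k1 := i1.det h0 hD.dZ
    have k2 := i2.det h0 hE.dZ
    have k2' : Det (glue D.p E.p D.pt E.pt) (fun w => (D.s w.1, E.Z w.2)) (fun w => E.A w.2) := by
      intro w w' x x' h
      have g1 := heq w x
      have g2 := heq w' x'
      simp only [Dt.pt, Prod.mk.injEq] at g1 g2 h
      exact k2 w w' x x' (Prod.ext (g1.1.symm.trans (h.1.trans g2.1)) h.2)
    have f1 := DF_sb ⟨h0, (sum_glue hD.law.nonneg hm).trans hD.law.sum_one⟩ (X := X)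
      (A := fun w : D.Ω × E.Ω => D.A w.1) (B := fun w => E.A w.2) (fun w => xv X (D.n w.1))
      (fun w => (D.y w.1, (D.s w.1, (D.Z w.1, E.Z w.2))))
      (fun w w' x x' h => k1 w w' x x' (by
        simp only [Prod.mk.injEq] at h ⊢
        exact ⟨h.2.1, h.2.2.1⟩))
      (fun w w' x x' h => k2' w w' x x' (by
        simp only [Prod.mk.injEq] at h ⊢
        exact ⟨h.2.1, h.2.2.2⟩))
      (fun w => hD.det _) (fun w => hE.det _) (fun w => hD.inv _) (fun w => hE.inv _)
    -- the first body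
    have f2 : DF (glue D.p E.p D.pt E.pt) (fun _ => Tx c X) (fun w => D.A w.1)
        (fun w => xv X (D.n w.1)) (fun w => (D.y w.1, (D.s w.1, (D.Z w.1, E.Z w.2)))) ≤ a + b := by
      have g1 := DF_more h0 X (A := fun w => D.A w.1) (n := fun w => D.n w.1)
        (Z := fun w => (D.y w.1, (D.s w.1, D.Z w.1))) (fun w => E.Z w.2)
        (fun w w' x x' h => k1 w w' x x' (Prod.ext_iff.mp h).2)
      have g2 := DF_image i1 X D.A D.n (fun ω => (D.y ω, (D.s ω, D.Z ω)))
      have g3 := DF_less h0 X (A := fun w => D.A w.1) (n := fun w => D.n w.1)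
        (Z := fun w => (D.y w.1, (D.s w.1, (D.Z w.1, E.Z w.2))))
        (Z' := fun w => (E.Z w.2, (D.y w.1, (D.s w.1, D.Z w.1)))) (by
          intro w w' _ _ h
          simp only [Prod.mk.injEq] at h ⊢
          tauto)
      have g4 : MI (glue D.p E.p D.pt E.pt) (fun w => D.n w.1) (fun w => E.Z w.2)
          (fun w => (D.y w.1, (D.s w.1, D.Z w.1))) ≤ b := by
        refine le_trans ?_ m3
        have g5 : MI (glue D.p E.p D.pt E.pt) (fun w => D.n w.1) (fun w => E.Z w.2)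
            (fun w => (D.y w.1, (D.s w.1, D.Z w.1))) = MI (glue D.p E.p D.pt E.pt)
            (fun w => D.n w.1) (fun w => E.Z w.2) (fun w => (D.y w.1, (D.Z w.1, D.s w.1))) := by
          refine MI_congr h0 ?_ ?_ ?_ ?_ ?_ ?_ <;>
          · intro w w' x x' h
            simp only [Prod.mk.injEq] at h ⊢
            tauto
        rw [g5]
        refine MI_data h0 ?_ ?_ <;>
        · intro w w' x x' h
          simp only [Prod.mk.injEq] at h ⊢
          tauto
      have g6 := hD.fu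
      rw [g2] at g1
      linarith
    -- the second body
    have f3 : DF (glue D.p E.p D.pt E.pt) (fun _ => Tx c X) (fun w => E.A w.2)
        (fun w => xv X (D.n w.1)) (fun w => (D.y w.1, (D.s w.1, (D.Z w.1, E.Z w.2)))) ≤ a + b := by
      have g0 : DF (glue D.p E.p D.pt E.pt) (fun _ => Tx c X) (fun w => E.A w.2)
          (fun w => xv X (D.n w.1)) (fun w => (D.y w.1, (D.s w.1, (D.Z w.1, E.Z w.2)))) ≤
          DF (glue D.p E.p D.pt E.pt) (fun _ => Tx c X) (fun w => E.A w.2)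
          (fun w => xv X (E.n w.2)) (fun w => (D.Z w.1, (E.y w.2, (E.s w.2, E.Z w.2)))) := by
        rw [DF_xv, DF_xv]
        have g1 : CH (glue D.p E.p D.pt E.pt) (fun w => E.n w.2)
            (fun w => (cl (E.A w.2) (xv X (E.n w.2)), (D.Z w.1, (E.y w.2, (E.s w.2, E.Z w.2))))) ≤
            CH (glue D.p E.p D.pt E.pt) (fun w => D.n w.1)
            (fun w => (cl (E.A w.2) (xv X (D.n w.1)),
              (D.y w.1, (D.s w.1, (D.Z w.1, E.Z w.2))))) := by
          refine (CH_congr h0 ?_ ?_ ?_ ?_).le <;>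
          · intro w w' x x' h
            have k1 := heq w x
            have k2 := heq w' x'
            simp only [Dt.pt, Prod.mk.injEq] at k1 k2 h ⊢
            simp only [k1, k2] at h ⊢
            tauto
        linarith
      have g1 := DF_more h0 X (A := fun w => E.A w.2) (n := fun w => E.n w.2)
        (Z := fun w => (E.y w.2, (E.s w.2, E.Z w.2))) (fun w => D.Z w.1)
        (fun w w' x x' h => k2 w w' x x' (Prod.ext_iff.mp h).2)
      have g2 := DF_image i2 X E.A E.n (fun ω => (E.y ω, (E.s ω, E.Z ω)))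
      -- the same information bound, exchanged
      have m4 : MI (glue D.p E.p D.pt E.pt) (fun w => (E.y w.2, E.n w.2)) (fun w => D.Z w.1)
          (fun w => (E.Z w.2, E.s w.2)) ≤ a := by
        have e1 := MI_chain_left h0 (fun w => E.Z w.2) (fun w => (E.y w.2, E.n w.2))
          (fun w => D.Z w.1) (fun w => E.s w.2)
        have e2 := MI_chain_left h0 (fun w => (E.y w.2, E.n w.2)) (fun w => E.Z w.2)
          (fun w => D.Z w.1) (fun w => E.s w.2)
        have e3 : MI (glue D.p E.p D.pt E.pt) (fun w => (E.Z w.2, (E.y w.2, E.n w.2)))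
            (fun w => D.Z w.1) (fun w => E.s w.2) = MI (glue D.p E.p D.pt E.pt)
            (fun w => ((E.y w.2, E.n w.2), E.Z w.2)) (fun w => D.Z w.1) (fun w => E.s w.2) := by
          refine MI_congr h0 ?_ ?_ ?_ ?_ ?_ ?_ <;>
          · intro w w' x x' h
            simp only [Prod.mk.injEq] at h ⊢
            tauto
        have e4 : MI (glue D.p E.p D.pt E.pt) (fun w => E.Z w.2) (fun w => D.Z w.1)
            (fun w => ((E.y w.2, E.n w.2), E.s w.2)) = 0 := by
          rw [MI_symm h0, ← ci]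
          refine MI_congr h0 ?_ ?_ ?_ ?_ ?_ ?_ <;>
          · intro w w' x x' h
            have k1 := heq w x
            have k2 := heq w' x'
            simp only [Dt.pt, Prod.mk.injEq] at k1 k2 h ⊢
            simp only [k1, k2] at h ⊢
            tauto
        have e5 := MI_nonneg h0 (fun w => E.Z w.2) (fun w => D.Z w.1) (fun w => E.s w.2)
        have e6 : MI (glue D.p E.p D.pt E.pt) (fun w => (E.y w.2, E.n w.2)) (fun w => D.Z w.1)
            (fun w => E.s w.2) = MI (glue D.p E.p D.pt E.pt) (fun w => (D.y w.1, D.n w.1))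
            (fun w => D.Z w.1) (fun w => D.s w.1) := by
          refine MI_congr h0 ?_ ?_ ?_ ?_ ?_ ?_ <;>
          · intro w w' x x' h
            have k1 := heq w x
            have k2 := heq w' x'
            simp only [Dt.pt, Prod.mk.injEq] at k1 k2 h ⊢
            simp only [k1, k2] at h ⊢
            tauto
        linarith
      have g4 : MI (glue D.p E.p D.pt E.pt) (fun w => E.n w.2) (fun w => D.Z w.1)
          (fun w => (E.y w.2, (E.s w.2, E.Z w.2))) ≤ a := by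
        refine le_trans ?_ m4
        have g5 : MI (glue D.p E.p D.pt E.pt) (fun w => E.n w.2) (fun w => D.Z w.1)
            (fun w => (E.y w.2, (E.s w.2, E.Z w.2))) = MI (glue D.p E.p D.pt E.pt)
            (fun w => E.n w.2) (fun w => D.Z w.1) (fun w => (E.y w.2, (E.Z w.2, E.s w.2))) := by
          refine MI_congr h0 ?_ ?_ ?_ ?_ ?_ ?_ <;>
          · intro w w' x x' h
            simp only [Prod.mk.injEq] at h ⊢
            tauto
        rw [g5]
        refine MI_data h0 ?_ ?_ <;>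
        · intro w w' x x' h
          simp only [Prod.mk.injEq] at h ⊢
          tauto
      have g6 := hE.fu
      rw [g2] at g1
      linarith
    have hC0 := le_abs_self (Csb c)
    linarith

end Pool.POT
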