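import Pool.Agent.H21.POT.Pot
import Pool.Agent.H36.LBL.Cov

/-!
# The conserved covector (row 366, K_POT)

`cov`: for a picture with a visible chart whose target is not full, there is a covector which is
visible on one side and a function of the coarse line on the other side, and which makes the
slopes affine in the time. It is normalised at its leading coordinate.
-/

set_option autoImplicit false

namespace Pool.POT

open Finset Real Matrix
open Pool.Agent.H49.Ent Pool.Agent.H32.Dense Pool.STK Pool.FAD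
open Pool.SLO (tup tup_nonneg tup_isLaw)
open Pool.KS6 (ind ind_nonneg)
open Pool.QT64 (QH d3)
open Pool.BFL (Pb)
open Pool.LBL (Ad Ld Uni cov_last)

variable {c k : ℕ} {σ υ : Type}

/-! ### Numbers -/

/-- `2 ^ (x X)`. -/
noncomputable def pw (X : ℕ) (x : ℝ) : ℝ := 2 ^ (x * X)

theorem pw_pos (X : ℕ) (x : ℝ) : 0 < pw X x := by
  unfold pw
  positivity

theorem pw_add (X : ℕ) (x y : ℝ) : pw X x * pw X y = pw X (x + y) := by
  unfold pw
  rw [← Real.rpow_add (by norm_num)]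
  congr 1
  ring

theorem pw_le {X : ℕ} {x y : ℝ} (h : x ≤ y) : pw X x ≤ pw X y := by
  unfold pw
  exact Real.rpow_le_rpow_of_exponent_le (by norm_num)
    (mul_le_mul_of_nonneg_right h (Nat.cast_nonneg X))

theorem pw_zero (X : ℕ) : pw X 0 = 1 := by
  unfold pw
  simp

theorem one_le_pw {X : ℕ} {x : ℝ} (h : 0 ≤ x) : 1 ≤ pw X x := by
  rw [← pw_zero X]
  exact pw_le h

theorem pw_inv (X : ℕ) (x : ℝ) : (pw X x)⁻¹ = pw X (-x) := by
  have h := pw_add X x (-x)
  rw [add_neg_cancel, pw_zero] at h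
  exact (eq_inv_of_mul_eq_one_right h).symm

theorem ex_pw {a : ℝ} (ha : 0 < a) (b : ℝ) : ∃ X0 : ℕ, ∀ X : ℕ, X0 ≤ X → b ≤ pw X a := by
  rcases le_or_gt b 0 with hb | hb
  · exact ⟨0, fun X _ => hb.trans (pw_pos X a).le⟩
  obtain ⟨X0, h⟩ := ex_ge (a := a * Real.log 2) (b := Real.log b)
    (mul_pos ha (Real.log_pos (by norm_num)))
  refine ⟨X0, fun X hX => ?_⟩
  rw [← Real.log_le_log_iff hb (pw_pos X a)]
  unfold pw
  rw [Real.log_rpow (by norm_num)]
  have := h X hX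
  linarith

/-- The exponents. -/
noncomputable def gx (u : ℝ) (l : Fin c) : ℝ := u / 8 ^ (c - l.1)

theorem gx_pos {u : ℝ} (hu : 0 < u) (l : Fin c) : 0 < gx u l := by
  unfold gx
  positivity

theorem gx_lt {u : ℝ} (hu : 0 < u) {l' l : Fin c} (h : l' < l) : 8 * gx u l' ≤ gx u l := by
  unfold gx
  have h1 : l'.1 < l.1 := h
  have h2 := l.2
  have h3 : (8 : ℝ) ^ (c - l.1 + 1) ≤ 8 ^ (c - l'.1) :=
    pow_le_pow_right₀ (by norm_num) (by omega)
  rw [pow_succ] at h3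
  rw [mul_div_assoc', div_le_div_iff₀ (by positivity) (by positivity)]
  nlinarith [mul_le_mul_of_nonneg_left h3 hu.le]

theorem gx_le {u : ℝ} (hu : 0 < u) (l : Fin c) : 8 * gx u l ≤ u := by
  unfold gx
  have h2 := l.2
  have h3 : (8 : ℝ) ^ 1 ≤ 8 ^ (c - l.1) := pow_le_pow_right₀ (by norm_num) (by omega)
  rw [mul_div_assoc', div_le_iff₀ (by positivity)]
  nlinarith

theorem gx_ge {u : ℝ} (hu : 0 < u) (l : Fin c) : u / 8 ^ c ≤ gx u l := by
  unfold gx
  have h3 : (8 : ℝ) ^ (c - l.1) ≤ 8 ^ c := pow_le_pow_right₀ (by norm_num) (by omega)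
  exact div_le_div_of_nonneg_left hu.le (by positivity) h3

open Classical in
/-- The exponents of the sizes. -/
noncomputable def ax (n₀ : Fin c) (a u : ℝ) (l : Fin c) : ℝ := if l = n₀ then a else gx u l

theorem ax_pos {n₀ : Fin c} {a u : ℝ} (ha : 0 < a) (hu : 0 < u) (l : Fin c) :
    0 < ax n₀ a u l := by
  unfold ax
  split_ifs
  · exact ha
  · exact gx_pos hu l

theorem ax_lt {n₀ : Fin c} (hn₀ : ∀ i, i ≤ n₀) {a u : ℝ} {l' l : Fin c} (h : l' < l) :
    ax n₀ a u l' = gx u l' := by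
  unfold ax
  rw [if_neg]
  rintro rfl
  exact absurd (hn₀ l) (not_le.2 h)

/-- The condition of the last step. -/
theorem pr_ok {n₀ : Fin c} (hn₀ : ∀ i, i ≤ n₀) {a x1 u g : ℝ} {X : ℕ} (hu : 0 < u)
    (hx1 : u ≤ x1) (hg : g = u / 8 ^ c) (hX : 2 * ((c : ℝ) + 1) ≤ pw X (g / 4)) (l l' : Fin c)
    (h : l' < l) :
    ((c * pw X (g / 4) + 1) * pw X (-(ax n₀ (x1 - g / 4) u l)) / pw X (-(g / 4)) +
      ∑ i ∈ univ.filter (fun i => l' < i ∧ i < l), pw X (g / 4) / pw X (ax n₀ a u i)) *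
        pw X (ax n₀ a u l') ≤ pw X (-(ax n₀ (x1 - g / 4) u l')) := by
  have hg0 : 0 < g := by rw [hg]; positivity
  have hgl := gx_ge hu l
  rw [← hg] at hgl
  have hl' := gx_lt hu h
  have hlu := gx_le hu l
  rw [ax_lt hn₀ h, ax_lt hn₀ h]
  have hD := pw_pos X (-(gx u l'))
  -- the first term
  have hb : 2 * gx u l' + 3 * (g / 4) ≤ ax n₀ (x1 - g / 4) u l := by
    unfold ax
    split_ifs <;> linarith
  have t1 : (c * pw X (g / 4) + 1) * pw X (-(ax n₀ (x1 - g / 4) u l)) / pw X (-(g / 4)) *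
      pw X (gx u l') ≤ pw X (-(gx u l')) / 2 := by
    have e1 : c * pw X (g / 4) + 1 ≤ ((c : ℝ) + 1) * pw X (g / 4) := by
      have := one_le_pw (X := X) (show 0 ≤ g / 4 by linarith)
      linarith
    have e2 : (pw X (-(g / 4)))⁻¹ = pw X (g / 4) := by rw [pw_inv, neg_neg]
    rw [div_eq_mul_inv, e2]
    have e3 : 0 ≤ pw X (-(ax n₀ (x1 - g / 4) u l)) * pw X (g / 4) * pw X (gx u l') := by
      have := pw_pos X (-(ax n₀ (x1 - g / 4) u l))
      have := pw_pos X (g / 4)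
      have := pw_pos X (gx u l')
      positivity
    calc (c * pw X (g / 4) + 1) * pw X (-(ax n₀ (x1 - g / 4) u l)) * pw X (g / 4) *
        pw X (gx u l') = (c * pw X (g / 4) + 1) * (pw X (-(ax n₀ (x1 - g / 4) u l)) *
        pw X (g / 4) * pw X (gx u l')) := by ring
      _ ≤ (((c : ℝ) + 1) * pw X (g / 4)) * (pw X (-(ax n₀ (x1 - g / 4) u l)) *
        pw X (g / 4) * pw X (gx u l')) := mul_le_mul_of_nonneg_right e1 e3
      _ = ((c : ℝ) + 1) * (pw X (g / 4) * pw X (-(ax n₀ (x1 - g / 4) u l)) *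
        pw X (g / 4) * pw X (gx u l')) := by ring
      _ = ((c : ℝ) + 1) * pw X (g / 4 + -(ax n₀ (x1 - g / 4) u l) + g / 4 + gx u l') := by
          rw [pw_add, pw_add, pw_add]
      _ ≤ ((c : ℝ) + 1) * pw X (-(gx u l') + -(g / 4)) := by
          refine mul_le_mul_of_nonneg_left (pw_le (by linarith)) (by positivity)
      _ = pw X (-(gx u l')) * (((c : ℝ) + 1) * pw X (-(g / 4))) := by rw [← pw_add]; ring
      _ ≤ pw X (-(gx u l')) * (1 / 2) := by
          refine mul_le_mul_of_nonneg_left ?_ hD.le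
          rw [← pw_inv, ← div_eq_mul_inv, div_le_iff₀ (pw_pos X _)]
          linarith
      _ = pw X (-(gx u l')) / 2 := by ring
  -- the sum
  have t2 : (∑ i ∈ univ.filter (fun i => l' < i ∧ i < l), pw X (g / 4) / pw X (ax n₀ a u i)) *
      pw X (gx u l') ≤ pw X (-(gx u l')) / 2 := by
    rw [Finset.sum_mul]
    have e1 : ∀ i ∈ univ.filter (fun i : Fin c => l' < i ∧ i < l),
        pw X (g / 4) / pw X (ax n₀ a u i) * pw X (gx u l') ≤
          pw X (-(gx u l')) * pw X (-(g / 4)) := by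
      intro i hi
      rw [Finset.mem_filter] at hi
      have k1 := gx_lt hu hi.2.1
      have k2 := gx_ge hu i
      rw [← hg] at k2
      rw [ax_lt hn₀ hi.2.2, div_eq_mul_inv, pw_inv, pw_add, pw_add, pw_add]
      exact pw_le (by linarith)
    refine (Finset.sum_le_sum e1).trans ?_
    rw [Finset.sum_const, nsmul_eq_mul]
    have e2 : ((univ.filter (fun i : Fin c => l' < i ∧ i < l)).card : ℝ) ≤ c := by
      have : (univ.filter (fun i : Fin c => l' < i ∧ i < l)).card ≤ c := by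
        refine (Finset.card_le_univ _).trans ?_
        simp
      exact_mod_cast this
    have e3 : (c : ℝ) * pw X (-(g / 4)) ≤ 1 / 2 := by
      rw [← pw_inv, ← div_eq_mul_inv, div_le_iff₀ (pw_pos X _)]
      linarith
    have e4 := pw_pos X (-(g / 4))
    calc _ ≤ (c : ℝ) * (pw X (-(gx u l')) * pw X (-(g / 4))) :=
          mul_le_mul_of_nonneg_right e2 (by positivity)
      _ = pw X (-(gx u l')) * ((c : ℝ) * pw X (-(g / 4))) := by ring
      _ ≤ pw X (-(gx u l')) * (1 / 2) := mul_le_mul_of_nonneg_left e3 hD.le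
      _ = pw X (-(gx u l')) / 2 := by ring
  rw [add_mul]
  linarith

/-! ### The theorem -/

theorem VCh.mono {H : QH c k} {X B : ℕ} {n₀ : Fin c} {c0 d δ Γ d' δ' Γ' : ℝ} {s : H.Ω → σ}
    {y : H.Ω → υ} {n : H.Ω → Fin c → ℤ} {M : H.Ω → Matrix (Fin c) (Fin c) ℝ}
    (h : VCh H X B n₀ c0 d δ Γ s y n M) (hd : d ≤ d') (hδ : δ ≤ δ') (hΓ : Γ ≤ Γ') :
    VCh H X B n₀ c0 d' δ' Γ' s y n M where
  ds := h.ds
  dM := h.dM
  one := h.one
  low := h.low
  ent := fun ω i j => (h.ent ω i j).trans hΓ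
  inv := fun ω i j => (h.inv ω i j).trans hΓ
  e1 := h.e1.trans hd
  e2 := h.e2.trans hd
  hF := by
    have := h.hF
    linarith
  rel := fun ω ω' x x' a b e i => (h.rel ω ω' x x' a b e i).trans hΓ
  tr := fun ω ω' x x' a b e i => (h.tr ω ω' x x' a b e i).trans hΓ
  nf := h.nf

theorem okns_mono {H : QH c k} {X : ℕ} {C d d' : ℝ} (ok : H.OkNS X C d) (h : d ≤ d') :
    H.OkNS X C d' :=
  { ok with
    h0 := ok.h0.trans h
    h2 := ok.h2.trans h
    y_f := by
      have := ok.y_f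
      linarith
    t_f := by
      have := ok.t_f
      linarith }

theorem pb_mono {W : Type} [Fintype W] {q : W → ℝ} (hq : ∀ w, 0 ≤ q w) {P Q : W → Prop}
    (h : ∀ w, 0 < q w → P w → Q w) : Pb q P ≤ Pb q Q := by
  rw [Pb_eq_Ex, Pb_eq_Ex]
  exact Ex_mono hq fun w hw => ind_mono (h w hw)

theorem Uni_of {M : Matrix (Fin c) (Fin c) ℝ} (h1 : ∀ i, M i i = 1)
    (h2 : ∀ i j, i < j → M i j = 0) : Uni M := ⟨h1, h2⟩

set_option maxHeartbeats 4000000 in
/-- **The conserved covector.** -/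
theorem cov (c k : ℕ) (n₀ : Fin c) (hn₀ : ∀ i, i ≤ n₀) (c0 ep : ℝ) (B : ℕ) (hc0 : 0 < c0)
    (hep : 0 < ep) (hB : 0 < B) (hBe : 1 / (B : ℝ) ≤ ep) :
    ∃ x2 p2 η0 io : ℝ, 0 < x2 ∧ 0 < p2 ∧ 0 < η0 ∧ 0 < io ∧ ∀ C : ℝ, 1 ≤ C → ∀ s0 : ℝ, 0 < s0 →
    ∃ X0 : ℕ, ∀ (H : QH c k) (X : ℕ), X0 ≤ X → H.OkNS X C (io * X) → H.TM X s0 η0 →
    ∀ {σ υ : Type} (s : H.Ω → σ) (y : H.Ω → υ) (n : H.Ω → Fin c → ℤ)
      (M : H.Ω → Matrix (Fin c) (Fin c) ℝ),
    VCh H X B n₀ c0 (io * X) (io * X) (2 ^ (io * X)) s y n M →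
    ∃ (l : Fin c) (nD : σ × (υ × (Fin c → ℤ)) → Fin c → ℝ)
      (nL : (Fin c → ℤ) × (H.Vt × H.B) → Fin c → ℝ)
      (e0 e1 : (Fin c → ℤ) × (H.Vt × H.B) → Fin k → ℝ),
      (∀ P, Ld l (nD P) ∧ ∀ i, |nD P i| ≤ 2 ^ (ep * X)) ∧
      (∀ z, Ld l (nL z) ∧ ∀ i, |nL z i| ≤ 2 ^ (2 * ep * X)) ∧
      (∀ z u, |e0 z u| ≤ 2 ^ (2 * ep * X) ∧ |e1 z u| * 2 ^ X ≤ 2 ^ (2 * ep * X)) ∧
      p2 ≤ Pb H.p (fun ω =>
        (∀ i, |(nD (s ω, (y ω, n ω)) ᵥ* M ω) i - nL (H.line ω) i| ≤ 2 ^ (-(x2 * X))) ∧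
        ∀ u, |∑ i, nL (H.line ω) i * H.E (H.th ω) u i - e0 (H.line ω) u -
          e1 (H.line ω) u * H.tau (H.th ω)| ≤ 2 ^ (-(x2 * X))) := by
  have hc : 0 < c := lt_of_le_of_lt (Nat.zero_le _) n₀.2
  have hc1 : (1 : ℝ) ≤ c := by exact_mod_cast hc
  have hBr : (1 : ℝ) ≤ B := by exact_mod_cast hB
  -- the constants
  obtain ⟨x1, hx1⟩ : ∃ x1, x1 = c0 / 2 := ⟨_, rfl⟩
  obtain ⟨u, hu⟩ : ∃ u, u = min x1 ep := ⟨_, rfl⟩
  have hu0 : 0 < u := by
    rw [hu, hx1]
    exact lt_min (by linarith) hep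
  have hux : u ≤ x1 := by rw [hu]; exact min_le_left _ _
  have hue : u ≤ ep := by rw [hu]; exact min_le_right _ _
  obtain ⟨g, hg⟩ : ∃ g, g = u / 8 ^ c := ⟨_, rfl⟩
  have hg0 : 0 < g := by rw [hg]; positivity
  have hgu : 8 * g ≤ u := by
    have := gx_ge hu0 n₀
    rw [← hg] at this
    have := gx_le hu0 n₀
    linarith
  obtain ⟨p0, hp0⟩ : ∃ p0, p0 = c0 / 4 := ⟨_, rfl⟩
  have hp0' : 0 < p0 := by rw [hp0]; linarith
  obtain ⟨q, hq⟩ : ∃ q, q = min (p0 / c) 1 := ⟨_, rfl⟩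
  have hq0 : 0 < q := by rw [hq]; exact lt_min (by positivity) one_pos
  have hq1 : q ≤ 1 := by rw [hq]; exact min_le_right _ _
  have hqp : q ≤ p0 / c := by rw [hq]; exact min_le_left _ _
  have hqp' : q ≤ p0 := hqp.trans (div_le_self hp0'.le hc1)
  obtain ⟨η, hη⟩ : ∃ η, η = q ^ 2 / 8 := ⟨_, rfl⟩
  have hη0 : 0 < η := by rw [hη]; positivity
  have hηp : η ≤ p0 := by
    rw [hη]
    nlinarith
  obtain ⟨io1, hio1, hpot⟩ := pot c k n₀ hn₀ c0 x1 (g / 4) η B (by linarith) (by linarith) hη0 hB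
  obtain ⟨io, hio⟩ : ∃ io, io = min io1 (min (g / 16) (ep / 4)) := ⟨_, rfl⟩
  have hio0 : 0 < io := by
    rw [hio]
    exact lt_min hio1 (lt_min (by linarith) (by linarith))
  have hioa : io ≤ io1 := by rw [hio]; exact min_le_left _ _
  have hiob : io ≤ g / 16 := by
    rw [hio]
    exact (min_le_right _ _).trans (min_le_left _ _)
  have hioc : io ≤ ep / 4 := by
    rw [hio]
    exact (min_le_right _ _).trans (min_le_right _ _)
  refine ⟨g / 16, q ^ 2 / 2, η, io, by linarith, by positivity, hη0, hio0, ?_⟩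
  intro C hC s0 hs0
  obtain ⟨s1, hs1⟩ : ∃ s1, s1 = min s0 1 := ⟨_, rfl⟩
  have hs1' : 0 < s1 := by rw [hs1]; exact lt_min hs0 one_pos
  have hs11 : s1 ≤ 1 := by rw [hs1]; exact min_le_right _ _
  have hs10 : s1 ≤ s0 := by rw [hs1]; exact min_le_left _ _
  obtain ⟨X1, hpot⟩ := hpot C hC
  obtain ⟨X2, h2⟩ := ex_pw (a := g / 4) (by linarith) (2 * ((c : ℝ) + 1))
  obtain ⟨X3, h3⟩ := ex_pw (a := g / 8) (by linarith) (c / s1)
  obtain ⟨X4, h4⟩ := ex_pw (a := ep / 2) (by linarith) (3 * (c * (c * C)) / s1)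
  refine ⟨max X1 (max X2 (max X3 X4)), ?_⟩
  intro H X hX ok hTM σ υ s y n M hV
  have hX1 : X1 ≤ X := (le_max_left _ _).trans hX
  have hXX := (le_max_right _ _).trans hX
  have h2 := h2 X ((le_max_left _ _).trans hXX)
  have hXX' := (le_max_right _ _).trans hXX
  have h3 := h3 X ((le_max_left _ _).trans hXX')
  have h4 := h4 X ((le_max_right _ _).trans hXX')
  have hX0 : (0 : ℝ) ≤ X := Nat.cast_nonneg X
  have hiX : io * X ≤ io1 * X := mul_le_mul_of_nonneg_right hioa hX0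
  obtain ⟨A, hA, hcv, htr, hbd⟩ := hpot H X hX1 (okns_mono ok hiX) s y n M
    (hV.mono hiX hiX (Real.rpow_le_rpow_of_exponent_le (by norm_num) hiX))
  have hp := ok.law.nonneg
  have key := cov_last ok.law H.line (fun ω => (s ω, (y ω, n ω))) A M
    (fun ω => H.tau (H.th ω)) (fun ω => H.E (H.th ω))
    (R := fun l => pw X (ax n₀ (1 / (B : ℝ)) u l))
    (δ := fun l => pw X (-(ax n₀ (x1 - g / 4) u l))) (C := pw X (g / 4)) (G := pw X io) (CE := C)
    (K := pw X (g / 4)) (ρ := pw X (-(g / 4))) (p0 := p0) (η := η) (s := s1) (X := X)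
    (fun P => (hA P).1) (fun P i b => (hA P).2.1 i b) (fun i => ?_) (pw_pos X _)
    (fun ω => Uni_of (hV.one ω) (hV.low ω)) (fun ω i j => hV.ent ω i j) (one_le_pw hio0.le)
    (pw_pos X _).le (fun ω _ u i => ok.E_b ω u i) (fun ω _ => ok.tau_r ω) hs1' hs11 hp0'
    ?_ htr hbd ?_ (fun l l' h => pr_ok hn₀ hu0 hux hg h2 l l' h)
  · obtain ⟨l, nD, nL, e0, e1, k1, k2, k3, k4⟩ := key
    -- the exponents at the leading coordinate
    have ha0 : 0 < ax n₀ (1 / (B : ℝ)) u l := ax_pos (by positivity) hu0 l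
    have ha : ax n₀ (1 / (B : ℝ)) u l ≤ ep := by
      unfold ax
      split_ifs
      · exact hBe
      · have := gx_le hu0 l
        have := gx_pos hu0 l
        linarith
    have hb : g ≤ ax n₀ (x1 - g / 4) u l := by
      unfold ax
      split_ifs
      · linarith
      · have := gx_ge hu0 l
        rw [← hg] at this
        exact this
    have hcc : (c : ℝ) ≤ 3 * (c * (c * C)) / s1 := by
      rw [le_div_iff₀ hs1']
      have t1 : (c : ℝ) * s1 ≤ c * 1 := mul_le_mul_of_nonneg_left hs11 (by linarith)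
      have t2 : (1 : ℝ) ≤ c * C := by nlinarith
      have t3 : (c : ℝ) * 1 ≤ c * (c * C) := mul_le_mul_of_nonneg_left t2 (by linarith)
      nlinarith
    have hcs : (c : ℝ) ≤ c / s1 := by
      rw [le_div_iff₀ hs1']
      have t1 : (c : ℝ) * s1 ≤ c * 1 := mul_le_mul_of_nonneg_left hs11 (by linarith)
      linarith
    refine ⟨l, nD, nL, e0, e1, fun P => ⟨(k1 P).1, fun i => ?_⟩, fun z => ⟨(k2 z).1, fun i => ?_⟩,
      fun z v => ?_, ?_⟩
    · exact ((k1 P).2 i).trans (pw_le ha)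
    · refine ((k2 z).2 i).trans ?_
      calc (c : ℝ) * (pw X (ax n₀ (1 / (B : ℝ)) u l) * pw X io) ≤
          pw X (ep / 2) * (pw X ep * pw X (ep / 4)) := by
            refine mul_le_mul (hcc.trans h4) (mul_le_mul (pw_le ha) (pw_le hioc)
              (pw_pos X _).le (pw_pos X _).le) ?_ (pw_pos X _).le
            exact mul_nonneg (pw_pos X _).le (pw_pos X _).le
        _ = pw X (ep / 2 + (ep + ep / 4)) := by rw [pw_add, pw_add]
        _ ≤ pw X (2 * ep) := pw_le (by linarith)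
    · have hee : 3 * (c * (c * (pw X (ax n₀ (1 / (B : ℝ)) u l) * pw X io) * C)) / s1 ≤
          pw X (2 * ep) := by
        calc 3 * (c * (c * (pw X (ax n₀ (1 / (B : ℝ)) u l) * pw X io) * C)) / s1 =
            3 * (c * (c * C)) / s1 * (pw X (ax n₀ (1 / (B : ℝ)) u l) * pw X io) := by ring
          _ ≤ pw X (ep / 2) * (pw X ep * pw X (ep / 4)) := by
            refine mul_le_mul h4 (mul_le_mul (pw_le ha) (pw_le hioc)
              (pw_pos X _).le (pw_pos X _).le) ?_ (pw_pos X _).le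
            exact mul_nonneg (pw_pos X _).le (pw_pos X _).le
          _ = pw X (ep / 2 + (ep + ep / 4)) := by rw [pw_add, pw_add]
          _ ≤ pw X (2 * ep) := pw_le (by linarith)
      refine ⟨(k3 z v).1.trans hee, (k3 z v).2.trans (le_trans ?_ hee)⟩
      have h0 : 0 ≤ c * (c * (pw X (ax n₀ (1 / (B : ℝ)) u l) * pw X io) * C) := by
        have := pw_pos X (ax n₀ (1 / (B : ℝ)) u l)
        have := pw_pos X io
        positivity
      exact div_le_div_of_nonneg_right (by linarith) hs1'.le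
    · have hpp : q ^ 2 / 2 ≤ (p0 / c) ^ 2 - 4 * η := by
        have : q ^ 2 ≤ (p0 / c) ^ 2 := pow_le_pow_left₀ hq0.le hqp 2
        rw [hη]
        linarith
      refine hpp.trans (k4.trans (pb_mono hp fun ω _ hω => ⟨fun i => ?_, fun v => ?_⟩))
      · refine (hω.1 i).trans ?_
        calc (c : ℝ) * (pw X (-(g / 4)) * pw X io) ≤
            pw X (g / 8) * (pw X (-(g / 4)) * pw X (g / 16)) := by
              refine mul_le_mul (hcs.trans h3) (mul_le_mul_of_nonneg_left (pw_le hiob)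
                (pw_pos X _).le) ?_ (pw_pos X _).le
              exact mul_nonneg (pw_pos X _).le (pw_pos X _).le
          _ = pw X (g / 8 + (-(g / 4) + g / 16)) := by rw [pw_add, pw_add]
          _ ≤ 2 ^ (-(g / 16 * X)) := by
              rw [← neg_mul]
              exact pw_le (by linarith)
      · refine (hω.2 v).trans ?_
        calc (c : ℝ) * (pw X (-(ax n₀ (x1 - g / 4) u l)) * pw X (g / 4)) / s1 =
            c / s1 * (pw X (-(ax n₀ (x1 - g / 4) u l)) * pw X (g / 4)) := by ring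
          _ ≤ pw X (g / 8) * (pw X (-g) * pw X (g / 4)) := by
              refine mul_le_mul h3 (mul_le_mul_of_nonneg_right (pw_le (by linarith))
                (pw_pos X _).le) ?_ (pw_pos X _).le
              exact mul_nonneg (pw_pos X _).le (pw_pos X _).le
          _ = pw X (g / 8 + (-g + g / 4)) := by rw [pw_add, pw_add]
          _ ≤ 2 ^ (-(g / 16 * X)) := by
              rw [← neg_mul]
              exact pw_le (by linarith)
  · exact one_le_pw (ax_pos (by positivity) hu0 i).le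
  · have e1 : p0 ≤ c0 - x1 - η := by
      rw [hx1]
      linarith
    refine e1.trans (hcv.trans (pb_mono hp fun ω _ hω => ?_))
    obtain ⟨m, hm⟩ := hω
    refine ⟨n₀, m, hm.mono ?_ ?_⟩
    · unfold ax pw
      rw [if_pos rfl]
      refine le_of_eq ?_
      congr 1
      ring
    · unfold ax pw
      rw [if_pos rfl]
      refine le_of_eq ?_
      congr 1
      ring
  · refine le_trans (pb_mono (fun w => tup_nonneg hp H.line 1 w) fun w _ hw => ?_) hTM
    exact hw.trans (mul_le_mul_of_nonneg_right hs10 (by positivity))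

end Pool.POT
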