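import Pool.Agent.H21.POT.Trs

/-!
# The maximal body is conserved along the lines (row 366, K_POT)
-/

set_option autoImplicit false

namespace Pool.POT

open Finset Real
open Pool.Agent.H49.Ent Pool.Agent.H32.Dense Pool.STK Pool.FAD
open Pool.KS6 (ind ind_nonneg)
open Pool.SLO (tup tup_nonneg tup_pos_iff tup_perm tup_marg tup_isLaw tup_snoc tup_sub)
open Matrix

variable {c : ℕ} {σ υ : Type}

/-! ### Tuples -/

section tup

variable {Ω Λ S T β : Type} [Fintype Ω] {p : Ω → ℝ}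

theorem tup_line (hp : ∀ ω, 0 ≤ p ω) (L : Ω → Λ) {N : ℕ} {w : Fin (N + 1) → Ω}
    (hw : 0 < tup p L N w) (j : Fin (N + 1)) : L (w j) = L (w 0) :=
  ((tup_pos_iff hp L N w).1 hw).2 j

theorem im_tup (hp : ∀ ω, 0 ≤ p ω) (L : Ω → Λ) (N : ℕ) (j : Fin (N + 1)) :
    Im (tup p L N) p (fun w => w j) := im_of_marg (tup_marg hp L N j)

theorem im_init (hp : ∀ ω, 0 ≤ p ω) (L : Ω → Λ) (N : ℕ) :
    Im (tup p L (N + 1)) (tup p L N) (fun w j => w j.castSucc) :=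
  im_of_marg (tup_sub hp L Fin.castSucc (Fin.castSucc_injective _))

/-- The last sample is independent of the others. -/
theorem tup_ci (hp : ∀ ω, 0 ≤ p ω) (L : Ω → Λ) (N : ℕ) (X : (Fin (N + 1) → Ω) → S) (Y : Ω → T) :
    MI (tup p L (N + 1)) (fun w => X fun j => w j.castSucc) (fun w => Y (w (Fin.last (N + 1))))
      (fun w => L (w 0)) = 0 := by
  have h1 := im_of_marg (tup_snoc hp L N)
  have h2 := glue_ci (p₁ := tup p L N) (p₂ := p) (Z₁ := fun v => L (v 0)) (Z₂ := L)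
    (fun v => tup_nonneg hp L N v) hp (fun z => Pool.SLO.tup_law hp L N z) X Y
  have h3 := h1.MI (fun w => X w.1) (fun w => Y w.2) (fun w => L (w.1 0))
  rw [h2] at h3
  exact h3

/-- The first sample is independent of the others. -/
theorem tup_ci0 (hp : ∀ ω, 0 ≤ p ω) (L : Ω → Λ) (N : ℕ) (X : Ω → S) (Y : (Fin (N + 1) → Ω) → T) :
    MI (tup p L (N + 1)) (fun w => X (w 0)) (fun w => Y fun j => w j.succ)
      (fun w => L (w 0)) = 0 := by
  have h0 : ∀ w, 0 ≤ tup p L (N + 1) w := fun w => tup_nonneg hp L _ w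
  have h1 := im_of_marg (tup_perm hp L (N := N + 1) (finRotate (N + 2)))
  have h2 := tup_ci hp L N Y X
  have h3 := h1.MI (fun w => Y fun j => w j.castSucc) (fun w => X (w (Fin.last (N + 1))))
    (fun w => L (w 0))
  rw [h2] at h3
  rw [MI_symm h0, ← h3]
  have e1 : ∀ j : Fin (N + 1), finRotate (N + 2) j.castSucc = j.succ := by
    intro j
    rw [finRotate_apply]
    exact Fin.coeSucc_eq_succ
  have e2 : finRotate (N + 2) (Fin.last (N + 1)) = 0 := by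
    rw [finRotate_last]
  refine MI_congr h0 ?_ ?_ ?_ ?_ ?_ ?_
  all_goals
    intro w w' x x' h
    have k1 : ∀ j, L (w j) = L (w 0) := tup_line hp L x
    have k2 : ∀ j, L (w' j) = L (w' 0) := tup_line hp L x'
    simp only [Function.comp_def, e1, e2, Prod.mk.injEq, k1, k2] at h ⊢
    exact h

/-- The cost of the other samples. -/
theorem tup_cost (hp : ∀ ω, 0 ≤ p ω) {L : Ω → Λ} {b : Ω → β} (T : Ω → T) (hb : Det p L b)
    {d : ℝ} (h : MI p T L b ≤ d) (N : ℕ) :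
    MI (tup p L N) (fun w => L (w 0)) (fun w (j : Fin N) => T (w j.succ)) (fun w => b (w 0)) ≤
      N * d := by
  induction N with
  | zero =>
    have h0 : ∀ w, 0 ≤ tup p L 0 w := fun w => tup_nonneg hp L _ w
    rw [MI_symm h0, MI_zero h0]
    · simp
    · intro w w' _ _ _
      funext j
      exact j.elim0
  | succ N ih =>
    have h0 : ∀ w, 0 ≤ tup p L (N + 1) w := fun w => tup_nonneg hp L _ w
    have hbb : Det (tup p L (N + 1)) (fun w => L (w 0)) (fun w => b (w 0)) :=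
      (im_tup hp L (N + 1) 0).det h0 hb
    cases N with
    | zero =>
      have h1 := (im_tup hp L 1 1).MI T L b
      rw [MI_symm h0]
      have h2 : MI (tup p L 1) (fun w (j : Fin 1) => T (w j.succ)) (fun w => L (w 0))
          (fun w => b (w 0)) = MI (tup p L 1) (fun w => T (w 1)) (fun w => L (w 1))
          (fun w => b (w 1)) := by
        refine MI_congr h0 ?_ ?_ ?_ ?_ ?_ ?_
        all_goals
          intro w w' x x' h
          have k1 : L (w 1) = L (w 0) := tup_line hp L x 1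
          have k2 : L (w' 1) = L (w' 0) := tup_line hp L x' 1
          have k3 : b (w 1) = b (w 0) := hb _ _ ((im_tup hp L 1 1).pos h0 x)
            ((im_tup hp L 1 0).pos h0 x) k1
          have k4 : b (w' 1) = b (w' 0) := hb _ _ ((im_tup hp L 1 1).pos h0 x')
            ((im_tup hp L 1 0).pos h0 x') k2
          simp only [k1, k2, k3, k4, Prod.mk.injEq] at h ⊢
          first
          | exact h
          | exact ⟨congrFun h.1 0, h.2⟩
          | (refine ⟨?_, h.2⟩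
             funext j
             rw [show j = 0 from Fin.ext (by omega)]
             exact h.1)
      rw [h2, h1]
      simpa using h
    | succ N =>
      have e1 : MI (tup p L (N + 1 + 1)) (fun w => L (w 0))
          (fun w (j : Fin (N + 1 + 1)) => T (w j.succ)) (fun w => b (w 0)) =
          MI (tup p L (N + 1 + 1)) (fun w => L (w 0))
          (fun w => ((fun j : Fin (N + 1) => T (w j.succ.castSucc)), T (w (Fin.last (N + 2)))))
          (fun w => b (w 0)) := by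
        refine MI_congr h0 (fun _ _ _ _ h => h) (fun _ _ _ _ h => h) ?_ ?_ (fun _ _ _ _ h => h)
          (fun _ _ _ _ h => h)
        · intro w w' _ _ h
          simp only [Prod.mk.injEq] at h ⊢
          refine ⟨⟨?_, congrFun h.1 (Fin.last (N + 1))⟩, h.2⟩
          funext j
          exact congrFun h.1 j.castSucc
        · intro w w' _ _ h
          simp only [Prod.mk.injEq] at h ⊢
          refine ⟨?_, h.2⟩
          funext j
          refine Fin.lastCases ?_ (fun i => ?_) j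
          · exact h.1.2
          · exact congrFun h.1.1 i
      have e2 := MI_chain h0 (fun w => L (w 0)) (fun w (j : Fin (N + 1)) => T (w j.succ.castSucc))
        (fun w => T (w (Fin.last (N + 2)))) (fun w => b (w 0))
      have e3 := (im_init hp L (N + 1)).MI (fun w => L (w 0))
        (fun w (j : Fin (N + 1)) => T (w j.succ)) (fun w => b (w 0))
      have e4 : MI (tup p L (N + 1 + 1)) (fun w => L (w 0))
          (fun w (j : Fin (N + 1)) => T (w j.succ.castSucc)) (fun w => b (w 0)) ≤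
          ((N + 1 : ℕ) : ℝ) * d := by
        refine le_trans (le_of_eq ?_) ih
        exact e3
      have e5 : MI (tup p L (N + 1 + 1)) (fun w => L (w 0)) (fun w => T (w (Fin.last (N + 2))))
          (fun w => ((fun j : Fin (N + 1) => T (w j.succ.castSucc)), b (w 0))) ≤ d := by
        have g1 : MI (tup p L (N + 1 + 1)) (fun w => L (w 0)) (fun w => T (w (Fin.last (N + 2))))
            (fun w => ((fun j : Fin (N + 1) => T (w j.succ.castSucc)), b (w 0))) ≤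
            MI (tup p L (N + 1 + 1))
            (fun w => (L (w 0), fun j : Fin (N + 1) => T (w j.succ.castSucc)))
            (fun w => T (w (Fin.last (N + 2)))) (fun w => b (w 0)) := by
          refine MI_data h0 ?_ ?_ <;>
          · intro w w' _ _ h
            simp only [Prod.mk.injEq] at h
            tauto
        have g2 := MI_chain_left h0 (fun w => L (w 0))
          (fun w => fun j : Fin (N + 1) => T (w j.succ.castSucc))
          (fun w => T (w (Fin.last (N + 2)))) (fun w => b (w 0))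
        have g3 : MI (tup p L (N + 1 + 1)) (fun w => L (w 0)) (fun w => T (w (Fin.last (N + 2))))
            (fun w => b (w 0)) ≤ d := by
          refine le_trans (le_of_eq ?_) h
          rw [MI_symm h0, ← (im_tup hp L (N + 1 + 1) (Fin.last (N + 2))).MI T L b]
          refine MI_congr h0 ?_ ?_ ?_ ?_ ?_ ?_
          all_goals
            intro w w' x x' h
            have k1 : L (w (Fin.last (N + 2))) = L (w 0) := tup_line hp L x _
            have k2 : L (w' (Fin.last (N + 2))) = L (w' 0) := tup_line hp L x' _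
            have k3 : b (w (Fin.last (N + 2))) = b (w 0) :=
              hb _ _ ((im_tup hp L _ _).pos h0 x) ((im_tup hp L _ 0).pos h0 x) k1
            have k4 : b (w' (Fin.last (N + 2))) = b (w' 0) :=
              hb _ _ ((im_tup hp L _ _).pos h0 x') ((im_tup hp L _ 0).pos h0 x') k2
            simp only [k1, k2, k3, k4, Prod.mk.injEq] at h ⊢
            exact h
        have g4 : MI (tup p L (N + 1 + 1))
            (fun w => fun j : Fin (N + 1) => T (w j.succ.castSucc))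
            (fun w => T (w (Fin.last (N + 2)))) (fun w => (L (w 0), b (w 0))) ≤ 0 := by
          have k1 := tup_ci hp L (N + 1) (fun (w : Fin (N + 2) → Ω) (j : Fin (N + 1)) =>
            T (w j.succ)) T
          refine le_trans (le_of_eq ?_) k1.le
          refine MI_congr h0 ?_ ?_ ?_ ?_ ?_ ?_
          · intro w w' _ _ h
            simp only [Prod.mk.injEq] at h ⊢
            exact ⟨h.1, h.2.1⟩
          · intro w w' x x' h
            simp only [Prod.mk.injEq] at h ⊢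
            exact ⟨h.1, h.2, hbb w w' x x' h.2⟩
          · intro w w' _ _ h
            simp only [Prod.mk.injEq] at h ⊢
            exact ⟨h.1, h.2.1⟩
          · intro w w' x x' h
            simp only [Prod.mk.injEq] at h ⊢
            exact ⟨h.1, h.2, hbb w w' x x' h.2⟩
          · intro w w' _ _ h
            exact (Prod.ext_iff.mp h).1
          · intro w w' x x' h
            exact Prod.ext h (hbb w w' x x' h)
        linarith
      push_cast at e4 ⊢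
      linarith

end tup

/-! ### Line systems -/

/-- A line system: `L` the line, `b` the context, `v` the velocity, `th` the time, `s` the visible
record, `y`, `n` the near point in the visible chart, `M` the change of charts. -/
structure Ln (c : ℕ) (σ υ : Type) where
  Ω : Type
  iΩ : Fintype Ω
  Λ : Type
  β : Type
  V : Type
  Θ : Type
  p : Ω → ℝ
  L : Ω → Λ
  b : Ω → β
  v : Ω → V
  th : Ω → Θ
  s : Ω → σ
  y : Ω → υ
  n : Ω → Fin c → ℤ
  M : Ω → Matrix (Fin c) (Fin c) ℝ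

attribute [instance] Ln.iΩ

/-- The point. -/
def Ln.pt (Q : Ln c σ υ) (ω : Q.Ω) : σ × (υ × (Fin c → ℤ)) := (Q.s ω, (Q.y ω, Q.n ω))

/-- The hypotheses. -/
structure Ln.Ok (Q : Ln c σ υ) (d δ e Γ R : ℝ) : Prop where
  law : IsLaw Q.p
  dLb : Det Q.p Q.L Q.b
  dLv : Det Q.p Q.L Q.v
  ds : Det Q.p (fun ω => (Q.b ω, Q.th ω)) Q.s
  dM : Det Q.p (fun ω => (Q.b ω, Q.s ω)) Q.M
  h0 : MI Q.p Q.th Q.L Q.b ≤ d
  h2 : MI Q.p Q.n Q.v (fun ω => (Q.y ω, (Q.b ω, Q.th ω))) ≤ d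
  hF : MI Q.p (fun ω => (Q.y ω, Q.n ω)) Q.b Q.s ≤ δ
  e1 : CH Q.p (fun ω => (Q.y ω, Q.n ω)) (fun ω => (Q.L ω, Q.s ω)) ≤ e
  e2 : CH Q.p Q.y (fun ω => (Q.v ω, (Q.b ω, Q.th ω))) ≤ e
  det : ∀ ω, (Q.M ω).det = 1
  ent : ∀ ω i j, |Q.M ω i j| ≤ Γ
  inv : ∀ ω i j, |(Q.M ω)⁻¹ i j| ≤ Γ
  tr : ∀ ω0 ω1 ω0' ω1', 0 < Q.p ω0 → 0 < Q.p ω1 → 0 < Q.p ω0' → 0 < Q.p ω1' →
    Q.L ω1 = Q.L ω0 → Q.L ω1' = Q.L ω0' →
    (Q.v ω0, (Q.b ω0, (Q.th ω0, Q.th ω1))) = (Q.v ω0', (Q.b ω0', (Q.th ω0', Q.th ω1'))) →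
    ∀ i, |((Q.M ω0)⁻¹ *ᵥ dv (Q.n ω0) (Q.n ω0')) i -
      ((Q.M ω1)⁻¹ *ᵥ dv (Q.n ω1) (Q.n ω1')) i| ≤ R

/-- The law of two samples of a line with a datum at the second. -/
noncomputable def Ln.q (Q : Ln c σ υ) (D : Dt c σ υ) : (Fin (1 + 1) → Q.Ω) × D.Ω → ℝ :=
  glue (tup Q.p Q.L 1) D.p (fun w => Q.pt (w 1)) D.pt

/-- The transported datum. -/
noncomputable def Ln.tr' (Q : Ln c σ υ) (Γ : ℝ) (D : Dt c σ υ) : Dt c σ υ where
  Ω := (Fin (1 + 1) → Q.Ω) × D.Ω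
  iΩ := inferInstance
  ζ := Q.β × (Q.Θ × D.ζ)
  p := Q.q D
  s w := Q.s (w.1 0)
  y w := Q.y (w.1 0)
  n w := Q.n (w.1 0)
  Z w := (Q.b (w.1 0), (Q.th (w.1 1), D.Z w.2))
  A w := tb Γ (Q.M (w.1 0)) (Q.M (w.1 1)) (D.A w.2)

/-- The price of a transport. -/
noncomputable def Pt (c : ℕ) (d δ e Γ R : ℝ) : ℝ :=
  δ + 3 * d + 2 * e + (c * Real.log (Gm c Γ) + Ctr c (1 + (c : ℝ) ^ 2 * Γ * R))

section transport

variable {Q : Ln c σ υ} {D : Dt c σ υ} {d δ e Γ R C a : ℝ} {X : ℕ}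

theorem Ln.tr_law (hQ : Q.Ok d δ e Γ R) (hD : D.Ok X C (law Q.p Q.pt) a) (P) :
    law (tup Q.p Q.L 1) (fun w => Q.pt (w 1)) P = law D.p D.pt P := by
  rw [(im_tup hQ.law.nonneg Q.L 1 1).law Q.pt P, hD.mar P]

theorem Ln.tr_im (hQ : Q.Ok d δ e Γ R) (hD : D.Ok X C (law Q.p Q.pt) a) :
    Im (Q.q D) (tup Q.p Q.L 1) Prod.fst :=
  im_fst (fun w => tup_nonneg hQ.law.nonneg Q.L 1 w) (Ln.tr_law hQ hD)

theorem Ln.tr_imD (hQ : Q.Ok d δ e Γ R) (hD : D.Ok X C (law Q.p Q.pt) a) :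
    Im (Q.q D) D.p Prod.snd :=
  im_snd hD.law.nonneg (Ln.tr_law hQ hD)

theorem Ln.Ok.nn (hQ : Q.Ok d δ e Γ R) : 0 ≤ d ∧ 0 ≤ δ ∧ 0 ≤ e :=
  ⟨(MI_nonneg hQ.law.nonneg _ _ _).trans hQ.h0, (MI_nonneg hQ.law.nonneg _ _ _).trans hQ.hF,
    (CH_nonneg hQ.law.nonneg _ _).trans hQ.e1⟩

theorem Ln.Ok.dM' (hQ : Q.Ok d δ e Γ R) : Det Q.p (fun ω => (Q.b ω, Q.th ω)) Q.M := by
  intro ω ω' x x' h
  have h1 := hQ.ds ω ω' x x' h
  simp only [Prod.mk.injEq] at h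
  exact hQ.dM ω ω' x x' (Prod.ext h.1 h1)

theorem Pt_ge (hc : 0 < c) (hΓ : 1 ≤ Γ) (hR : 0 ≤ R) (hd : 0 ≤ d) (he : 0 ≤ e) :
    δ + d ≤ Pt c d δ e Γ R := by
  have h1 := Real.log_nonneg (one_le_Gm hc hΓ)
  have h2 := Ctr_nonneg c (R := 1 + (c : ℝ) ^ 2 * Γ * R) (by positivity)
  have h3 : 0 ≤ (c : ℝ) * Real.log (Gm c Γ) := by positivity
  unfold Pt
  linarith

/-- **Transport**: a datum at one time of the line is a datum at another time. -/
theorem Ln.tr_ok (hQ : Q.Ok d δ e Γ R) (hD : D.Ok X C (law Q.p Q.pt) a) (hc : 0 < c)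
    (hΓ : 1 ≤ Γ) (hR : 0 ≤ R) :
    (Q.tr' Γ D).Ok X (Gm c Γ ^ 2 * C) (law Q.p Q.pt) (a + Pt c d δ e Γ R) := by
  have hp := hQ.law.nonneg
  have ht0 : ∀ w, 0 ≤ tup Q.p Q.L 1 w := fun w => tup_nonneg hp Q.L 1 w
  have h0 : ∀ w : (Fin (1 + 1) → Q.Ω) × D.Ω, 0 ≤ (Q.q D) w :=
    glue_nonneg (Z₁ := fun w : Fin (1 + 1) → Q.Ω => Q.pt (w 1)) (Z₂ := D.pt) ht0 hD.law.nonneg
  have iT := Ln.tr_im hQ hD
  have iD := Ln.tr_imD hQ hD
  have i0 : Im (Q.q D) Q.p (fun w => w.1 0) := (im_tup hp Q.L 1 0).comp iT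
  have i1 : Im (Q.q D) Q.p (fun w => w.1 1) := (im_tup hp Q.L 1 1).comp iT
  have hlaw : IsLaw (Q.q D) := i0.isLaw h0 hQ.law
  have ha : 0 ≤ a := (MI_nonneg hD.law.nonneg _ _ _).trans hD.fr
  obtain ⟨hd, hδ, he⟩ := hQ.nn
  -- facts about a sample
  have kL : ∀ w, 0 < (Q.q D) w → Q.L (w.1 1) = Q.L (w.1 0) := fun w hw =>
    tup_line hp Q.L (iT.pos h0 hw) 1
  have kb : ∀ w, 0 < (Q.q D) w → Q.b (w.1 1) = Q.b (w.1 0) := fun w hw =>
    hQ.dLb _ _ (i1.pos h0 hw) (i0.pos h0 hw) (kL w hw)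
  have kv : ∀ w, 0 < (Q.q D) w → Q.v (w.1 1) = Q.v (w.1 0) := fun w hw =>
    hQ.dLv _ _ (i1.pos h0 hw) (i0.pos h0 hw) (kL w hw)
  have kpt : ∀ w, 0 < (Q.q D) w → Q.pt (w.1 1) = D.pt w.2 := fun w hw =>
    ((glue_pos_iff (Z₁ := fun w : Fin (1 + 1) → Q.Ω => Q.pt (w 1)) (Z₂ := D.pt) ht0
      hD.law.nonneg w).1 hw).2.2
  -- determinations
  have dLb := i0.det h0 hQ.dLb
  have dLv := i0.det h0 hQ.dLv
  have ds0 := i0.det h0 hQ.ds
  have dM0 := i0.det h0 hQ.dM'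
  have ds1 : Det (Q.q D) (fun w => (Q.b (w.1 0), Q.th (w.1 1))) (fun w => Q.s (w.1 1)) := by
    intro w w' x x' h
    refine i1.det h0 hQ.ds w w' x x' ?_
    have h' := h
    simp only [Prod.mk.injEq] at h' ⊢
    rw [kb w x, kb w' x']
    exact h'
  have dM1 : Det (Q.q D) (fun w => (Q.b (w.1 0), Q.th (w.1 1))) (fun w => Q.M (w.1 1)) := by
    intro w w' x x' h
    refine i1.det h0 hQ.dM' w w' x x' ?_
    have h' := h
    simp only [Prod.mk.injEq] at h' ⊢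
    rw [kb w x, kb w' x']
    exact h'
  have dZ : Det (Q.q D) (fun w => (Q.s (w.1 1), D.Z w.2)) (fun w => D.A w.2) := by
    intro w w' x x' h
    have k1 := kpt w x
    have k2 := kpt w' x'
    simp only [Ln.pt, Dt.pt, Prod.mk.injEq] at k1 k2 h
    exact iD.det h0 hD.dZ w w' x x' (Prod.ext (k1.1.symm.trans (h.1.trans k2.1)) h.2)
  -- conditional independence
  have c1 : MI (Q.q D) (fun w => w.1) (fun w => D.Z w.2) (fun w => Q.pt (w.1 1)) = 0 :=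
    glue_ci ht0 hD.law.nonneg (Ln.tr_law hQ hD) (fun w => w) D.Z
  have ci2 : MI (Q.q D) (fun w => (Q.L (w.1 0), (Q.th (w.1 0), Q.th (w.1 1))))
      (fun w => D.Z w.2) (fun w => (Q.s (w.1 1), (Q.y (w.1 1), Q.n (w.1 1)))) = 0 := by
    refine le_antisymm ?_ (MI_nonneg h0 _ _ _)
    rw [← c1]
    refine MI_le_left h0 ?_
    intro w w' _ _ h
    simp only [Prod.mk.injEq] at h
    simp only [h.1]
  have ciT : MI (Q.q D) (fun w => w.1 0) (fun w => w.1 1) (fun w => Q.L (w.1 0)) = 0 := by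
    rw [iT.MI (fun w : Fin (1 + 1) → Q.Ω => w 0) (fun w => w 1) (fun w => Q.L (w 0))]
    exact tup_ci0 hp Q.L 0 (fun ω => ω) (fun w => w 0)
  have ci0 : MI (Q.q D) (fun w => w.1 0) (fun w => (w.1 1, D.Z w.2))
      (fun w => Q.L (w.1 0)) = 0 := by
    refine le_antisymm ?_ (MI_nonneg h0 _ _ _)
    have g2 := MI_chain h0 (fun w => w.1 0) (fun w => w.1 1) (fun w => D.Z w.2)
      (fun w => Q.L (w.1 0))
    have g4 : MI (Q.q D) (fun w => w.1 0) (fun w => D.Z w.2)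
        (fun w => (w.1 1, Q.L (w.1 0))) ≤ 0 := by
      rw [← c1]
      have g5 : MI (Q.q D) (fun w => w.1 0) (fun w => D.Z w.2)
          (fun w => (w.1 1, Q.L (w.1 0))) = MI (Q.q D) (fun w => w.1 0)
          (fun w => D.Z w.2) (fun w => (w.1 1, Q.pt (w.1 1))) := by
        refine MI_congr h0 ?_ ?_ ?_ ?_ ?_ ?_
        all_goals
          intro w w' x x' h
          have k1 := kL w x
          have k2 := kL w' x'
          simp only [Prod.mk.injEq] at h ⊢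
        · exact ⟨h.1, h.2.1, by rw [h.2.1]⟩
        · exact ⟨h.1, h.2.1, by rw [← k1, ← k2, h.2.1]⟩
        · exact ⟨h.1, h.2.1, by rw [h.2.1]⟩
        · exact ⟨h.1, h.2.1, by rw [← k1, ← k2, h.2.1]⟩
        · exact ⟨h.1, by rw [h.1]⟩
        · exact ⟨h.1, by rw [← k1, ← k2, h.1]⟩
      rw [g5]
      refine MI_data h0 ?_ ?_ <;>
      · intro w w' _ _ h
        simp only [Prod.mk.injEq] at h
        simp only [h.1]
    linarith
  have ci1 : MI (Q.q D) (fun w => (Q.th (w.1 0), (Q.y (w.1 0), Q.n (w.1 0))))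
      (fun w => (Q.th (w.1 1), D.Z w.2)) (fun w => Q.L (w.1 0)) = 0 := by
    refine le_antisymm ?_ (MI_nonneg h0 _ _ _)
    rw [← ci0]
    refine (MI_le_left h0 (X := fun w => w.1 0) ?_).trans
      (MI_le_right h0 (X := fun w => (w.1 1, D.Z w.2)) ?_)
    · intro w w' _ _ h
      simp only [Prod.mk.injEq] at h
      simp only [h.1]
    · intro w w' _ _ h
      simp only [Prod.mk.injEq] at h
      simp only [h.1]
  have ci1' : MI (Q.q D) (fun w => Q.th (w.1 0))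
      (fun w => (Q.th (w.1 1), (Q.y (w.1 1), Q.n (w.1 1)))) (fun w => Q.L (w.1 0)) = 0 := by
    refine le_antisymm ?_ (MI_nonneg h0 _ _ _)
    rw [← ciT]
    refine (MI_le_left h0 (X := fun w => w.1 0) ?_).trans
      (MI_le_right h0 (X := fun w => w.1 1) ?_)
    · intro w w' _ _ h
      simp only [Prod.mk.injEq] at h
      simp only [h.1]
    · intro w w' _ _ h
      simp only [Prod.mk.injEq] at h
      simp only [h.1]
  -- the informations at the two times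
  have a10 := i0.MI Q.th Q.L Q.b
  have a11 : MI (Q.q D) (fun w => Q.th (w.1 1)) (fun w => Q.L (w.1 0))
      (fun w => Q.b (w.1 0)) ≤ d := by
    refine le_trans (le_of_eq ?_) hQ.h0
    rw [← i1.MI Q.th Q.L Q.b]
    refine MI_congr h0 ?_ ?_ ?_ ?_ ?_ ?_
    all_goals
      intro w w' x x' h
      have k1 := kL w x
      have k2 := kL w' x'
      have k3 := kb w x
      have k4 := kb w' x'
      simp only [Prod.mk.injEq, k1, k2, k3, k4] at h ⊢
      exact h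
  have a2 : MI (Q.q D) (fun w => Q.n (w.1 1)) (fun w => Q.v (w.1 0))
      (fun w => (Q.y (w.1 1), (Q.b (w.1 0), Q.th (w.1 1)))) ≤ d := by
    refine le_trans (le_of_eq ?_) hQ.h2
    rw [← i1.MI Q.n Q.v (fun ω => (Q.y ω, (Q.b ω, Q.th ω)))]
    refine MI_congr h0 ?_ ?_ ?_ ?_ ?_ ?_
    all_goals
      intro w w' x x' h
      have k1 := kv w x
      have k2 := kv w' x'
      have k3 := kb w x
      have k4 := kb w' x'
      simp only [Prod.mk.injEq, k1, k2, k3, k4] at h ⊢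
      exact h
  have a30 := i0.MI (fun ω => (Q.y ω, Q.n ω)) Q.b Q.s
  have a31 : MI (Q.q D) (fun w => (Q.y (w.1 1), Q.n (w.1 1))) (fun w => Q.b (w.1 0))
      (fun w => Q.s (w.1 1)) ≤ δ := by
    refine le_trans (le_of_eq ?_) hQ.hF
    rw [← i1.MI (fun ω => (Q.y ω, Q.n ω)) Q.b Q.s]
    refine MI_congr h0 ?_ ?_ ?_ ?_ ?_ ?_
    all_goals
      intro w w' x x' h
      have k3 := kb w x
      have k4 := kb w' x'
      simp only [Prod.mk.injEq, k3, k4] at h ⊢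
      exact h
  have hc1 : CH (Q.q D) (fun w => (Q.y (w.1 1), Q.n (w.1 1)))
      (fun w => (Q.L (w.1 0), Q.s (w.1 1))) ≤ e := by
    refine le_trans ?_ ((i1.CH (fun ω => (Q.y ω, Q.n ω)) (fun ω => (Q.L ω, Q.s ω))).le.trans
      hQ.e1)
    refine CH_mono_cond h0 ?_
    intro w w' x x' h
    have k1 := kL w x
    have k2 := kL w' x'
    simp only [Prod.mk.injEq, k1, k2] at h ⊢
    exact h
  have hc0 := i0.CH Q.y (fun ω => (Q.v ω, (Q.b ω, Q.th ω)))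
  have e1 : MI (Q.q D) (fun w => (Q.y (w.1 1), Q.n (w.1 1))) (fun w => D.Z w.2)
      (fun w => Q.s (w.1 1)) ≤ a := by
    refine le_trans (le_of_eq ?_) hD.fr
    rw [← iD.MI (fun ω => (D.y ω, D.n ω)) D.Z D.s]
    refine MI_congr h0 ?_ ?_ ?_ ?_ ?_ ?_
    all_goals
      intro w w' x x' h
      have k1 := kpt w x
      have k2 := kpt w' x'
      simp only [Ln.pt, Dt.pt, Prod.mk.injEq] at k1 k2 h ⊢
      simp only [k1, k2] at h ⊢
      exact h
  have e2 : DF (Q.q D) (fun _ => Tx c X) (fun w => D.A w.2) (fun w => xv X (Q.n (w.1 1)))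
      (fun w => (Q.y (w.1 1), (Q.s (w.1 1), D.Z w.2))) ≤ a := by
    have g1 := DF_image iD X D.A D.n (fun ω => (D.y ω, (D.s ω, D.Z ω)))
    have g2 := hD.fu
    rw [← g1] at g2
    refine le_trans (le_of_eq ?_) g2
    rw [DF_xv, DF_xv]
    congr 1
    refine CH_congr h0 ?_ ?_ ?_ ?_
    all_goals
      intro w w' x x' h
      have k1 := kpt w x
      have k2 := kpt w' x'
      simp only [Ln.pt, Dt.pt, Prod.mk.injEq] at k1 k2 h ⊢
      simp only [k1, k2] at h ⊢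
      tauto
  have tr : ∀ w w', 0 < (Q.q D) w → 0 < (Q.q D) w' →
      (Q.v (w.1 0), (Q.b (w.1 0), (Q.th (w.1 0), Q.th (w.1 1)))) =
      (Q.v (w'.1 0), (Q.b (w'.1 0), (Q.th (w'.1 0), Q.th (w'.1 1)))) → ∀ i,
      |((Q.M (w.1 0))⁻¹ *ᵥ dv (Q.n (w.1 0)) (Q.n (w'.1 0))) i -
        ((Q.M (w.1 1))⁻¹ *ᵥ dv (Q.n (w.1 1)) (Q.n (w'.1 1))) i| ≤ R :=
    fun w w' x x' h => hQ.tr _ _ _ _ (i0.pos h0 x) (i1.pos h0 x) (i0.pos h0 x') (i1.pos h0 x')
      (kL w x) (kL w' x') h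
  refine ⟨hlaw, ?_, fun w => tb_det_ne hc hΓ (hQ.det _) (hQ.det _) (hD.det _),
    fun w => tb_ent hc hΓ (hQ.ent _) (hQ.inv _) (hD.ent _),
    fun w => tb_inv hc hΓ (hQ.det _) (hQ.det _) (hD.det _) (hQ.inv _) (hQ.ent _) (hD.inv _),
    ?_, ?_, ?_⟩
  · intro P
    exact i0.law Q.pt P
  · intro w w' x x' h
    have h' : (Q.s (w.1 0), (Q.b (w.1 0), (Q.th (w.1 1), D.Z w.2))) =
      (Q.s (w'.1 0), (Q.b (w'.1 0), (Q.th (w'.1 1), D.Z w'.2))) := h
    simp only [Prod.mk.injEq] at h'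
    have k0 : Q.M (w.1 0) = Q.M (w'.1 0) :=
      i0.det h0 hQ.dM w w' x x' (Prod.ext h'.2.1 h'.1)
    have k1 : Q.M (w.1 1) = Q.M (w'.1 1) := dM1 w w' x x' (Prod.ext h'.2.1 h'.2.2.1)
    have k2 : Q.s (w.1 1) = Q.s (w'.1 1) := ds1 w w' x x' (Prod.ext h'.2.1 h'.2.2.1)
    have k3 : D.A w.2 = D.A w'.2 := dZ w w' x x' (Prod.ext k2 h'.2.2.2)
    change tb Γ (Q.M (w.1 0)) (Q.M (w.1 1)) (D.A w.2) =
      tb Γ (Q.M (w'.1 0)) (Q.M (w'.1 1)) (D.A w'.2)
    rw [k0, k1, k3]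
  · have := trs_fr h0 dLb ds0 ds1 ci1 ci2 a11 (a30.le.trans hQ.hF) e1
    refine le_trans this ?_
    have := Pt_ge (δ := δ) hc hΓ hR hd he
    linarith
  · have := trs_fu hlaw X hc hΓ hR dLb dLv ds1 ds0 dZ dM0 dM1 (fun w => hD.det _)
      (fun w => hD.inv _) (fun w => hQ.det _) (fun w => hQ.det _) (fun w => hQ.ent _) ci1' ci2
      (a10.le.trans hQ.h0) a11 a2 a31 hc1 (hc0.le.trans hQ.e2) e2 tr
    refine le_trans this (le_of_eq ?_)
    unfold Pt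
    ring

/-- The same change of charts for both bodies. -/
theorem far_tb (hc : 0 < c) (hΓ : 1 ≤ Γ) {M0 M1 A B : Matrix (Fin c) (Fin c) ℝ}
    (h0 : M0.det = 1) (h1 : M1.det = 1) (hA : A.det ≠ 0) {L : ℝ} (h : ¬ Far L A B) :
    ¬ Far L (tb Γ M0 M1 A) (tb Γ M0 M1 B) := by
  have hG := one_le_Gm hc hΓ
  have e : (tb Γ M0 M1 A)⁻¹ * tb Γ M0 M1 B = A⁻¹ * B := by
    rw [tb_inv_eq hc hΓ h0 h1 hA]
    unfold tb
    have hM1 : IsUnit M1.det := by rw [h1]; exact isUnit_one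
    have hM0 : IsUnit M0.det := by rw [h0]; exact isUnit_one
    rw [Matrix.smul_mul, Matrix.mul_smul, smul_smul, inv_mul_cancel₀ (by linarith), one_smul]
    calc A⁻¹ * (M1 * M0⁻¹) * (M0 * M1⁻¹ * B) = A⁻¹ * (M1 * (M0⁻¹ * M0) * M1⁻¹) * B := by
          simp only [Matrix.mul_assoc]
      _ = A⁻¹ * (M1 * M1⁻¹) * B := by
          rw [Matrix.nonsing_inv_mul _ hM0, Matrix.mul_one]
      _ = A⁻¹ * B := by rw [Matrix.mul_nonsing_inv _ hM1, Matrix.mul_one]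
  rw [not_far] at h ⊢
  rw [e]
  exact h

/-- **The maximal body is conserved along the line**. -/
theorem Ln.cons (hQ : Q.Ok d δ e Γ R) (hD : D.Ok X C (law Q.p Q.pt) a) (hc : 0 < c)
    (hΓ : 1 ≤ Γ) (hR : 0 ≤ R) {Ap : σ × (υ × (Fin c → ℤ)) → Matrix (Fin c) (Fin c) ℝ}
    {g L C' a' : ℝ} (hL : 0 ≤ L) (hC' : Gm c Γ ^ 2 * C ≤ C')
    (h1 : Ex D.p (fun ω => ind (Far L (Ap (D.pt ω)) (D.A ω) ∨ Far L (D.A ω) (Ap (D.pt ω)))) ≤
      2 * g)
    (h2 : ∀ (E : Dt c σ υ) (b : ℝ), E.Ok X C' (law Q.p Q.pt) b → 2 * (a + b) + |Csb c| ≤ a' →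
      Ex E.p (fun ω => ind (Far (c * (L * L)) (Ap (E.pt ω)) (E.A ω))) ≤ 3 * g)
    (ha' : 2 * (a + (a + Pt c d δ e Γ R)) + |Csb c| ≤ a') :
    Ex (tup Q.p Q.L 1) (fun w => ind (Far (c * (c * (L * L) * L)) (Ap (Q.pt (w 0)))
      (tb Γ (Q.M (w 0)) (Q.M (w 1)) (Ap (Q.pt (w 1)))))) ≤ 5 * g := by
  have hp := hQ.law.nonneg
  have ht0 : ∀ w, 0 ≤ tup Q.p Q.L 1 w := fun w => tup_nonneg hp Q.L 1 w
  have h0 : ∀ w : (Fin (1 + 1) → Q.Ω) × D.Ω, 0 ≤ (Q.q D) w :=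
    glue_nonneg (Z₁ := fun w : Fin (1 + 1) → Q.Ω => Q.pt (w 1)) (Z₂ := D.pt) ht0 hD.law.nonneg
  have iT := Ln.tr_im hQ hD
  have iD := Ln.tr_imD hQ hD
  have kpt : ∀ w, 0 < (Q.q D) w → Q.pt (w.1 1) = D.pt w.2 := fun w hw =>
    ((glue_pos_iff (Z₁ := fun w : Fin (1 + 1) → Q.Ω => Q.pt (w 1)) (Z₂ := D.pt) ht0
      hD.law.nonneg w).1 hw).2.2
  have f1 : Ex (Q.q D) (fun w => ind (Far (c * (L * L)) (Ap (Q.pt (w.1 0)))
      (tb Γ (Q.M (w.1 0)) (Q.M (w.1 1)) (D.A w.2)))) ≤ 3 * g :=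
    h2 _ _ ((Ln.tr_ok hQ hD hc hΓ hR).mono' hC' le_rfl) ha'
  have f2 := iD.Ex (fun ω => ind (Far L (Ap (D.pt ω)) (D.A ω) ∨ Far L (D.A ω) (Ap (D.pt ω))))
  have f3 := iT.Ex (fun w : Fin (1 + 1) → Q.Ω => ind (Far (c * (c * (L * L) * L))
    (Ap (Q.pt (w 0))) (tb Γ (Q.M (w 0)) (Q.M (w 1)) (Ap (Q.pt (w 1))))))
  rw [← f3]
  have f4 : Ex (Q.q D) (fun w => ind (Far (c * (c * (L * L) * L)) (Ap (Q.pt (w.1 0)))
      (tb Γ (Q.M (w.1 0)) (Q.M (w.1 1)) (Ap (Q.pt (w.1 1)))))) ≤ Ex (Q.q D) (fun w =>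
      ind (Far (c * (L * L)) (Ap (Q.pt (w.1 0))) (tb Γ (Q.M (w.1 0)) (Q.M (w.1 1)) (D.A w.2))) +
      ind (Far L (Ap (D.pt w.2)) (D.A w.2) ∨ Far L (D.A w.2) (Ap (D.pt w.2)))) := by
    refine Ex_mono h0 fun w hw => ?_
    refine ind_le_add fun hf => ?_
    by_contra hcon
    push Not at hcon
    obtain ⟨k1, -, k2⟩ := hcon
    rw [← kpt w hw] at k2
    exact far_trans (by positivity) (tb_det_ne hc hΓ (hQ.det _) (hQ.det _) (hD.det w.2)) k1
      (far_tb hc hΓ (hQ.det _) (hQ.det _) (hD.det w.2) k2) hf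
  rw [Ex_add] at f4
  linarith

/-! ### The datum of a body which is a function of other times -/

/-- The datum. -/
noncomputable def Ln.bd (Q : Ln c σ υ) (Γ : ℝ) (N : ℕ)
    (A0 : (Fin (N + 1) → Q.Θ) → Matrix (Fin c) (Fin c) ℝ) : Dt c σ υ where
  Ω := Fin (N + 1 + 1) → Q.Ω
  iΩ := inferInstance
  ζ := Q.β × (Fin (N + 1) → Q.Θ)
  p := tup Q.p Q.L (N + 1)
  s w := Q.s (w 0)
  y w := Q.y (w 0)
  n w := Q.n (w 0)
  Z w := (Q.b (w 0), fun j => Q.th (w j.succ))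
  A w := tb Γ (Q.M (w 0)) 1 (A0 fun j => Q.th (w j.succ))

theorem one_ent (hΓ : 1 ≤ Γ) (i j : Fin c) : |(1 : Matrix (Fin c) (Fin c) ℝ) i j| ≤ Γ := by
  rw [Matrix.one_apply]
  split_ifs
  · rw [abs_one]
    exact hΓ
  · rw [abs_zero]
    linarith

theorem Ln.bd_ok (hQ : Q.Ok d δ e Γ R) (hc : 0 < c) (hΓ : 1 ≤ Γ) (hR : 0 ≤ R) (N : ℕ)
    {A0 : (Fin (N + 1) → Q.Θ) → Matrix (Fin c) (Fin c) ℝ} {h : Q.Ω → Fin c → ℤ} {g : ℝ}
    (hg0 : 0 ≤ g) (hA : ∀ t, (A0 t).det ≠ 0 ∧ (∀ i j, |A0 t i j| ≤ C) ∧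
      ∀ i j, |(A0 t)⁻¹ i j| ≤ 2 ^ X)
    (dh : Det Q.p (fun ω => (Q.L ω, Q.th ω)) h)
    (h2 : MI Q.p h Q.v (fun ω => (Q.th ω, Q.b ω)) ≤ d)
    (tr : ∀ ω ω', 0 < Q.p ω → 0 < Q.p ω' → (Q.y ω, (Q.b ω, Q.th ω)) = (Q.y ω', (Q.b ω', Q.th ω')) →
      ∀ i, |((Q.M ω)⁻¹ *ᵥ dv (Q.n ω) (Q.n ω')) i - dv (h ω) (h ω') i| ≤ R)
    (hg : DF (tup Q.p Q.L (N + 1)) (fun _ => Tx c X) (fun w => A0 fun j => Q.th (w j.succ))
      (fun w => xv X (h (w 0)))
      (fun w => (Q.b (w 0), (Q.th (w 0), fun j : Fin (N + 1) => Q.th (w j.succ)))) ≤ g) :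
    (Q.bd Γ N A0).Ok X (Gm c Γ ^ 2 * C) (law Q.p Q.pt) (g + (N + 1) * d + Pt c d δ e Γ R) := by
  have hp := hQ.law.nonneg
  have h0 : ∀ w, 0 ≤ tup Q.p Q.L (N + 1) w := fun w => tup_nonneg hp Q.L _ w
  have i0 : Im (tup Q.p Q.L (N + 1)) Q.p (fun w => w 0) := im_tup hp Q.L (N + 1) 0
  have hlaw : IsLaw (tup Q.p Q.L (N + 1)) := tup_isLaw hQ.law Q.L (N + 1)
  obtain ⟨hd, hδ, he⟩ := hQ.nn
  have hN : (0 : ℝ) ≤ ((N + 1 : ℕ) : ℝ) * d := by positivity
  have c1 := tup_cost hp Q.th hQ.dLb hQ.h0 (N + 1)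
  have c2 : MI (tup Q.p Q.L (N + 1)) (fun w => (Q.th (w 0), (Q.y (w 0), Q.n (w 0))))
      (fun w (j : Fin (N + 1)) => Q.th (w j.succ)) (fun w => Q.L (w 0)) = 0 :=
    tup_ci0 hp Q.L N (fun ω => (Q.th ω, (Q.y ω, Q.n ω)))
      (fun (w : Fin (N + 1) → Q.Ω) j => Q.th (w j))
  have a30 := i0.MI (fun ω => (Q.y ω, Q.n ω)) Q.b Q.s
  have a2 := i0.MI h Q.v (fun ω => (Q.th ω, Q.b ω))
  have hc0 := i0.CH Q.y (fun ω => (Q.v ω, (Q.b ω, Q.th ω)))
  have hPt := Pt_ge (δ := δ) hc hΓ hR hd he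
  have i1 : ∀ i j : Fin c, |(1 : Matrix (Fin c) (Fin c) ℝ)⁻¹ i j| ≤ Γ := by
    intro i j
    rw [inv_one]
    exact one_ent hΓ i j
  refine ⟨hlaw, fun P => i0.law Q.pt P,
    fun w => tb_det_ne hc hΓ (hQ.det _) Matrix.det_one (hA _).1,
    fun w => tb_ent hc hΓ (hQ.ent _) i1 (hA _).2.1,
    fun w => tb_inv hc hΓ (hQ.det _) Matrix.det_one (hA _).1 (hQ.inv _) (one_ent hΓ)
      (hA _).2.2, ?_, ?_, ?_⟩
  · intro w w' x x' h
    have h' : (Q.s (w 0), (Q.b (w 0), fun j : Fin (N + 1) => Q.th (w j.succ))) =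
      (Q.s (w' 0), (Q.b (w' 0), fun j => Q.th (w' j.succ))) := h
    simp only [Prod.mk.injEq] at h'
    have k0 : Q.M (w 0) = Q.M (w' 0) := i0.det h0 hQ.dM w w' x x' (Prod.ext h'.2.1 h'.1)
    change tb Γ (Q.M (w 0)) 1 (A0 fun j => Q.th (w j.succ)) =
      tb Γ (Q.M (w' 0)) 1 (A0 fun j => Q.th (w' j.succ))
    rw [k0, h'.2.2]
  · have := tim_fr h0 (i0.det h0 hQ.dLb) (i0.det h0 hQ.ds) c2 c1 (a30.le.trans hQ.hF)
    refine le_trans this ?_
    push_cast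
    linarith
  · have dA : Det (tup Q.p Q.L (N + 1)) (fun w (j : Fin (N + 1)) => Q.th (w j.succ))
        (fun w => A0 fun j => Q.th (w j.succ)) := by
      intro w w' _ _ e
      exact congrArg A0 e
    have tr' : ∀ w w', 0 < tup Q.p Q.L (N + 1) w → 0 < tup Q.p Q.L (N + 1) w' →
        (Q.y (w 0), (Q.b (w 0), Q.th (w 0))) = (Q.y (w' 0), (Q.b (w' 0), Q.th (w' 0))) →
        ∀ i, |((Q.M (w 0))⁻¹ *ᵥ dv (Q.n (w 0)) (Q.n (w' 0))) i -
          dv (h (w 0)) (h (w' 0)) i| ≤ R := by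
      intro w w' x x' e
      exact tr _ _ (i0.pos h0 x) (i0.pos h0 x') e
    have k1 := i0.det h0 hQ.dLb
    have k4 := i0.det h0 hQ.ds
    have k5 := i0.det h0 dh
    have k7 := i0.det h0 hQ.dM'
    have k6 := a2.le.trans h2
    have := tim_fu hlaw X hc hΓ hR k1 k5 k4 dA k7 (fun w => (hA _).1) (fun w => (hA _).2.2)
      (fun w => hQ.det _) c2 c1 k6 (hc0.le.trans hQ.e2) hg tr'
    refine le_trans this ?_
    unfold Pt
    push_cast
    linarith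

end transport

end Pool.POT
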