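import Pool.Agent.H21.POT.Sum

/-!
# Informations (row 366, K_POT)

`MI p X Y Z` is the information of `X` and `Y` given `Z`.
-/

set_option autoImplicit false

namespace Pool.POT

open Finset Real
open Pool.Agent.H49.Ent Pool.Agent.H32.Dense Pool.STK

variable {Ω S T U V W S' T' U' : Type} [Fintype Ω] {p : Ω → ℝ}

/-- The information of `X` and `Y` given `Z`. -/
noncomputable def MI (p : Ω → ℝ) (X : Ω → S) (Y : Ω → T) (Z : Ω → U) : ℝ :=
  CH p X Z - CH p X (fun ω => (Y ω, Z ω))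

theorem MI_eq (p : Ω → ℝ) (X : Ω → S) (Y : Ω → T) (Z : Ω → U) :
    MI p X Y Z = H p (fun ω => (X ω, Z ω)) + H p (fun ω => (Y ω, Z ω)) -
      H p (fun ω => (X ω, (Y ω, Z ω))) - H p Z := by
  unfold MI CH
  ring

theorem MI_nonneg (hp : ∀ ω, 0 ≤ p ω) (X : Ω → S) (Y : Ω → T) (Z : Ω → U) : 0 ≤ MI p X Y Z := by
  unfold MI
  have := CH_mono_cond hp (X := X) (W' := fun ω => (Y ω, Z ω)) (W := Z)
    fun ω ω' _ _ h => (Prod.ext_iff.mp h).2
  linarith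

theorem MI_symm (hp : ∀ ω, 0 ≤ p ω) (X : Ω → S) (Y : Ω → T) (Z : Ω → U) :
    MI p X Y Z = MI p Y X Z := by
  rw [MI_eq, MI_eq]
  have : H p (fun ω => (X ω, (Y ω, Z ω))) = H p (fun ω => (Y ω, (X ω, Z ω))) := by
    refine H_congr hp ?_ ?_ <;>
    · intro ω ω' _ _ h
      simp only [Prod.mk.injEq] at h ⊢
      tauto
  rw [this]
  ring

/-- Equivalent variables. -/
theorem MI_congr (hp : ∀ ω, 0 ≤ p ω) {X : Ω → S} {X' : Ω → S'} {Y : Ω → T} {Y' : Ω → T'}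
    {Z : Ω → U} {Z' : Ω → U'} (h1 : Det p (fun ω => (X ω, Z ω)) (fun ω => (X' ω, Z' ω)))
    (h1' : Det p (fun ω => (X' ω, Z' ω)) (fun ω => (X ω, Z ω)))
    (h2 : Det p (fun ω => (Y ω, Z ω)) (fun ω => (Y' ω, Z' ω)))
    (h2' : Det p (fun ω => (Y' ω, Z' ω)) (fun ω => (Y ω, Z ω)))
    (h3 : Det p Z Z') (h3' : Det p Z' Z) : MI p X Y Z = MI p X' Y' Z' := by
  rw [MI_eq, MI_eq, H_congr hp h1 h1', H_congr hp h2 h2', H_congr hp h3 h3']
  have : H p (fun ω => (X ω, (Y ω, Z ω))) = H p (fun ω => (X' ω, (Y' ω, Z' ω))) := by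
    refine H_congr hp ?_ ?_
    · intro ω ω' a b h
      simp only [Prod.mk.injEq] at h ⊢
      have e1 := h1' ω ω' a b (Prod.ext h.1 h.2.2)
      have e2 := h2' ω ω' a b (Prod.ext h.2.1 h.2.2)
      simp only [Prod.mk.injEq] at e1 e2
      exact ⟨e1.1, e2.1, e1.2⟩
    · intro ω ω' a b h
      simp only [Prod.mk.injEq] at h ⊢
      have e1 := h1 ω ω' a b (Prod.ext h.1 h.2.2)
      have e2 := h2 ω ω' a b (Prod.ext h.2.1 h.2.2)
      simp only [Prod.mk.injEq] at e1 e2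
      exact ⟨e1.1, e2.1, e1.2⟩
  rw [this]

theorem MI_chain (hp : ∀ ω, 0 ≤ p ω) (X : Ω → S) (Y : Ω → T) (Y' : Ω → U) (Z : Ω → V) :
    MI p X (fun ω => (Y ω, Y' ω)) Z = MI p X Y Z + MI p X Y' (fun ω => (Y ω, Z ω)) := by
  unfold MI
  have : CH p X (fun ω => ((Y ω, Y' ω), Z ω)) = CH p X (fun ω => (Y' ω, (Y ω, Z ω))) := by
    refine le_antisymm ?_ ?_ <;>
    · refine CH_mono_cond hp fun ω ω' _ _ h => ?_
      simp only [Prod.mk.injEq] at h ⊢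
      tauto
  rw [this]
  ring

theorem MI_chain_left (hp : ∀ ω, 0 ≤ p ω) (X : Ω → S) (X' : Ω → T) (Y : Ω → U) (Z : Ω → V) :
    MI p (fun ω => (X ω, X' ω)) Y Z = MI p X Y Z + MI p X' Y (fun ω => (X ω, Z ω)) := by
  rw [MI_symm hp, MI_chain hp, MI_symm hp Y X, MI_symm hp Y X']

/-- **Data processing**: `A` and `B` are functions of `X` and `Z`. -/
theorem MI_data (hp : ∀ ω, 0 ≤ p ω) {A : Ω → S} {B : Ω → S'} {X : Ω → T} {Y : Ω → U} {Z : Ω → V}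
    (hA : Det p (fun ω => (X ω, Z ω)) A) (hB : Det p (fun ω => (X ω, Z ω)) B) :
    MI p A Y (fun ω => (B ω, Z ω)) ≤ MI p X Y Z := by
  have e1 : MI p X Y Z = MI p (fun ω => (B ω, X ω)) Y Z := by
    refine MI_congr hp ?_ ?_ (fun _ _ _ _ h => h) (fun _ _ _ _ h => h) (fun _ _ _ _ h => h)
      (fun _ _ _ _ h => h)
    · intro ω ω' a b h
      have := hB ω ω' a b h
      simp only [Prod.mk.injEq] at h ⊢
      tauto
    · intro ω ω' a b h
      simp only [Prod.mk.injEq] at h ⊢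
      tauto
  have e2 : MI p X Y (fun ω => (B ω, Z ω)) = MI p (fun ω => (A ω, X ω)) Y (fun ω => (B ω, Z ω)) := by
    refine MI_congr hp ?_ ?_ (fun _ _ _ _ h => h) (fun _ _ _ _ h => h) (fun _ _ _ _ h => h)
      (fun _ _ _ _ h => h)
    · intro ω ω' a b h
      simp only [Prod.mk.injEq] at h
      have := hA ω ω' a b (Prod.ext h.1 h.2.2)
      simp only [Prod.mk.injEq]
      tauto
    · intro ω ω' a b h
      simp only [Prod.mk.injEq] at h ⊢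
      tauto
  rw [e1, MI_chain_left hp, e2, MI_chain_left hp]
  have h1 := MI_nonneg hp B Y Z
  have h2 := MI_nonneg hp X Y (fun ω => (A ω, (B ω, Z ω)))
  linarith

/-- Data processing on the left. -/
theorem MI_le_left (hp : ∀ ω, 0 ≤ p ω) {A : Ω → S} {X : Ω → T} {Y : Ω → U} {Z : Ω → V}
    (hA : Det p (fun ω => (X ω, Z ω)) A) : MI p A Y Z ≤ MI p X Y Z := by
  have e1 : MI p A Y Z = MI p A Y (fun ω => ((), Z ω)) := by
    refine MI_congr hp ?_ ?_ ?_ ?_ ?_ ?_ <;>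
    · intro ω ω' _ _ h
      simp only [Prod.mk.injEq, true_and] at h ⊢
      tauto
  rw [e1]
  exact MI_data hp hA (fun _ _ _ _ _ => rfl)

/-- Data processing on the right. -/
theorem MI_le_right (hp : ∀ ω, 0 ≤ p ω) {A : Ω → S} {X : Ω → T} {Y : Ω → U} {Z : Ω → V}
    (hA : Det p (fun ω => (X ω, Z ω)) A) : MI p Y A Z ≤ MI p Y X Z := by
  rw [MI_symm hp, MI_symm hp Y X]
  exact MI_le_left hp hA

/-- A part of `Y` goes into the condition. -/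
theorem MI_cond_right (hp : ∀ ω, 0 ≤ p ω) {X : Ω → S} {Y : Ω → T} {B : Ω → U} {Z : Ω → V}
    (hB : Det p (fun ω => (Y ω, Z ω)) B) : MI p X Y (fun ω => (B ω, Z ω)) ≤ MI p X Y Z := by
  rw [MI_symm hp, MI_symm hp X Y]
  exact MI_data hp (fun _ _ _ _ h => (Prod.ext_iff.mp h).1) hB

/-- Superfluous conditions. -/
theorem MI_red (hp : ∀ ω, 0 ≤ p ω) {X : Ω → S} {Y : Ω → T} {B : Ω → U} {Z : Ω → V}
    (hB : Det p Z B) : MI p X Y (fun ω => (B ω, Z ω)) = MI p X Y Z := by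
  refine MI_congr hp ?_ ?_ ?_ ?_ ?_ ?_
  · intro ω ω' _ _ h
    simp only [Prod.mk.injEq] at h ⊢
    tauto
  · intro ω ω' a b h
    simp only [Prod.mk.injEq] at h ⊢
    exact ⟨h.1, hB ω ω' a b h.2, h.2⟩
  · intro ω ω' _ _ h
    simp only [Prod.mk.injEq] at h ⊢
    tauto
  · intro ω ω' a b h
    simp only [Prod.mk.injEq] at h ⊢
    exact ⟨h.1, hB ω ω' a b h.2, h.2⟩
  · intro ω ω' _ _ h
    simp only [Prod.mk.injEq] at h
    exact h.2
  · intro ω ω' a b h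
    simp only [Prod.mk.injEq]
    exact ⟨hB ω ω' a b h, h⟩

theorem MI_le_CH (hp : ∀ ω, 0 ≤ p ω) (X : Ω → S) (Y : Ω → T) (Z : Ω → U) :
    MI p X Y Z ≤ CH p X Z := by
  unfold MI
  linarith [CH_nonneg hp X (fun ω => (Y ω, Z ω))]

/-- Determined variables carry no information. -/
theorem MI_zero (hp : ∀ ω, 0 ≤ p ω) {X : Ω → S} {Y : Ω → T} {Z : Ω → U} (h : Det p Z X) :
    MI p X Y Z = 0 :=
  le_antisymm ((MI_le_CH hp X Y Z).trans (CH_eq_zero hp h).le) (MI_nonneg hp X Y Z)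

/-! ### Images -/

variable {Ω' : Type} [Fintype Ω']

/-- `q` on `Ω'` is mapped to `p` by `f`. -/
def Im (q : Ω' → ℝ) (p : Ω → ℝ) (f : Ω' → Ω) : Prop :=
  ∀ ω, (open Classical in ∑ ω', if f ω' = ω then q ω' else 0) = p ω

theorem Im.H {q : Ω' → ℝ} {f : Ω' → Ω} (h : Im q p f) (X : Ω → S) :
    H q (fun ω' => X (f ω')) = H p X := H_eq_of_marginal f h X

theorem Im.CH {q : Ω' → ℝ} {f : Ω' → Ω} (h : Im q p f) (X : Ω → S) (Y : Ω → T) :
    CH q (fun ω' => X (f ω')) (fun ω' => Y (f ω')) = CH p X Y := by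
  unfold Pool.Agent.H49.Ent.CH
  rw [h.H Y, h.H (fun ω => (X ω, Y ω))]

theorem Im.MI {q : Ω' → ℝ} {f : Ω' → Ω} (h : Im q p f) (X : Ω → S) (Y : Ω → T) (Z : Ω → U) :
    MI q (fun ω' => X (f ω')) (fun ω' => Y (f ω')) (fun ω' => Z (f ω')) = MI p X Y Z := by
  unfold Pool.POT.MI
  rw [h.CH X Z, h.CH X (fun ω => (Y ω, Z ω))]

theorem Im.Ex {q : Ω' → ℝ} {f : Ω' → Ω} (h : Im q p f) (F : Ω → ℝ) :
    Ex q (fun ω' => F (f ω')) = Ex p F := by
  classical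
  unfold Pool.Agent.H32.Dense.Ex
  have : ∀ ω, p ω * F ω = ∑ ω', if f ω' = ω then q ω' * F ω else 0 := by
    intro ω
    rw [← h ω, Finset.sum_mul]
    refine Finset.sum_congr rfl fun ω' _ => ?_
    split_ifs <;> simp
  rw [Finset.sum_congr rfl fun ω _ => this ω, Finset.sum_comm]
  refine Finset.sum_congr rfl fun ω' _ => ?_
  rw [Finset.sum_ite_eq Finset.univ (f ω')]
  simp

theorem Im.law {q : Ω' → ℝ} {f : Ω' → Ω} (h : Im q p f) (X : Ω → S) (x : S) :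
    law q (fun ω' => X (f ω')) x = law p X x := by
  classical
  have := h.Ex (fun ω => if X ω = x then 1 else 0)
  unfold Pool.Agent.H32.Dense.Ex at this
  simp only [mul_ite, mul_one, mul_zero] at this
  unfold Pool.Agent.H49.Ent.law
  convert this using 1

theorem Im.isLaw {q : Ω' → ℝ} {f : Ω' → Ω} (h : Im q p f) (hq : ∀ ω, 0 ≤ q ω) (hp : IsLaw p) :
    IsLaw q := by
  refine ⟨hq, ?_⟩
  have := h.Ex (fun _ => 1)
  unfold Pool.Agent.H32.Dense.Ex at this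
  simp only [mul_one] at this
  rw [this, hp.sum_one]

omit [Fintype Ω] in
theorem Im.comp {Ω'' : Type} [Fintype Ω''] {r : Ω'' → ℝ} {q : Ω' → ℝ} {f : Ω' → Ω}
    {g : Ω'' → Ω'} (h : Im q p f) (h' : Im r q g) : Im r p (fun ω => f (g ω)) := by
  classical
  intro ω
  have e := h'.Ex (fun ω' => if f ω' = ω then 1 else 0)
  unfold Pool.Agent.H32.Dense.Ex at e
  simp only [mul_ite, mul_one, mul_zero] at e
  rw [e]
  exact h ω

omit [Fintype Ω] in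
/-- Positivity. -/
theorem Im.pos {q : Ω' → ℝ} {f : Ω' → Ω} (h : Im q p f) (hq : ∀ ω, 0 ≤ q ω) {ω' : Ω'}
    (hω : 0 < q ω') : 0 < p (f ω') := by
  classical
  rw [← h (f ω')]
  refine lt_of_lt_of_le hω ?_
  have := Finset.single_le_sum (f := fun ω'' => if f ω'' = f ω' then q ω'' else 0)
    (fun i _ => by
      split_ifs
      · exact hq i
      · exact le_rfl) (Finset.mem_univ ω')
  simpa using this

omit [Fintype Ω] in
/-- A determination passes to a larger space. -/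
theorem Im.det {q : Ω' → ℝ} {f : Ω' → Ω} (h : Im q p f) (hq : ∀ ω, 0 ≤ q ω) {X : Ω → S}
    {Y : Ω → T} (hd : Det p X Y) : Det q (fun ω' => X (f ω')) (fun ω' => Y (f ω')) :=
  fun _ _ a b e => hd _ _ (h.pos hq a) (h.pos hq b) e

section glue

variable {Ω₁ Ω₂ : Type} [Fintype Ω₁] [Fintype Ω₂] {p₁ : Ω₁ → ℝ} {p₂ : Ω₂ → ℝ}
  {Z₁ : Ω₁ → T} {Z₂ : Ω₂ → T}

theorem im_fst (h₁ : ∀ ω, 0 ≤ p₁ ω) (hZ : ∀ z, law p₁ Z₁ z = law p₂ Z₂ z) :
    Im (glue p₁ p₂ Z₁ Z₂) p₁ Prod.fst := by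
  classical
  intro ω
  rw [Fintype.sum_prod_type, Finset.sum_eq_single ω]
  · simpa using glue_fst h₁ hZ ω
  · intro b _ hb
    simp [hb]
  · intro h
    exact absurd (Finset.mem_univ _) h

theorem im_snd (h₂ : ∀ ω, 0 ≤ p₂ ω) (hZ : ∀ z, law p₁ Z₁ z = law p₂ Z₂ z) :
    Im (glue p₁ p₂ Z₁ Z₂) p₂ Prod.snd := by
  classical
  intro ω
  rw [Fintype.sum_prod_type, Finset.sum_comm, Finset.sum_eq_single ω]
  · simpa using glue_snd h₂ hZ ω
  · intro b _ hb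
    simp [hb]
  · intro h
    exact absurd (Finset.mem_univ _) h

/-- Conditional independence of the glued law. -/
theorem glue_ci (h₁ : ∀ ω, 0 ≤ p₁ ω) (h₂ : ∀ ω, 0 ≤ p₂ ω)
    (hZ : ∀ z, law p₁ Z₁ z = law p₂ Z₂ z) (X : Ω₁ → S) (Y : Ω₂ → U) :
    MI (glue p₁ p₂ Z₁ Z₂) (fun w => X w.1) (fun w => Y w.2) (fun w => Z₁ w.1) = 0 := by
  have hg := glue_nonneg h₁ h₂ (Z₁ := Z₁) (Z₂ := Z₂)
  have h := H_glue_pair h₁ h₂ hZ (X := fun ω => (X ω, Z₁ ω)) (Y := fun ω => (Y ω, Z₂ ω))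
    (fun _ _ _ _ e => (Prod.ext_iff.mp e).2) (fun _ _ _ _ e => (Prod.ext_iff.mp e).2)
  have heq : ∀ w, 0 < glue p₁ p₂ Z₁ Z₂ w → Z₁ w.1 = Z₂ w.2 := fun w hw =>
    ((glue_pos_iff h₁ h₂ w).1 hw).2.2
  rw [MI_eq]
  have e1 : H (glue p₁ p₂ Z₁ Z₂) (fun w => (X w.1, (Y w.2, Z₁ w.1))) =
      H (glue p₁ p₂ Z₁ Z₂) (fun w => ((X w.1, Z₁ w.1), (Y w.2, Z₂ w.2))) := by
    refine H_congr hg ?_ ?_
    · intro w w' a b e
      simp only [Prod.mk.injEq] at e ⊢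
      tauto
    · intro w w' a b e
      simp only [Prod.mk.injEq] at e ⊢
      refine ⟨⟨e.1, e.2.2⟩, e.2.1, ?_⟩
      rw [← heq w a, ← heq w' b]
      exact e.2.2
  have e2 : H (glue p₁ p₂ Z₁ Z₂) (fun w => (Y w.2, Z₁ w.1)) =
      H (glue p₁ p₂ Z₁ Z₂) (fun w => (Y w.2, Z₂ w.2)) := by
    refine H_congr hg ?_ ?_
    · intro w w' a b e
      simp only [Prod.mk.injEq] at e ⊢
      refine ⟨e.1, ?_⟩
      rw [heq w a, heq w' b]
      exact e.2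
    · intro w w' a b e
      simp only [Prod.mk.injEq] at e ⊢
      refine ⟨e.1, ?_⟩
      rw [← heq w a, ← heq w' b]
      exact e.2
  have e3 := (im_fst h₁ hZ).H (fun ω => (X ω, Z₁ ω))
  have e4 := (im_snd h₂ hZ).H (fun ω => (Y ω, Z₂ ω))
  have e5 := (im_fst h₁ hZ).H Z₁
  rw [e1, h, e2]
  rw [e3, e4, e5]
  ring

end glue

end Pool.POT
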