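import Pool.Agent.H21.POT.Max
import Pool.Agent.H87.SLO.Tup

/-!
# Transport of data along a line (row 366, K_POT)

`DF_lin`: the deficit of a body changes little under an affine map which is a function of the
context. `trs_fr`, `trs_fu`: a datum at one time of a line, together with the context and the time,
is a datum at another time of the line. `M0`, `M1` are the changes of charts at the two times.
-/

set_option autoImplicit false

namespace Pool.POT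

open Finset Real
open Pool.Agent.H49.Ent Pool.Agent.H32.Dense Pool.STK Pool.FAD
open Pool.KS6 (ind ind_nonneg)
open Matrix

variable {c : ℕ} {σ υ : Type}

/-- The cost of an affine map. -/
noncomputable def Ctr (c : ℕ) (R : ℝ) : ℝ :=
  c * Real.log (2 * (R + 1) + 1) + c * Real.log (2 * R + 1)

theorem Ctr_nonneg (c : ℕ) {R : ℝ} (hR : 0 ≤ R) : 0 ≤ Ctr c R := by
  unfold Ctr
  have h1 := Real.log_nonneg (show (1 : ℝ) ≤ 2 * (R + 1) + 1 by linarith)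
  have h2 := Real.log_nonneg (show (1 : ℝ) ≤ 2 * R + 1 by linarith)
  positivity

/-- **A change of body and variable.** -/
theorem DF_lin {Ω ζ : Type} [Fintype Ω] {p : Ω → ℝ} (hp : IsLaw p) (X : ℕ)
    {A A' : Ω → Matrix (Fin c) (Fin c) ℝ} {n n' : Ω → Fin c → ℤ} {W : Ω → ζ} {R e : ℝ}
    (hlv : ∀ ω, 0 < p ω → lv (A' ω) ≤ lv (A ω) + e)
    (h1 : ∀ ω ω', 0 < p ω → 0 < p ω' → W ω = W ω' → n ω = n ω' → ∀ i,
      |((n' ω i - n' ω' i : ℤ) : ℝ)| ≤ R)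
    (h2 : ∀ ω ω', 0 < p ω → 0 < p ω' → W ω = W ω' →
      (∀ i, |((A ω)⁻¹ *ᵥ xv X (n' ω)) i - ((A ω')⁻¹ *ᵥ xv X (n' ω')) i| ≤ 1) →
      ∀ i, |((A' ω)⁻¹ *ᵥ xv X (n ω)) i - ((A' ω')⁻¹ *ᵥ xv X (n ω')) i| ≤ R) :
    DF p (fun _ => Tx c X) A' (fun ω => xv X (n ω)) W ≤
      DF p (fun _ => Tx c X) A (fun ω => xv X (n' ω)) W + (e + Ctr c R) := by
  have h0 := hp.nonneg
  rw [DF_xv, DF_xv]
  have e0 : Ex p (fun ω => lv (A' ω) - lv (Tx c X)) ≤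
      Ex p (fun ω => lv (A ω) - lv (Tx c X)) + e := by
    have := Ex_mono h0 (f := fun ω => lv (A' ω) - lv (Tx c X))
      (g := fun ω => (lv (A ω) - lv (Tx c X)) + e) fun ω hω => by
        have := hlv ω hω
        linarith
    rw [Ex_add, Ex_const hp.sum_one] at this
    exact this
  have e1 := CH_le_add h0 n' (fun ω => cl (A' ω) (xv X (n ω)))
    (fun ω => (cl (A ω) (xv X (n' ω)), W ω))
  have e2 := CH_le_add h0 n' n
    (fun ω => (cl (A' ω) (xv X (n ω)), (cl (A ω) (xv X (n' ω)), W ω)))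
  have e3 : CH p n (fun ω => (cl (A' ω) (xv X (n ω)), (cl (A ω) (xv X (n' ω)), W ω))) ≤
      CH p n (fun ω => (cl (A' ω) (xv X (n ω)), W ω)) := by
    refine CH_mono_cond h0 fun ω ω' _ _ h => ?_
    simp only [Prod.mk.injEq] at h ⊢
    tauto
  have e4 : CH p n' (fun ω => (n ω, (cl (A' ω) (xv X (n ω)), (cl (A ω) (xv X (n' ω)), W ω)))) ≤
      c * Real.log (2 * R + 1) := by
    have := CH_le_vec h0 hp.sum_one n'
      (fun ω => (n ω, (cl (A' ω) (xv X (n ω)), (cl (A ω) (xv X (n' ω)), W ω)))) (fun _ => R) (by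
        intro ω ω' a b h i
        simp only [Prod.mk.injEq] at h
        exact h1 ω ω' a b h.2.2.2 h.1 i)
    rwa [Ex_const hp.sum_one] at this
  have e5 : CH p (fun ω => cl (A' ω) (xv X (n ω))) (fun ω => (cl (A ω) (xv X (n' ω)), W ω)) ≤
      c * Real.log (2 * (R + 1) + 1) := by
    have := CH_le_vec h0 hp.sum_one (fun ω => cl (A' ω) (xv X (n ω)))
      (fun ω => (cl (A ω) (xv X (n' ω)), W ω)) (fun _ => R + 1) (by
        intro ω ω' a b h i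
        simp only [Prod.mk.injEq] at h
        have k3 := h2 ω ω' a b h.2 (by
          intro i
          have k4 := congrFun h.1 i
          unfold cl at k4
          exact (Int.abs_sub_lt_one_of_floor_eq_floor k4).le) i
        unfold cl
        have k8 := Int.floor_le (((A' ω)⁻¹ *ᵥ xv X (n ω)) i)
        have k9 := Int.lt_floor_add_one (((A' ω)⁻¹ *ᵥ xv X (n ω)) i)
        have k10 := Int.floor_le (((A' ω')⁻¹ *ᵥ xv X (n ω')) i)
        have k11 := Int.lt_floor_add_one (((A' ω')⁻¹ *ᵥ xv X (n ω')) i)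
        rw [abs_le] at k3 ⊢
        push_cast
        constructor <;> linarith)
    rwa [Ex_const hp.sum_one] at this
  unfold Ctr
  linarith

/-- The difference of two integer vectors. -/
def dv (a b : Fin c → ℤ) (i : Fin c) : ℝ := ((a i - b i : ℤ) : ℝ)

theorem xv_dv (X : ℕ) (a b : Fin c → ℤ) : xv X a - xv X b = ((2 : ℝ) ^ X)⁻¹ • dv a b := by
  funext i
  simp only [Pi.sub_apply, Pi.smul_apply, smul_eq_mul, xv, dv]
  push_cast
  ring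

theorem mulVec_bd {A : Matrix (Fin c) (Fin c) ℝ} {v : Fin c → ℝ} {a b : ℝ}
    (hA : ∀ i j, |A i j| ≤ a) (hv : ∀ i, |v i| ≤ b) (ha : 0 ≤ a) (i : Fin c) :
    |(A *ᵥ v) i| ≤ c * (a * b) := by
  unfold Matrix.mulVec dotProduct
  calc |∑ j, A i j * v j| ≤ ∑ j, |A i j * v j| := Finset.abs_sum_le_sum_abs _ _
    _ ≤ ∑ _j : Fin c, a * b := by
        refine Finset.sum_le_sum fun j _ => ?_
        rw [abs_mul]
        exact mul_le_mul (hA i j) (hv j) (abs_nonneg _) ha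
    _ = c * (a * b) := by simp

theorem mul_bd {A B : Matrix (Fin c) (Fin c) ℝ} {a b : ℝ}
    (hA : ∀ i j, |A i j| ≤ a) (hB : ∀ i j, |B i j| ≤ b) (ha : 0 ≤ a) (i j : Fin c) :
    |(A * B) i j| ≤ c * (a * b) := by
  rw [Matrix.mul_apply]
  calc |∑ k, A i k * B k j| ≤ ∑ k, |A i k * B k j| := Finset.abs_sum_le_sum_abs _ _
    _ ≤ ∑ _k : Fin c, a * b := by
        refine Finset.sum_le_sum fun k _ => ?_
        rw [abs_mul]
        exact mul_le_mul (hA i k) (hB k j) (abs_nonneg _) ha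
    _ = c * (a * b) := by simp

/-- The factor. -/
noncomputable def Gm (c : ℕ) (Γ : ℝ) : ℝ := (c : ℝ) ^ 2 * Γ ^ 2

theorem one_le_Gm {Γ : ℝ} (hc : 0 < c) (hΓ : 1 ≤ Γ) : 1 ≤ Gm c Γ := by
  unfold Gm
  have h1 : (1 : ℝ) ≤ c := by exact_mod_cast hc
  have h2 : (1 : ℝ) ≤ (c : ℝ) ^ 2 := one_le_pow₀ h1
  have h3 : 1 ≤ Γ ^ 2 := one_le_pow₀ hΓ
  nlinarith

/-- The transported body. -/
noncomputable def tb (Γ : ℝ) (M0 M1 A : Matrix (Fin c) (Fin c) ℝ) :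
    Matrix (Fin c) (Fin c) ℝ := Gm c Γ • (M0 * M1⁻¹ * A)

section tb

variable {Γ C : ℝ} {M0 M1 A : Matrix (Fin c) (Fin c) ℝ} {X : ℕ}

theorem tb_det_ne (hc : 0 < c) (hΓ : 1 ≤ Γ) (h0 : M0.det = 1) (h1 : M1.det = 1)
    (hA : A.det ≠ 0) : (tb Γ M0 M1 A).det ≠ 0 := by
  unfold tb
  rw [Matrix.det_smul, Matrix.det_mul, Matrix.det_mul, Matrix.det_nonsing_inv, h0, h1]
  have := one_le_Gm hc hΓ
  simp only [Ring.inverse_one, one_mul]
  exact mul_ne_zero (pow_ne_zero _ (by linarith)) hA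

theorem tb_lv (hc : 0 < c) (hΓ : 1 ≤ Γ) (h0 : M0.det = 1) (h1 : M1.det = 1)
    (hA : A.det ≠ 0) : lv (tb Γ M0 M1 A) = lv A + c * Real.log (Gm c Γ) := by
  have hG := one_le_Gm hc hΓ
  unfold tb lv
  rw [Matrix.det_smul, Matrix.det_mul, Matrix.det_mul, Matrix.det_nonsing_inv, h0, h1]
  simp only [Ring.inverse_one, one_mul, Fintype.card_fin]
  rw [abs_mul, abs_of_nonneg (by positivity), Real.log_mul (by positivity) (abs_ne_zero.2 hA),
    Real.log_pow]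
  ring

theorem tb_ent (hc : 0 < c) (hΓ : 1 ≤ Γ) (h0 : ∀ i j, |M0 i j| ≤ Γ) (h1 : ∀ i j, |M1⁻¹ i j| ≤ Γ)
    (hA : ∀ i j, |A i j| ≤ C) (i j : Fin c) : |tb Γ M0 M1 A i j| ≤ Gm c Γ ^ 2 * C := by
  have hG := one_le_Gm hc hΓ
  have k1 := mul_bd h0 h1 (by linarith)
  have k2 := mul_bd k1 hA (by positivity)
  unfold tb
  rw [Matrix.smul_apply, smul_eq_mul, abs_mul, abs_of_nonneg (by linarith)]
  calc Gm c Γ * |(M0 * M1⁻¹ * A) i j| ≤ Gm c Γ * (c * (c * (Γ * Γ) * C)) :=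
        mul_le_mul_of_nonneg_left (k2 i j) (by linarith)
    _ = Gm c Γ ^ 2 * C := by unfold Gm; ring

theorem tb_inv_eq (hc : 0 < c) (hΓ : 1 ≤ Γ) (h0 : M0.det = 1) (h1 : M1.det = 1)
    (hA : A.det ≠ 0) : (tb Γ M0 M1 A)⁻¹ = (Gm c Γ)⁻¹ • (A⁻¹ * (M1 * M0⁻¹)) := by
  have hG := one_le_Gm hc hΓ
  refine Matrix.inv_eq_right_inv ?_
  unfold tb
  have hM1 : IsUnit M1.det := by rw [h1]; exact isUnit_one
  have hM0 : IsUnit M0.det := by rw [h0]; exact isUnit_one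
  have hA' : IsUnit A.det := isUnit_iff_ne_zero.2 hA
  rw [Matrix.smul_mul, Matrix.mul_smul, smul_smul, mul_inv_cancel₀ (by linarith), one_smul]
  calc M0 * M1⁻¹ * A * (A⁻¹ * (M1 * M0⁻¹)) = M0 * M1⁻¹ * (A * A⁻¹) * (M1 * M0⁻¹) := by
        simp only [Matrix.mul_assoc]
    _ = M0 * (M1⁻¹ * M1) * M0⁻¹ := by
        rw [Matrix.mul_nonsing_inv _ hA', Matrix.mul_one]
        simp only [Matrix.mul_assoc]
    _ = 1 := by
        rw [Matrix.nonsing_inv_mul _ hM1, Matrix.mul_one, Matrix.mul_nonsing_inv _ hM0]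

theorem tb_inv (hc : 0 < c) (hΓ : 1 ≤ Γ) (h0 : M0.det = 1) (h1 : M1.det = 1)
    (hA : A.det ≠ 0) (h0' : ∀ i j, |M0⁻¹ i j| ≤ Γ) (h1' : ∀ i j, |M1 i j| ≤ Γ)
    (hAi : ∀ i j, |A⁻¹ i j| ≤ 2 ^ X) (i j : Fin c) : |(tb Γ M0 M1 A)⁻¹ i j| ≤ 2 ^ X := by
  have hG := one_le_Gm hc hΓ
  rw [tb_inv_eq hc hΓ h0 h1 hA]
  have k1 := mul_bd h1' h0' (by linarith)
  have k2 := mul_bd hAi k1 (by positivity)
  rw [Matrix.smul_apply, smul_eq_mul, abs_mul, abs_of_nonneg (by positivity)]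
  calc (Gm c Γ)⁻¹ * |(A⁻¹ * (M1 * M0⁻¹)) i j| ≤
      (Gm c Γ)⁻¹ * (c * (2 ^ X * (c * (Γ * Γ)))) :=
        mul_le_mul_of_nonneg_left (k2 i j) (by positivity)
    _ = (Gm c Γ)⁻¹ * Gm c Γ * 2 ^ X := by unfold Gm; ring
    _ = 2 ^ X := by rw [inv_mul_cancel₀ (by linarith), one_mul]

end tb

/-- **Transport of the deficit.** -/
theorem DF_mat {Ω ζ : Type} [Fintype Ω] {p : Ω → ℝ} (hp : IsLaw p) (X : ℕ) (hc : 0 < c) {Γ R : ℝ}
    (hΓ : 1 ≤ Γ) (hR : 0 ≤ R) {A M0 M1 : Ω → Matrix (Fin c) (Fin c) ℝ} {n n' : Ω → Fin c → ℤ}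
    {W : Ω → ζ} (dA : Det p W A) (d0 : Det p W M0) (d1 : Det p W M1)
    (hA : ∀ ω, 0 < p ω → (A ω).det ≠ 0) (hAi : ∀ ω, 0 < p ω → ∀ i j, |(A ω)⁻¹ i j| ≤ 2 ^ X)
    (h0 : ∀ ω, 0 < p ω → (M0 ω).det = 1) (h1 : ∀ ω, 0 < p ω → (M1 ω).det = 1)
    (h1' : ∀ ω, 0 < p ω → ∀ i j, |M1 ω i j| ≤ Γ)
    (tr : ∀ ω ω', 0 < p ω → 0 < p ω' → W ω = W ω' → ∀ i,
      |((M0 ω)⁻¹ *ᵥ dv (n ω) (n ω')) i - ((M1 ω)⁻¹ *ᵥ dv (n' ω) (n' ω')) i| ≤ R) :
    DF p (fun _ => Tx c X) (fun ω => tb Γ (M0 ω) (M1 ω) (A ω)) (fun ω => xv X (n ω)) W ≤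
      DF p (fun _ => Tx c X) A (fun ω => xv X (n' ω)) W +
        (c * Real.log (Gm c Γ) + Ctr c (1 + (c : ℝ) ^ 2 * Γ * R)) := by
  have hc1 : (1 : ℝ) ≤ c := by exact_mod_cast hc
  have hG := one_le_Gm hc hΓ
  refine DF_lin hp X (fun ω hω => (tb_lv hc hΓ (h0 ω hω) (h1 ω hω) (hA ω hω)).le) ?_ ?_
  · intro ω ω' x x' hW hn i
    have k1 : dv (n ω) (n ω') = 0 := by
      funext j
      simp [dv, hn]
    have k2 : ∀ i, |((M1 ω)⁻¹ *ᵥ dv (n' ω) (n' ω')) i| ≤ R := by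
      intro i
      have := tr ω ω' x x' hW i
      rw [k1, Matrix.mulVec_zero] at this
      simpa using this
    have k3 : dv (n' ω) (n' ω') = M1 ω *ᵥ ((M1 ω)⁻¹ *ᵥ dv (n' ω) (n' ω')) := by
      rw [Matrix.mulVec_mulVec, Matrix.mul_nonsing_inv _ (by rw [h1 ω x]; exact isUnit_one),
        Matrix.one_mulVec]
    have k4 := mulVec_bd (h1' ω x) k2 (by linarith) i
    rw [← k3] at k4
    refine (show |dv (n' ω) (n' ω') i| ≤ _ from k4).trans ?_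
    have : (c : ℝ) ≤ (c : ℝ) ^ 2 := by nlinarith
    nlinarith [mul_le_mul_of_nonneg_right this (show 0 ≤ Γ * R by positivity)]
  · intro ω ω' x x' hW hx i
    have eA := dA ω ω' x x' hW
    have e0 := d0 ω ω' x x' hW
    have e1 := d1 ω ω' x x' hW
    rw [← eA, ← e0, ← e1]
    rw [← eA] at hx
    have k0 : ((tb Γ (M0 ω) (M1 ω) (A ω))⁻¹ *ᵥ xv X (n ω)) i -
        ((tb Γ (M0 ω) (M1 ω) (A ω))⁻¹ *ᵥ xv X (n ω')) i =
        ((tb Γ (M0 ω) (M1 ω) (A ω))⁻¹ *ᵥ (((2 : ℝ) ^ X)⁻¹ • dv (n ω) (n ω'))) i := by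
      rw [← Pi.sub_apply, ← Matrix.mulVec_sub, xv_dv]
    have k1 : ∀ i, |((A ω)⁻¹ *ᵥ (((2 : ℝ) ^ X)⁻¹ • dv (n' ω) (n' ω'))) i| ≤ 1 := by
      intro i
      have := hx i
      rwa [← Pi.sub_apply, ← Matrix.mulVec_sub, xv_dv] at this
    set ρ : Fin c → ℝ := (M0 ω)⁻¹ *ᵥ dv (n ω) (n ω') - (M1 ω)⁻¹ *ᵥ dv (n' ω) (n' ω') with hρ
    have k2 : ∀ i, |ρ i| ≤ R := fun i => tr ω ω' x x' hW i
    have k3 : (tb Γ (M0 ω) (M1 ω) (A ω))⁻¹ *ᵥ (((2 : ℝ) ^ X)⁻¹ • dv (n ω) (n ω')) =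
        (Gm c Γ)⁻¹ • ((A ω)⁻¹ *ᵥ (((2 : ℝ) ^ X)⁻¹ • dv (n' ω) (n' ω')) +
          ((2 : ℝ) ^ X)⁻¹ • ((A ω)⁻¹ *ᵥ (M1 ω *ᵥ ρ))) := by
      rw [tb_inv_eq hc hΓ (h0 ω x) (h1 ω x) (hA ω x), Matrix.smul_mulVec]
      congr 1
      rw [Matrix.mulVec_smul, ← Matrix.mulVec_mulVec, ← Matrix.mulVec_mulVec, hρ,
        Matrix.mulVec_sub, Matrix.mulVec_mulVec (dv (n' ω) (n' ω')) (M1 ω),
        Matrix.mul_nonsing_inv _ (by rw [h1 ω x]; exact isUnit_one), Matrix.one_mulVec,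
        Matrix.mulVec_smul, Matrix.mulVec_sub, smul_sub]
      abel
    rw [k0, k3]
    have k4 := mulVec_bd (h1' ω x) k2 (by linarith)
    have k5 := mulVec_bd (hAi ω x) k4 (by positivity) i
    rw [Pi.smul_apply, smul_eq_mul, abs_mul, abs_of_nonneg (by positivity), Pi.add_apply,
      Pi.smul_apply, smul_eq_mul]
    have k6 : |((A ω)⁻¹ *ᵥ (((2 : ℝ) ^ X)⁻¹ • dv (n' ω) (n' ω'))) i +
        ((2 : ℝ) ^ X)⁻¹ * ((A ω)⁻¹ *ᵥ (M1 ω *ᵥ ρ)) i| ≤ 1 + (c : ℝ) ^ 2 * Γ * R := by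
      refine (abs_add_le _ _).trans (add_le_add (k1 i) ?_)
      rw [abs_mul, abs_of_nonneg (by positivity)]
      calc ((2 : ℝ) ^ X)⁻¹ * |((A ω)⁻¹ *ᵥ (M1 ω *ᵥ ρ)) i| ≤
          ((2 : ℝ) ^ X)⁻¹ * (c * (2 ^ X * (c * (Γ * R)))) :=
            mul_le_mul_of_nonneg_left k5 (by positivity)
        _ = (((2 : ℝ) ^ X)⁻¹ * 2 ^ X) * ((c : ℝ) ^ 2 * Γ * R) := by ring
        _ = (c : ℝ) ^ 2 * Γ * R := by rw [inv_mul_cancel₀ (by positivity), one_mul]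
    refine (mul_le_mul_of_nonneg_left k6 (by positivity)).trans ?_
    have k7 : (Gm c Γ)⁻¹ ≤ 1 := inv_le_one_of_one_le₀ hG
    have k8 : 0 ≤ 1 + (c : ℝ) ^ 2 * Γ * R := by positivity
    nlinarith

theorem im_of_marg {Ω Ω' : Type} [Fintype Ω] [Fintype Ω'] {q : Ω' → ℝ} {p : Ω → ℝ} {f : Ω' → Ω}
    (h : Pool.Agent.H32.Dense.Marg q p f) : Im q p f := fun ω => h ω

/-! ### The abstract transport -/

section abs

variable {Ω Λ β V Θ ζ : Type} [Fintype Ω] {q : Ω → ℝ} {L : Ω → Λ} {b : Ω → β} {v : Ω → V}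
  {y0 y1 : Ω → υ} {th0 th1 : Ω → Θ} {s0 s1 : Ω → σ} {n0 n1 : Ω → Fin c → ℤ} {Z : Ω → ζ}
  {A M0 M1 : Ω → Matrix (Fin c) (Fin c) ℝ} {a d δ e R Γ : ℝ}

/-- Redundant conditions. -/
theorem MI_redL {S T : Type} {U : Ω → S} {W : Ω → T} (hq : ∀ ω, 0 ≤ q ω) (dLb : Det q L b) :
    MI q U W (fun ω => (L ω, b ω)) = MI q U W L := by
  have h1 : MI q U W (fun ω => (L ω, b ω)) = MI q U W (fun ω => (b ω, L ω)) := by
    refine MI_congr hq ?_ ?_ ?_ ?_ ?_ ?_ <;>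
    · intro ω ω' _ _ h
      simp only [Prod.mk.injEq] at h ⊢
      tauto
  rw [h1, MI_red hq dLb]

/-- A variable which is independent of `T` given the line. -/
theorem tim_ci {τ S : Type} {T : Ω → τ} {U : Ω → S} (hq : ∀ ω, 0 ≤ q ω) (dLb : Det q L b)
    (ci : MI q U T L = 0) {g : ℝ} (a1 : MI q L T b ≤ g) : MI q (fun ω => (L ω, U ω)) T b ≤ g := by
  have g2 := MI_chain_left hq L U T b
  have g3 : MI q U T (fun ω => (L ω, b ω)) = 0 := by rw [MI_redL hq dLb, ci]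
  linarith

/-- The freshness of the transported datum. -/
theorem trs_fr (hq : ∀ ω, 0 ≤ q ω) (dLb : Det q L b)
    (ds0 : Det q (fun ω => (b ω, th0 ω)) s0) (ds1 : Det q (fun ω => (b ω, th1 ω)) s1)
    (ci1 : MI q (fun ω => (th0 ω, (y0 ω, n0 ω))) (fun ω => (th1 ω, Z ω)) L = 0)
    (ci2 : MI q (fun ω => (L ω, (th0 ω, th1 ω))) Z (fun ω => (s1 ω, (y1 ω, n1 ω))) = 0)
    (a11 : MI q th1 L b ≤ d) (a30 : MI q (fun ω => (y0 ω, n0 ω)) b s0 ≤ δ)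
    (e1 : MI q (fun ω => (y1 ω, n1 ω)) Z s1 ≤ a) :
    MI q (fun ω => (y0 ω, n0 ω)) (fun ω => (b ω, (th1 ω, Z ω))) s0 ≤ δ + d + a := by
  -- the context, then the rest
  have f1 := MI_chain hq (fun ω => (y0 ω, n0 ω)) b (fun ω => (th1 ω, Z ω)) s0
  have f2 : MI q (fun ω => (y0 ω, n0 ω)) (fun ω => (th1 ω, Z ω)) (fun ω => (b ω, s0 ω)) ≤
      MI q (fun ω => (L ω, (th0 ω, (y0 ω, n0 ω)))) (fun ω => (th1 ω, Z ω)) b := by
    have g1 : MI q (fun ω => (y0 ω, n0 ω)) (fun ω => (th1 ω, Z ω)) (fun ω => (b ω, s0 ω)) =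
        MI q (fun ω => (y0 ω, n0 ω)) (fun ω => (th1 ω, Z ω)) (fun ω => (s0 ω, b ω)) := by
      refine MI_congr hq ?_ ?_ ?_ ?_ ?_ ?_ <;>
      · intro ω ω' _ _ h
        simp only [Prod.mk.injEq] at h ⊢
        tauto
    rw [g1]
    refine MI_data hq ?_ ?_
    · intro ω ω' _ _ h
      simp only [Prod.mk.injEq] at h ⊢
      tauto
    · intro ω ω' x x' h
      simp only [Prod.mk.injEq] at h
      exact ds0 ω ω' x x' (Prod.ext h.2 h.1.2.1)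
  -- the start is independent of the rest
  have f4 := MI_chain hq L th1 Z b
  have f5 : MI q L th1 b ≤ d := by
    rw [MI_symm hq]
    exact a11
  -- the datum sees the line only through the point
  have f6 : MI q L Z (fun ω => (th1 ω, b ω)) ≤ a := by
    have g0 : MI q L Z (fun ω => (th1 ω, b ω)) ≤
        MI q (fun ω => ((y1 ω, n1 ω), L ω)) Z (fun ω => (th1 ω, b ω)) :=
      MI_le_left hq (fun ω ω' _ _ h => by
        simp only [Prod.mk.injEq] at h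
        exact h.1.2)
    have g1 : MI q (fun ω => ((y1 ω, n1 ω), L ω)) Z (fun ω => (th1 ω, b ω)) =
        MI q (fun ω => ((y1 ω, n1 ω), L ω)) Z (fun ω => (s1 ω, (th1 ω, b ω))) := by
      refine (MI_red hq ?_).symm
      intro ω ω' x x' h
      simp only [Prod.mk.injEq] at h
      exact ds1 ω ω' x x' (Prod.ext h.2 h.1)
    have g2 := MI_chain_left hq (fun ω => (y1 ω, n1 ω)) L Z (fun ω => (s1 ω, (th1 ω, b ω)))
    have g3 : MI q L Z (fun ω => ((y1 ω, n1 ω), (s1 ω, (th1 ω, b ω)))) ≤ 0 := by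
      rw [← ci2]
      have g4 : MI q L Z (fun ω => ((y1 ω, n1 ω), (s1 ω, (th1 ω, b ω)))) =
          MI q L Z (fun ω => ((th1 ω, b ω), (s1 ω, (y1 ω, n1 ω)))) := by
        refine MI_congr hq ?_ ?_ ?_ ?_ ?_ ?_ <;>
        · intro ω ω' _ _ h
          simp only [Prod.mk.injEq] at h ⊢
          tauto
      rw [g4]
      refine MI_data hq ?_ ?_
      · intro ω ω' _ _ h
        simp only [Prod.mk.injEq] at h
        exact h.1.1
      · intro ω ω' x x' h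
        simp only [Prod.mk.injEq] at h ⊢
        exact ⟨h.1.2.2, dLb ω ω' x x' h.1.1⟩
    have g5 : MI q (fun ω => (y1 ω, n1 ω)) Z (fun ω => (s1 ω, (th1 ω, b ω))) ≤ a := by
      have g6 : MI q (fun ω => (y1 ω, n1 ω)) Z (fun ω => (s1 ω, (th1 ω, b ω))) =
          MI q (fun ω => (y1 ω, n1 ω)) Z (fun ω => ((th1 ω, b ω), s1 ω)) := by
        refine MI_congr hq ?_ ?_ ?_ ?_ ?_ ?_ <;>
        · intro ω ω' _ _ h
          simp only [Prod.mk.injEq] at h ⊢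
          tauto
      have g7 : MI q (fun ω => (y1 ω, n1 ω)) Z (fun ω => ((th1 ω, b ω), s1 ω)) ≤
          MI q (fun ω => ((y1 ω, n1 ω), (th1 ω, b ω))) Z s1 := by
        refine MI_data hq ?_ ?_ <;>
        · intro ω ω' _ _ h
          simp only [Prod.mk.injEq] at h ⊢
          tauto
      have g8 := MI_chain_left hq (fun ω => (y1 ω, n1 ω)) (fun ω => (th1 ω, b ω)) Z s1
      have g9 : MI q (fun ω => (th1 ω, b ω)) Z (fun ω => ((y1 ω, n1 ω), s1 ω)) ≤ 0 := by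
        rw [← ci2]
        have g4 : MI q (fun ω => (th1 ω, b ω)) Z (fun ω => ((y1 ω, n1 ω), s1 ω)) =
            MI q (fun ω => (th1 ω, b ω)) Z (fun ω => (s1 ω, (y1 ω, n1 ω))) := by
          refine MI_congr hq ?_ ?_ ?_ ?_ ?_ ?_ <;>
          · intro ω ω' _ _ h
            simp only [Prod.mk.injEq] at h ⊢
            tauto
        rw [g4]
        refine MI_le_left hq ?_
        intro ω ω' x x' h
        simp only [Prod.mk.injEq] at h ⊢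
        exact ⟨h.1.2.2, dLb ω ω' x x' h.1.1⟩
      linarith
    linarith
  have f7 := tim_ci hq dLb ci1 (show MI q L (fun ω => (th1 ω, Z ω)) b ≤ d + a by linarith)
  linarith

/-- The fullness of the transported datum. -/
theorem trs_fu (hq : IsLaw q) (X : ℕ) (hc : 0 < c) (hΓ : 1 ≤ Γ) (hR : 0 ≤ R)
    (dLb : Det q L b) (dLv : Det q L v) (ds1 : Det q (fun ω => (b ω, th1 ω)) s1)
    (ds0 : Det q (fun ω => (b ω, th0 ω)) s0) (dZ : Det q (fun ω => (s1 ω, Z ω)) A)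
    (dM0 : Det q (fun ω => (b ω, th0 ω)) M0) (dM1 : Det q (fun ω => (b ω, th1 ω)) M1)
    (hA : ∀ ω, (A ω).det ≠ 0) (hAi : ∀ ω i j, |(A ω)⁻¹ i j| ≤ 2 ^ X)
    (h0 : ∀ ω, (M0 ω).det = 1) (h1 : ∀ ω, (M1 ω).det = 1) (h1' : ∀ ω i j, |M1 ω i j| ≤ Γ)
    (ci1 : MI q th0 (fun ω => (th1 ω, (y1 ω, n1 ω))) L = 0)
    (ci2 : MI q (fun ω => (L ω, (th0 ω, th1 ω))) Z (fun ω => (s1 ω, (y1 ω, n1 ω))) = 0)
    (a10 : MI q th0 L b ≤ d) (a11 : MI q th1 L b ≤ d)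
    (a2 : MI q n1 v (fun ω => (y1 ω, (b ω, th1 ω))) ≤ d)
    (a31 : MI q (fun ω => (y1 ω, n1 ω)) b s1 ≤ δ)
    (c1 : CH q (fun ω => (y1 ω, n1 ω)) (fun ω => (L ω, s1 ω)) ≤ e)
    (c0 : CH q y0 (fun ω => (v ω, (b ω, th0 ω))) ≤ e)
    (e2 : DF q (fun _ => Tx c X) A (fun ω => xv X (n1 ω)) (fun ω => (y1 ω, (s1 ω, Z ω))) ≤ a)
    (tr : ∀ ω ω', 0 < q ω → 0 < q ω' → (v ω, (b ω, (th0 ω, th1 ω))) =
      (v ω', (b ω', (th0 ω', th1 ω'))) → ∀ i,
      |((M0 ω)⁻¹ *ᵥ dv (n0 ω) (n0 ω')) i - ((M1 ω)⁻¹ *ᵥ dv (n1 ω) (n1 ω')) i| ≤ R) :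
    DF q (fun _ => Tx c X) (fun ω => tb Γ (M0 ω) (M1 ω) (A ω)) (fun ω => xv X (n0 ω))
      (fun ω => (y0 ω, (s0 ω, (b ω, (th1 ω, Z ω))))) ≤
      a + (δ + 3 * d + 2 * e) + (c * Real.log (Gm c Γ) + Ctr c (1 + (c : ℝ) ^ 2 * Γ * R)) := by
  have hq0 := hq.nonneg
  -- the large context
  have f1 := DF_less hq0 X (A := fun ω => tb Γ (M0 ω) (M1 ω) (A ω)) (n := n0)
    (Z := fun ω => (y0 ω, (s0 ω, (b ω, (th1 ω, Z ω)))))
    (Z' := fun ω => (y0 ω, ((v ω, (b ω, (th0 ω, th1 ω))), (y1 ω, (s1 ω, Z ω))))) (by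
      intro ω ω' x x' h
      simp only [Prod.mk.injEq] at h ⊢
      exact ⟨h.1, ds0 ω ω' x x' (Prod.ext h.2.1.2.1 h.2.1.2.2.1), h.2.1.2.1, h.2.1.2.2.2,
        h.2.2.2.2⟩)
  have dA : Det q (fun ω => ((v ω, (b ω, (th0 ω, th1 ω))), (y1 ω, (s1 ω, Z ω)))) A :=
    fun ω ω' x x' h => dZ ω ω' x x' (by
      simp only [Prod.mk.injEq] at h ⊢
      exact h.2.2)
  have d0 : Det q (fun ω => ((v ω, (b ω, (th0 ω, th1 ω))), (y1 ω, (s1 ω, Z ω)))) M0 :=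
    fun ω ω' x x' h => dM0 ω ω' x x' (by
      simp only [Prod.mk.injEq] at h ⊢
      exact ⟨h.1.2.1, h.1.2.2.1⟩)
  have d1 : Det q (fun ω => ((v ω, (b ω, (th0 ω, th1 ω))), (y1 ω, (s1 ω, Z ω)))) M1 :=
    fun ω ω' x x' h => dM1 ω ω' x x' (by
      simp only [Prod.mk.injEq] at h ⊢
      exact ⟨h.1.2.1, h.1.2.2.2⟩)
  have f1' := DF_more hq0 X (A := fun ω => tb Γ (M0 ω) (M1 ω) (A ω)) (n := n0)
    (Z := fun ω => ((v ω, (b ω, (th0 ω, th1 ω))), (y1 ω, (s1 ω, Z ω)))) y0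
    (fun ω ω' x x' h => by
      have k1 := dA ω ω' x x' h
      have k2 := d0 ω ω' x x' h
      have k3 := d1 ω ω' x x' h
      simp only [k1, k2, k3])
  have f1'' : MI q n0 y0 (fun ω => ((v ω, (b ω, (th0 ω, th1 ω))), (y1 ω, (s1 ω, Z ω)))) ≤ e := by
    rw [MI_symm hq0]
    refine (MI_le_CH hq0 _ _ _).trans (le_trans (CH_mono_cond hq0 ?_) c0)
    intro ω ω' _ _ h
    simp only [Prod.mk.injEq] at h ⊢
    exact ⟨h.1.1, h.1.2.1, h.1.2.2.1⟩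
  have f2 := DF_mat hq X hc hΓ hR dA d0 d1 (fun ω _ => hA ω) (fun ω _ => hAi ω) (fun ω _ => h0 ω)
    (fun ω _ => h1 ω) (fun ω _ => h1' ω) (n := n0) (n' := n1)
    (fun ω ω' x x' h => tr ω ω' x x' (Prod.ext_iff.mp h).1)
  have f3 := DF_more hq0 X (A := A) (n := n1) (Z := fun ω => (y1 ω, (s1 ω, Z ω)))
    (fun ω => (v ω, (b ω, (th0 ω, th1 ω))))
    (fun ω ω' x x' h => dZ ω ω' x x' (Prod.ext_iff.mp h).2)
  -- the datum can be dropped
  have f4 : MI q n1 (fun ω => (v ω, (b ω, (th0 ω, th1 ω)))) (fun ω => (y1 ω, (s1 ω, Z ω))) ≤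
      MI q n1 (fun ω => (v ω, (b ω, (th0 ω, th1 ω)))) (fun ω => (y1 ω, s1 ω)) := by
    have g1 : MI q n1 (fun ω => (v ω, (b ω, (th0 ω, th1 ω)))) (fun ω => (y1 ω, (s1 ω, Z ω))) ≤
        MI q (fun ω => (n1 ω, Z ω)) (fun ω => (v ω, (b ω, (th0 ω, th1 ω))))
          (fun ω => (y1 ω, s1 ω)) := by
      have g2 : MI q n1 (fun ω => (v ω, (b ω, (th0 ω, th1 ω)))) (fun ω => (y1 ω, (s1 ω, Z ω))) =
          MI q n1 (fun ω => (v ω, (b ω, (th0 ω, th1 ω)))) (fun ω => (Z ω, (y1 ω, s1 ω))) := by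
        refine MI_congr hq0 ?_ ?_ ?_ ?_ ?_ ?_ <;>
        · intro ω ω' _ _ h
          simp only [Prod.mk.injEq] at h ⊢
          tauto
      rw [g2]
      refine MI_data hq0 ?_ ?_ <;>
      · intro ω ω' _ _ h
        simp only [Prod.mk.injEq] at h ⊢
        tauto
    have g3 := MI_chain_left hq0 n1 Z (fun ω => (v ω, (b ω, (th0 ω, th1 ω))))
      (fun ω => (y1 ω, s1 ω))
    have g4 : MI q Z (fun ω => (v ω, (b ω, (th0 ω, th1 ω)))) (fun ω => (n1 ω, (y1 ω, s1 ω))) ≤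
        0 := by
      rw [MI_symm hq0, ← ci2]
      have g5 : MI q (fun ω => (v ω, (b ω, (th0 ω, th1 ω)))) Z (fun ω => (n1 ω, (y1 ω, s1 ω))) =
          MI q (fun ω => (v ω, (b ω, (th0 ω, th1 ω)))) Z (fun ω => (s1 ω, (y1 ω, n1 ω))) := by
        refine MI_congr hq0 ?_ ?_ ?_ ?_ ?_ ?_ <;>
        · intro ω ω' _ _ h
          simp only [Prod.mk.injEq] at h ⊢
          tauto
      rw [g5]
      refine MI_le_left hq0 ?_
      intro ω ω' x x' h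
      simp only [Prod.mk.injEq] at h ⊢
      exact ⟨dLv ω ω' x x' h.1.1, dLb ω ω' x x' h.1.1, h.1.2⟩
    linarith
  -- the context
  have f5 : MI q n1 (fun ω => (v ω, (b ω, (th0 ω, th1 ω)))) (fun ω => (y1 ω, s1 ω)) ≤
      MI q n1 b (fun ω => (y1 ω, s1 ω)) +
        MI q n1 th1 (fun ω => (b ω, (y1 ω, s1 ω))) +
        MI q n1 v (fun ω => (th1 ω, (b ω, (y1 ω, s1 ω)))) +
        MI q n1 th0 (fun ω => (v ω, (th1 ω, (b ω, (y1 ω, s1 ω))))) := by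
    have g1 : MI q n1 (fun ω => (v ω, (b ω, (th0 ω, th1 ω)))) (fun ω => (y1 ω, s1 ω)) =
        MI q n1 (fun ω => (b ω, (th1 ω, (v ω, th0 ω)))) (fun ω => (y1 ω, s1 ω)) := by
      refine MI_congr hq0 ?_ ?_ ?_ ?_ ?_ ?_ <;>
      · intro ω ω' _ _ h
        simp only [Prod.mk.injEq] at h ⊢
        tauto
    have g2 := MI_chain hq0 n1 b (fun ω => (th1 ω, (v ω, th0 ω))) (fun ω => (y1 ω, s1 ω))
    have g3 := MI_chain hq0 n1 th1 (fun ω => (v ω, th0 ω)) (fun ω => (b ω, (y1 ω, s1 ω)))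
    have g4 := MI_chain hq0 n1 v th0 (fun ω => (th1 ω, (b ω, (y1 ω, s1 ω))))
    linarith
  have f6 : MI q n1 b (fun ω => (y1 ω, s1 ω)) ≤ δ := by
    refine le_trans (MI_data hq0 ?_ ?_) a31 <;>
    · intro ω ω' _ _ h
      simp only [Prod.mk.injEq] at h ⊢
      tauto
  have f7 : MI q n1 th1 (fun ω => (b ω, (y1 ω, s1 ω))) ≤ d + e := by
    have g1 : MI q L th1 (fun ω => (s1 ω, b ω)) ≤ MI q L th1 b :=
      MI_cond_right hq0 (fun ω ω' x x' h => by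
        simp only [Prod.mk.injEq] at h
        exact ds1 ω ω' x x' (Prod.ext h.2 h.1))
    have g2 : MI q L th1 b ≤ d := by
      rw [MI_symm hq0]
      exact a11
    have g3 : MI q n1 th1 (fun ω => (b ω, (y1 ω, s1 ω))) =
        MI q n1 th1 (fun ω => (y1 ω, (s1 ω, b ω))) := by
      refine MI_congr hq0 ?_ ?_ ?_ ?_ ?_ ?_ <;>
      · intro ω ω' _ _ h
        simp only [Prod.mk.injEq] at h ⊢
        tauto
    have g4 : MI q n1 th1 (fun ω => (y1 ω, (s1 ω, b ω))) ≤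
        MI q (fun ω => (L ω, (y1 ω, n1 ω))) th1 (fun ω => (s1 ω, b ω)) := by
      refine MI_data hq0 ?_ ?_ <;>
      · intro ω ω' _ _ h
        simp only [Prod.mk.injEq] at h
        tauto
    have g5 := MI_chain_left hq0 L (fun ω => (y1 ω, n1 ω)) th1 (fun ω => (s1 ω, b ω))
    have g6 : MI q (fun ω => (y1 ω, n1 ω)) th1 (fun ω => (L ω, (s1 ω, b ω))) ≤ e := by
      refine (MI_le_CH hq0 _ _ _).trans (le_trans (CH_mono_cond hq0 ?_) c1)
      intro ω ω' _ _ h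
      simp only [Prod.mk.injEq] at h ⊢
      tauto
    linarith
  have f8 : MI q n1 v (fun ω => (th1 ω, (b ω, (y1 ω, s1 ω)))) ≤ d := by
    refine le_trans (le_of_eq ?_) a2
    refine MI_congr hq0 ?_ ?_ ?_ ?_ ?_ ?_
    · intro ω ω' _ _ h
      simp only [Prod.mk.injEq] at h ⊢
      tauto
    · intro ω ω' x x' h
      simp only [Prod.mk.injEq] at h ⊢
      have k1 := ds1 ω ω' x x' (Prod.ext h.2.2.1 h.2.2.2)
      tauto
    · intro ω ω' _ _ h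
      simp only [Prod.mk.injEq] at h ⊢
      tauto
    · intro ω ω' x x' h
      simp only [Prod.mk.injEq] at h ⊢
      have k1 := ds1 ω ω' x x' (Prod.ext h.2.2.1 h.2.2.2)
      tauto
    · intro ω ω' _ _ h
      simp only [Prod.mk.injEq] at h ⊢
      tauto
    · intro ω ω' x x' h
      simp only [Prod.mk.injEq] at h ⊢
      have k1 := ds1 ω ω' x x' (Prod.ext h.2.1 h.2.2)
      tauto
  have f9 : MI q n1 th0 (fun ω => (v ω, (th1 ω, (b ω, (y1 ω, s1 ω))))) ≤ d := by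
    have g1 : MI q n1 th0 (fun ω => (v ω, (th1 ω, (b ω, (y1 ω, s1 ω))))) =
        MI q n1 th0 (fun ω => ((v ω, (th1 ω, (y1 ω, s1 ω))), b ω)) := by
      refine MI_congr hq0 ?_ ?_ ?_ ?_ ?_ ?_ <;>
      · intro ω ω' _ _ h
        simp only [Prod.mk.injEq] at h ⊢
        tauto
    have g2 : MI q n1 th0 (fun ω => ((v ω, (th1 ω, (y1 ω, s1 ω))), b ω)) ≤
        MI q (fun ω => (L ω, (th1 ω, (y1 ω, n1 ω)))) th0 b := by
      refine MI_data hq0 ?_ ?_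
      · intro ω ω' x x' h
        simp only [Prod.mk.injEq] at h
        exact h.1.2.2.2
      · intro ω ω' x x' h
        simp only [Prod.mk.injEq] at h ⊢
        exact ⟨dLv ω ω' x x' h.1.1, h.1.2.1, h.1.2.2.1, ds1 ω ω' x x' (Prod.ext h.2 h.1.2.1)⟩
    have g6 : MI q L th0 b ≤ d := by
      rw [MI_symm hq0]
      exact a10
    have g7 : MI q (fun ω => (th1 ω, (y1 ω, n1 ω))) th0 L = 0 := by
      rw [MI_symm hq0]
      exact ci1
    have g8 := tim_ci hq0 dLb g7 g6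
    linarith
  linarith

/-! ### The datum given by a body which is a function of other times -/

/-- Freshness. -/
theorem tim_fr {τ : Type} {T : Ω → τ} (hq : ∀ ω, 0 ≤ q ω) (dLb : Det q L b)
    (ds0 : Det q (fun ω => (b ω, th0 ω)) s0)
    (ci : MI q (fun ω => (th0 ω, (y0 ω, n0 ω))) T L = 0) {g : ℝ} (a1 : MI q L T b ≤ g)
    (a30 : MI q (fun ω => (y0 ω, n0 ω)) b s0 ≤ δ) :
    MI q (fun ω => (y0 ω, n0 ω)) (fun ω => (b ω, T ω)) s0 ≤ δ + g := by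
  have f1 := MI_chain hq (fun ω => (y0 ω, n0 ω)) b T s0
  have f2 : MI q (fun ω => (y0 ω, n0 ω)) T (fun ω => (b ω, s0 ω)) ≤
      MI q (fun ω => (L ω, (th0 ω, (y0 ω, n0 ω)))) T b := by
    have g1 : MI q (fun ω => (y0 ω, n0 ω)) T (fun ω => (b ω, s0 ω)) =
        MI q (fun ω => (y0 ω, n0 ω)) T (fun ω => (s0 ω, b ω)) := by
      refine MI_congr hq ?_ ?_ ?_ ?_ ?_ ?_ <;>
      · intro ω ω' _ _ h
        simp only [Prod.mk.injEq] at h ⊢
        tauto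
    rw [g1]
    refine MI_data hq ?_ ?_
    · intro ω ω' x x' h
      simp only [Prod.mk.injEq] at h ⊢
      tauto
    · intro ω ω' x x' h
      simp only [Prod.mk.injEq] at h
      exact ds0 ω ω' x x' (Prod.ext h.2 h.1.2.1)
  have f3 := tim_ci hq dLb ci a1
  linarith

/-- Fullness: from the height to the near point. -/
theorem tim_fu {τ : Type} {T : Ω → τ} {h : Ω → Fin c → ℤ} (hq : IsLaw q) (X : ℕ) (hc : 0 < c)
    (hΓ : 1 ≤ Γ) (hR : 0 ≤ R) (dLb : Det q L b) (dLh : Det q (fun ω => (L ω, th0 ω)) h)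
    (ds0 : Det q (fun ω => (b ω, th0 ω)) s0) (dA : Det q T A)
    (dM0 : Det q (fun ω => (b ω, th0 ω)) M0) (hA : ∀ ω, (A ω).det ≠ 0)
    (hAi : ∀ ω i j, |(A ω)⁻¹ i j| ≤ 2 ^ X) (h0 : ∀ ω, (M0 ω).det = 1)
    (ci : MI q (fun ω => (th0 ω, (y0 ω, n0 ω))) T L = 0) {g g' : ℝ} (a1 : MI q L T b ≤ g)
    (a2 : MI q h v (fun ω => (th0 ω, b ω)) ≤ d)
    (c0 : CH q y0 (fun ω => (v ω, (b ω, th0 ω))) ≤ e)
    (e2 : DF q (fun _ => Tx c X) A (fun ω => xv X (h ω)) (fun ω => (b ω, (th0 ω, T ω))) ≤ g')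
    (tr : ∀ ω ω', 0 < q ω → 0 < q ω' → (y0 ω, (b ω, th0 ω)) = (y0 ω', (b ω', th0 ω')) → ∀ i,
      |((M0 ω)⁻¹ *ᵥ dv (n0 ω) (n0 ω')) i - dv (h ω) (h ω') i| ≤ R) :
    DF q (fun _ => Tx c X) (fun ω => tb Γ (M0 ω) 1 (A ω)) (fun ω => xv X (n0 ω))
      (fun ω => (y0 ω, (s0 ω, (b ω, T ω)))) ≤
      g' + (d + g + e) + (c * Real.log (Gm c Γ) + Ctr c (1 + (c : ℝ) ^ 2 * Γ * R)) := by
  have hq0 := hq.nonneg
  have f1 := DF_less hq0 X (A := fun ω => tb Γ (M0 ω) 1 (A ω)) (n := n0)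
    (Z := fun ω => (y0 ω, (s0 ω, (b ω, T ω))))
    (Z' := fun ω => (y0 ω, (b ω, (th0 ω, T ω)))) (by
      intro ω ω' x x' h
      simp only [Prod.mk.injEq] at h ⊢
      exact ⟨h.1, ds0 ω ω' x x' (Prod.ext h.2.1 h.2.2.1), h.2.1, h.2.2.2⟩)
  have f2 := DF_mat hq X hc hΓ hR (A := A) (M0 := M0) (M1 := fun _ => 1) (n := n0) (n' := h)
    (W := fun ω => (y0 ω, (b ω, (th0 ω, T ω))))
    (fun ω ω' x x' h => dA ω ω' x x' (by simp only [Prod.mk.injEq] at h; exact h.2.2.2))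
    (fun ω ω' x x' h => dM0 ω ω' x x' (by
      simp only [Prod.mk.injEq] at h ⊢
      exact ⟨h.2.1, h.2.2.1⟩)) (fun _ _ _ _ _ => rfl) (fun ω _ => hA ω) (fun ω _ => hAi ω)
    (fun ω _ => h0 ω) (fun _ _ => Matrix.det_one) (by
      intro ω _ i j
      rw [Matrix.one_apply]
      split_ifs
      · rw [abs_one]
        exact hΓ
      · rw [abs_zero]
        linarith) (by
      intro ω ω' x x' h i
      have := tr ω ω' x x' (by
        simp only [Prod.mk.injEq] at h ⊢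
        exact ⟨h.1, h.2.1, h.2.2.1⟩) i
      simpa using this)
  have f3 := DF_more hq0 X (A := A) (n := h) (Z := fun ω => (b ω, (th0 ω, T ω))) y0
    (fun ω ω' x x' h => dA ω ω' x x' (by simp only [Prod.mk.injEq] at h; exact h.2.2))
  have f4 : MI q h y0 (fun ω => (b ω, (th0 ω, T ω))) ≤ d + g + e := by
    have g1 : MI q h y0 (fun ω => (b ω, (th0 ω, T ω))) =
        MI q h y0 (fun ω => (T ω, (th0 ω, b ω))) := by
      refine MI_congr hq0 ?_ ?_ ?_ ?_ ?_ ?_ <;>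
      · intro ω ω' _ _ h
        simp only [Prod.mk.injEq] at h ⊢
        tauto
    have g2 := MI_chain hq0 h T y0 (fun ω => (th0 ω, b ω))
    have g3 := MI_chain hq0 h y0 T (fun ω => (th0 ω, b ω))
    have g4 : MI q h (fun ω => (T ω, y0 ω)) (fun ω => (th0 ω, b ω)) =
        MI q h (fun ω => (y0 ω, T ω)) (fun ω => (th0 ω, b ω)) := by
      refine MI_congr hq0 ?_ ?_ ?_ ?_ ?_ ?_ <;>
      · intro ω ω' _ _ h
        simp only [Prod.mk.injEq] at h ⊢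
        tauto
    have g5 := MI_nonneg hq0 h T (fun ω => (th0 ω, b ω))
    have g6 : MI q h y0 (fun ω => (th0 ω, b ω)) ≤ d + e := by
      have k1 : MI q h y0 (fun ω => (th0 ω, b ω)) ≤
          MI q h (fun ω => (v ω, y0 ω)) (fun ω => (th0 ω, b ω)) := by
        refine MI_le_right hq0 ?_
        intro ω ω' x x' h
        simp only [Prod.mk.injEq] at h
        exact h.1.2
      have k2 := MI_chain hq0 h v y0 (fun ω => (th0 ω, b ω))
      have k3 : MI q h y0 (fun ω => (v ω, (th0 ω, b ω))) ≤ e := by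
        rw [MI_symm hq0]
        refine (MI_le_CH hq0 _ _ _).trans (le_trans (CH_mono_cond hq0 ?_) c0)
        intro ω ω' _ _ h
        simp only [Prod.mk.injEq] at h ⊢
        tauto
      linarith
    have g7 : MI q h T (fun ω => (y0 ω, (th0 ω, b ω))) ≤ g := by
      have k0 : MI q h T (fun ω => (y0 ω, (th0 ω, b ω))) =
          MI q h T (fun ω => ((y0 ω, th0 ω), b ω)) := by
        refine MI_congr hq0 ?_ ?_ ?_ ?_ ?_ ?_ <;>
        · intro ω ω' _ _ h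
          simp only [Prod.mk.injEq] at h ⊢
          tauto
      have k1 : MI q h T (fun ω => ((y0 ω, th0 ω), b ω)) ≤
          MI q (fun ω => (L ω, (th0 ω, (y0 ω, n0 ω)))) T b := by
        refine MI_data hq0 ?_ ?_
        · intro ω ω' x x' h
          simp only [Prod.mk.injEq] at h
          exact dLh ω ω' x x' (Prod.ext h.1.1 h.1.2.1)
        · intro ω ω' _ _ h
          simp only [Prod.mk.injEq] at h ⊢
          tauto
      have k3 := tim_ci hq0 dLb ci a1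
      linarith
    linarith
  linarith

end abs

end Pool.POT
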