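import Pool.Agent.H21.POT.Dat
import Pool.Agent.H77.S6.Near

/-!
# A maximal datum (row 366, K_POT)

`exists_max`: at one of many prices there is a datum whose body cannot be enlarged much at the next
price. `max_cov`: it contains the bodies of all data. `apt_ex`: it can be taken as a function of the
point.
-/

set_option autoImplicit false

namespace Pool.POT

open Finset Real
open Pool.Agent.H49.Ent Pool.Agent.H32.Dense Pool.STK Pool.FAD
open Pool.KS6 (ind ind_nonneg)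

variable {c : ℕ} {σ υ : Type}

/-- `B` is not contained in `L` times `A`. -/
def Far (L : ℝ) (A B : Matrix (Fin c) (Fin c) ℝ) : Prop := ∃ i j, L < |(A⁻¹ * B) i j|

theorem not_far {L : ℝ} {A B : Matrix (Fin c) (Fin c) ℝ} :
    ¬ Far L A B ↔ ∀ i j, |(A⁻¹ * B) i j| ≤ L := by
  unfold Far
  push Not
  rfl

theorem far_trans {L L' : ℝ} (hL : 0 ≤ L) {A B C : Matrix (Fin c) (Fin c) ℝ} (hB : B.det ≠ 0)
    (h1 : ¬ Far L A B) (h2 : ¬ Far L' B C) : ¬ Far (c * (L * L')) A C := by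
  rw [not_far] at h1 h2 ⊢
  intro i j
  have e : A⁻¹ * C = (A⁻¹ * B) * (B⁻¹ * C) := by
    rw [Matrix.mul_assoc, ← Matrix.mul_assoc B, Matrix.mul_nonsing_inv _
      (isUnit_iff_ne_zero.2 hB), Matrix.one_mul]
  rw [e, Matrix.mul_apply]
  calc |∑ k, (A⁻¹ * B) i k * (B⁻¹ * C) k j| ≤ ∑ k, |(A⁻¹ * B) i k * (B⁻¹ * C) k j| :=
        Finset.abs_sum_le_sum_abs _ _
    _ ≤ ∑ _k : Fin c, L * L' := by
        refine Finset.sum_le_sum fun k _ => ?_
        rw [abs_mul]
        exact mul_le_mul (h1 i k) (h2 k j) (abs_nonneg _) hL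
    _ = c * (L * L') := by simp

theorem ind_le_add {P Q R : Prop} (h : P → Q ∨ R) : ind P ≤ ind Q + ind R := by
  classical
  unfold ind
  by_cases hP : P
  · rw [if_pos hP]
    rcases h hP with hh | hh
    · rw [if_pos hh]
      split_ifs <;> norm_num
    · rw [if_pos hh]
      split_ifs <;> norm_num
  · rw [if_neg hP]
    split_ifs <;> norm_num

/-! ### The trivial datum -/

/-- The datum without information. -/
noncomputable def Dt.triv {Ω : Type} [Fintype Ω] (p : Ω → ℝ) (s : Ω → σ) (y : Ω → υ)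
    (n : Ω → Fin c → ℤ) (X : ℕ) : Dt c σ υ where
  Ω := Ω
  iΩ := inferInstance
  ζ := Unit
  p := p
  s := s
  y := y
  n := n
  Z _ := ()
  A _ := Tx c X

theorem Dt.triv_ok {Ω : Type} [Fintype Ω] {p : Ω → ℝ} (hp : IsLaw p) (s : Ω → σ) (y : Ω → υ)
    (n : Ω → Fin c → ℤ) (X : ℕ) {C a : ℝ} (hC : 1 ≤ C) (ha : 0 ≤ a) :
    (Dt.triv p s y n X).Ok X C (law p (fun ω => (s ω, (y ω, n ω)))) a where
  law := hp
  mar _ := rfl
  det _ := Tx_det c X
  ent := by
    intro _ i j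
    change |Tx c X i j| ≤ C
    unfold Tx
    rw [Matrix.diagonal_apply]
    split_ifs
    · rw [abs_of_pos (by positivity)]
      refine le_trans ?_ hC
      exact inv_le_one_of_one_le₀ (one_le_pow₀ (by norm_num))
    · rw [abs_zero]
      linarith
  inv := by
    intro _ i j
    change |(Tx c X)⁻¹ i j| ≤ 2 ^ X
    unfold Tx
    rw [inv_diag (fun _ => by positivity), Matrix.diagonal_apply]
    split_ifs
    · rw [inv_inv, abs_of_pos (by positivity)]
    · rw [abs_zero]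
      positivity
  dZ _ _ _ _ _ := rfl
  fr := by
    have e : MI p (fun ω => (y ω, n ω)) (fun _ => ()) s = 0 := by
      rw [MI_symm hp.nonneg, MI_zero hp.nonneg (fun _ _ _ _ _ => rfl)]
    exact e.le.trans ha
  fu := by
    have e : DF p (fun _ => Tx c X) (fun _ => Tx c X) (fun ω => xv X (n ω))
        (fun ω => (y ω, (s ω, ()))) = 0 := by
      unfold DF
      rw [CH_eq_zero hp.nonneg (X := fun ω => cl (Tx c X) (xv X (n ω)))
        (W := fun ω => (cl (Tx c X) (xv X (n ω)), (y ω, (s ω, ()))))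
        (fun ω ω' _ _ e => (Prod.ext_iff.mp e).1)]
      simp [Ex]
    exact e.le.trans ha

/-! ### Volumes -/

/-- The bound of the logarithm of the volume. -/
noncomputable def Lm (c : ℕ) (C : ℝ) : ℝ := Real.log ((Nat.factorial c : ℝ) * C ^ c)

theorem lv_le_Lm {A : Matrix (Fin c) (Fin c) ℝ} {C : ℝ} (hA : A.det ≠ 0)
    (h : ∀ i j, |A i j| ≤ C) : lv A ≤ Lm c C := by
  have h1 := Matrix.det_le (A := A) (abv := AbsoluteValue.abs) (x := C) h
  rw [Fintype.card_fin, nsmul_eq_mul] at h1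
  exact Real.log_le_log (abs_pos.2 hA) h1

/-! ### The pigeonhole -/

/-- **A maximal datum.** The prices are `a k`, the bounds of the entries `C k`. -/
theorem exists_max {X : ℕ} {μ : σ × (υ × (Fin c → ℤ)) → ℝ} {Ω : Type} [Fintype Ω]
    {p : Ω → ℝ} (hp : IsLaw p) (s : Ω → σ) (y : Ω → υ) (n : Ω → Fin c → ℤ)
    (hμ : ∀ P, law p (fun ω => (s ω, (y ω, n ω))) P = μ P) (a C : ℕ → ℝ) (hC : 1 ≤ C 0)
    (ha : 0 ≤ a 0) (K : ℕ) (G : ℝ) (hK : Lm c (C K) + c * (X * Real.log 2) < K * G) :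
    ∃ k < K, ∃ D : Dt c σ υ, D.Ok X (C k) μ (a k) ∧ ∀ E : Dt c σ υ,
      E.Ok X (C (k + 1)) μ (a (k + 1)) →
      Ex E.p (fun ω => lv (E.A ω)) ≤ Ex D.p (fun ω => lv (D.A ω)) + G := by
  by_contra hcon
  push Not at hcon
  have hμ' : μ = law p (fun ω => (s ω, (y ω, n ω))) := funext fun P => (hμ P).symm
  have key : ∀ k ≤ K, ∃ D : Dt c σ υ, D.Ok X (C k) μ (a k) ∧
      -(c * (X * Real.log 2)) + k * G ≤ Ex D.p (fun ω => lv (D.A ω)) := by
    intro k
    induction k with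
    | zero =>
      intro _
      refine ⟨Dt.triv p s y n X, ?_, ?_⟩
      · rw [hμ']
        exact Dt.triv_ok hp s y n X hC ha
      · have : Ex p (fun _ => lv (Tx c X)) = lv (Tx c X) := Ex_const hp.sum_one _
        change _ ≤ Ex p (fun _ => lv (Tx c X))
        rw [this, lv_Tx]
        simp
    | succ k ih =>
      intro hk
      obtain ⟨D, h1, h2⟩ := ih (by omega)
      obtain ⟨E, h3, h4⟩ := hcon k (by omega) D h1
      refine ⟨E, h3, ?_⟩
      push_cast
      linarith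
  obtain ⟨D, h1, h2⟩ := key K le_rfl
  have h3 : Ex D.p (fun ω => lv (D.A ω)) ≤ Lm c (C K) := by
    have h4 := Ex_mono h1.law.nonneg (f := fun ω => lv (D.A ω)) (g := fun _ => Lm c (C K))
      fun ω _ => lv_le_Lm (h1.det ω) (h1.ent ω)
    rwa [Ex_const h1.law.sum_one] at h4
  linarith

/-- **The maximal datum contains all data.** -/
theorem max_cov {X : ℕ} {C C' : ℝ} {μ : σ × (υ × (Fin c → ℤ)) → ℝ} {D E : Dt c σ υ}
    {a b a' G L : ℝ} (hC : 1 ≤ C) (hCC : C ≤ C') (hD : D.Ok X C μ a) (hE : E.Ok X C' μ b)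
    (hmax : ∀ F : Dt c σ υ, F.Ok X C' μ a' →
      Ex F.p (fun ω => lv (F.A ω)) ≤ Ex D.p (fun ω => lv (D.A ω)) + G)
    (hab : 2 * (a + b) + |Csb c| ≤ a') (hL : 1 < L) :
    Ex (glue D.p E.p D.pt E.pt) (fun w => ind (Far L (D.A w.1) (E.A w.2))) ≤ G / Real.log L := by
  classical
  have hm : ∀ P, law D.p D.pt P = law E.p E.pt P := fun P => (hD.mar P).trans (hE.mar P).symm
  have h0 : ∀ w, 0 ≤ glue D.p E.p D.pt E.pt w := glue_nonneg hD.law.nonneg hE.law.nonneg
  have i1 := im_fst (p₂ := E.p) hD.law.nonneg hm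
  have h1 : Ex (glue D.p E.p D.pt E.pt) (fun w => lv (sb X (D.A w.1) (E.A w.2))) ≤
      Ex D.p (fun ω => lv (D.A ω)) + G := hmax _ ((Dt.add_ok (hC.trans hCC)
      (hD.mono' hCC le_rfl) hE).mono hab)
  have h2 := i1.Ex (fun ω => lv (D.A ω))
  have h3 : Ex (glue D.p E.p D.pt E.pt) (fun w => Real.log L *
      ind (Far L (D.A w.1) (E.A w.2))) ≤ Ex (glue D.p E.p D.pt E.pt)
      (fun w => lv (sb X (D.A w.1) (E.A w.2)) - lv (D.A w.1)) := by
    refine Ex_mono h0 fun w _ => ?_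
    by_cases hf : Far L (D.A w.1) (E.A w.2)
    · unfold ind
      rw [if_pos hf, mul_one]
      obtain ⟨i, j, hij⟩ := hf
      have h4 : ((D.A w.1)⁻¹ * E.A w.2) i j ≠ 0 := by
        intro h
        rw [h, abs_zero] at hij
        linarith
      have h5 := lv_sb_col X (E.A w.2) (hD.det w.1) i j h4
      have h6 := Real.log_le_log (by linarith) hij.le
      linarith
    · unfold ind
      rw [if_neg hf, mul_zero]
      have h5 := lv_sb_left X (E.A w.2) (hD.det w.1)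
      linarith
  rw [Ex_smul, Ex_sub, h2] at h3
  rw [le_div_iff₀ (Real.log_pos hL)]
  linarith

/-- **The maximal body as a function of the point.** -/
theorem apt_ex {X : ℕ} {C C' : ℝ} {μ : σ × (υ × (Fin c → ℤ)) → ℝ} {D : Dt c σ υ}
    {a a' G L : ℝ} (hC : 1 ≤ C) (hCC : C ≤ C') (hD : D.Ok X C μ a)
    (hmax : ∀ F : Dt c σ υ, F.Ok X C' μ a' →
      Ex F.p (fun ω => lv (F.A ω)) ≤ Ex D.p (fun ω => lv (D.A ω)) + G)
    (haa : 2 * (a + a) + |Csb c| ≤ a') (hL : 1 < L) :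
    ∃ Ap : σ × (υ × (Fin c → ℤ)) → Matrix (Fin c) (Fin c) ℝ,
      (∀ P, (Ap P).det ≠ 0 ∧ (∀ i j, |Ap P i j| ≤ C) ∧ ∀ i j, |(Ap P)⁻¹ i j| ≤ 2 ^ X) ∧
      Ex D.p (fun ω => ind (Far L (Ap (D.pt ω)) (D.A ω) ∨ Far L (D.A ω) (Ap (D.pt ω)))) ≤
        2 * (G / Real.log L) ∧
      ∀ (E : Dt c σ υ) (b : ℝ), E.Ok X C' μ b → 2 * (a + b) + |Csb c| ≤ a' →
        Ex E.p (fun ω => ind (Far (c * (L * L)) (Ap (E.pt ω)) (E.A ω))) ≤
          3 * (G / Real.log L) := by
  classical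
  obtain ⟨cen, h1, h2⟩ := Pool.KS6.centre hD.law D.pt
    (fun e e' => Far L (D.A e) (D.A e') ∨ Far L (D.A e') (D.A e))
  have hm : ∀ P, law D.p D.pt P = law D.p D.pt P := fun _ => rfl
  have h0 : ∀ w, 0 ≤ dbl D.p D.pt w := glue_nonneg hD.law.nonneg hD.law.nonneg
  have h3 := max_cov hC hCC hD (hD.mono' hCC le_rfl) hmax haa hL
  -- the exchanged bound
  have h4 : Ex (dbl D.p D.pt) (fun w => ind (Far L (D.A w.2) (D.A w.1))) ≤ G / Real.log L := by
    refine le_trans (le_of_eq ?_) h3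
    have e : ∀ w : D.Ω × D.Ω, dbl D.p D.pt w = glue D.p D.p D.pt D.pt w.swap := by
      intro w
      unfold dbl glue
      by_cases h : D.pt w.1 = D.pt w.2
      · rw [if_pos h, if_pos (by simpa using h.symm)]
        simp only [Prod.fst_swap, Prod.snd_swap]
        rw [h]
        ring
      · rw [if_neg h, if_neg (by simpa using fun h' => h h'.symm)]
    unfold Ex
    rw [← Equiv.sum_comp (Equiv.prodComm D.Ω D.Ω)]
    refine Finset.sum_congr rfl fun w _ => ?_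
    rw [e]
    simp
  have h5 : Ex D.p (fun ω => ind (Far L (D.A (cen (D.pt ω))) (D.A ω) ∨
      Far L (D.A ω) (D.A (cen (D.pt ω))))) ≤ 2 * (G / Real.log L) := by
    refine h2.trans ?_
    have h6 : Ex (dbl D.p D.pt) (fun w => ind (Far L (D.A w.1) (D.A w.2) ∨
        Far L (D.A w.2) (D.A w.1))) ≤ Ex (dbl D.p D.pt) (fun w => ind (Far L (D.A w.1) (D.A w.2)) +
        ind (Far L (D.A w.2) (D.A w.1))) := Ex_mono h0 fun w _ => ind_le_add fun h => h
    rw [Ex_add] at h6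
    have h7 : Ex (dbl D.p D.pt) (fun w => ind (Far L (D.A w.1) (D.A w.2))) ≤ G / Real.log L := h3
    linarith
  refine ⟨fun P => D.A (cen P), fun P => ⟨hD.det _, hD.ent _, hD.inv _⟩, h5, ?_⟩
  intro E b hE hb
  have hm' : ∀ P, law D.p D.pt P = law E.p E.pt P := fun P => (hD.mar P).trans (hE.mar P).symm
  have h0' : ∀ w, 0 ≤ glue D.p E.p D.pt E.pt w := glue_nonneg hD.law.nonneg hE.law.nonneg
  have i1 := im_fst (p₂ := E.p) hD.law.nonneg hm'
  have i2 := im_snd (p₁ := D.p) hE.law.nonneg hm'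
  have h6 := max_cov hC hCC hD hE hmax hb hL
  have h7 := i1.Ex (fun ω => ind (Far L (D.A (cen (D.pt ω))) (D.A ω) ∨
      Far L (D.A ω) (D.A (cen (D.pt ω)))))
  have h8 := i2.Ex (fun ω => ind (Far (c * (L * L)) (D.A (cen (E.pt ω))) (E.A ω)))
  rw [← h8]
  have h9 : Ex (glue D.p E.p D.pt E.pt)
      (fun w => ind (Far (c * (L * L)) (D.A (cen (E.pt w.2))) (E.A w.2))) ≤
      Ex (glue D.p E.p D.pt E.pt) (fun w => ind (Far L (D.A (cen (D.pt w.1))) (D.A w.1) ∨
      Far L (D.A w.1) (D.A (cen (D.pt w.1)))) + ind (Far L (D.A w.1) (E.A w.2))) := by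
    refine Ex_mono h0' fun w hw => ?_
    have heq := ((glue_pos_iff hD.law.nonneg hE.law.nonneg w).1 hw).2.2
    refine ind_le_add fun hf => ?_
    by_contra hcon
    push Not at hcon
    obtain ⟨⟨k1, -⟩, k2⟩ := hcon
    rw [← heq] at hf
    exact far_trans (by linarith) (hD.det w.1) k1 k2 hf
  rw [Ex_add] at h9
  linarith

end Pool.POT
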