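import Pool.Agent.H21.POT.Vis

/-!
# The conserved visible body (row 366, K_POT)

`pot_core`: the maximal body of a line system, with its properties. `pot`: the theorem for a picture
with a visible chart.
-/

set_option autoImplicit false

namespace Pool.POT

open Finset Real Matrix
open Pool.Agent.H49.Ent Pool.Agent.H32.Dense Pool.STK Pool.FAD
open Pool.SLO (tup tup_nonneg tup_isLaw)
open Pool.KS6 (ind ind_nonneg)
open Pool.QC (nfb)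
open Pool.QC98 (selr Gc nfb_mono Cr Cr_nonneg)
open Pool.QT64 (QH d3 body_s)
open Pool.BFL (Pb)
open Pool.LBL (Ad)

variable {c k : ℕ} {σ υ : Type}

/-! ### Functions of a variable with a given law -/

theorem CH_law_eq {Ω₁ Ω₂ T S U : Type} [Fintype Ω₁] [Fintype Ω₂] {p₁ : Ω₁ → ℝ} {p₂ : Ω₂ → ℝ}
    {Z₁ : Ω₁ → T} {Z₂ : Ω₂ → T} (h₁ : ∀ ω, 0 ≤ p₁ ω) (h₂ : ∀ ω, 0 ≤ p₂ ω)
    (hZ : ∀ z, law p₁ Z₁ z = law p₂ Z₂ z) (f : T → S) (g : T → U) :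
    CH p₁ (fun ω => f (Z₁ ω)) (fun ω => g (Z₁ ω)) =
      CH p₂ (fun ω => f (Z₂ ω)) (fun ω => g (Z₂ ω)) := by
  have h0 : ∀ w, 0 ≤ glue p₁ p₂ Z₁ Z₂ w := glue_nonneg h₁ h₂
  have e1 := (im_fst (p₂ := p₂) h₁ hZ).CH (fun ω => f (Z₁ ω)) (fun ω => g (Z₁ ω))
  have e2 := (im_snd (p₁ := p₁) h₂ hZ).CH (fun ω => f (Z₂ ω)) (fun ω => g (Z₂ ω))
  have heq : ∀ w, 0 < glue p₁ p₂ Z₁ Z₂ w → Z₁ w.1 = Z₂ w.2 := fun w hw =>
    ((glue_pos_iff h₁ h₂ w).1 hw).2.2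
  rw [← e1, ← e2]
  refine CH_congr h0 ?_ ?_ ?_ ?_
  all_goals
    intro w w' x x' h
    have k1 := heq w x
    have k2 := heq w' x'
    simp only [Prod.mk.injEq, k1, k2] at h ⊢
  · exact h.1
  · exact h.1
  · exact h
  · exact h

theorem Ex_law_eq {Ω₁ Ω₂ T : Type} [Fintype Ω₁] [Fintype Ω₂] {p₁ : Ω₁ → ℝ} {p₂ : Ω₂ → ℝ}
    {Z₁ : Ω₁ → T} {Z₂ : Ω₂ → T} (h₁ : ∀ ω, 0 ≤ p₁ ω) (h₂ : ∀ ω, 0 ≤ p₂ ω)
    (hZ : ∀ z, law p₁ Z₁ z = law p₂ Z₂ z) (f : T → ℝ) :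
    Ex p₁ (fun ω => f (Z₁ ω)) = Ex p₂ (fun ω => f (Z₂ ω)) := by
  have h0 : ∀ w, 0 ≤ glue p₁ p₂ Z₁ Z₂ w := glue_nonneg h₁ h₂
  have e1 := (im_fst (p₂ := p₂) h₁ hZ).Ex (fun ω => f (Z₁ ω))
  have e2 := (im_snd (p₁ := p₁) h₂ hZ).Ex (fun ω => f (Z₂ ω))
  have heq : ∀ w, 0 < glue p₁ p₂ Z₁ Z₂ w → Z₁ w.1 = Z₂ w.2 := fun w hw =>
    ((glue_pos_iff h₁ h₂ w).1 hw).2.2
  rw [← e1, ← e2]
  refine le_antisymm (Ex_mono h0 fun w hw => ?_) (Ex_mono h0 fun w hw => ?_)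
  · rw [heq w hw]
  · rw [heq w hw]

theorem Pb_eq_Ex {W : Type} [Fintype W] (q : W → ℝ) (P : W → Prop) :
    Pb q P = Ex q (fun w => ind (P w)) := by
  unfold Pb Ex
  refine Finset.sum_congr rfl fun w _ => ?_
  unfold ind
  by_cases h : P w <;> simp [h]

/-! ### The maximal body of a line system -/

/-- The bounds of the entries. -/
noncomputable def Cs (c : ℕ) (Γ C : ℝ) (k : ℕ) : ℝ := (Gm c Γ ^ 2) ^ (k + 1) * C

theorem Cs_succ (c : ℕ) (Γ C : ℝ) (k : ℕ) : Gm c Γ ^ 2 * Cs c Γ C k = Cs c Γ C (k + 1) := by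
  unfold Cs
  ring

theorem Cs_mono {Γ C : ℝ} (hc : 0 < c) (hΓ : 1 ≤ Γ) (hC : 1 ≤ C) {k l : ℕ} (h : k ≤ l) :
    Cs c Γ C k ≤ Cs c Γ C l := by
  have hG := one_le_Gm hc hΓ
  unfold Cs
  refine mul_le_mul_of_nonneg_right ?_ (by linarith)
  exact pow_le_pow_right₀ (one_le_pow₀ hG) (by omega)

theorem Cs_ge {Γ C : ℝ} (hc : 0 < c) (hΓ : 1 ≤ Γ) (hC : 1 ≤ C) (k : ℕ) : 1 ≤ Cs c Γ C k := by
  have hG := one_le_Gm hc hΓ
  unfold Cs
  exact one_le_mul_of_one_le_of_one_le (one_le_pow₀ (one_le_pow₀ hG)) hC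

/-- **The maximal body.** -/
theorem pot_core {Q : Ln c σ υ} {d δ e Γ R C G L P0 : ℝ} {X K : ℕ} (hQ : Q.Ok d δ e Γ R)
    (hc : 0 < c) (hΓ : 1 ≤ Γ) (hR : 0 ≤ R) (hC : 1 ≤ C) (hL : 1 < L)
    {A0 : (Fin (2 + 1) → Q.Θ) → Matrix (Fin c) (Fin c) ℝ} {b : ℝ}
    (hB : (Q.bd Γ 2 A0).Ok X (Gm c Γ ^ 2 * C) (law Q.p Q.pt) b)
    (hP1 : Pt c d δ e Γ R ≤ P0) (hP2 : |Csb c| ≤ P0) (hP3 : b ≤ P0)
    (hK : Lm c (Cs c Γ C K) + c * (X * Real.log 2) < K * G) :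
    ∃ j < K, ∃ (Ap : σ × (υ × (Fin c → ℤ)) → Matrix (Fin c) (Fin c) ℝ) (D : Dt c σ υ),
      (∀ P, (Ap P).det ≠ 0 ∧ (∀ i j', |Ap P i j'| ≤ Cs c Γ C j) ∧
        ∀ i j, |(Ap P)⁻¹ i j| ≤ 2 ^ X) ∧
      D.Ok X (Cs c Γ C j) (law Q.p Q.pt) (7 ^ j * P0) ∧
      Ex D.p (fun ω => ind (Far L (Ap (D.pt ω)) (D.A ω) ∨ Far L (D.A ω) (Ap (D.pt ω)))) ≤
        2 * (G / Real.log L) ∧
      Ex (tup Q.p Q.L 1) (fun w => ind (Far (c * (c * (L * L) * L)) (Ap (Q.pt (w 0)))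
        (tb Γ (Q.M (w 0)) (Q.M (w 1)) (Ap (Q.pt (w 1)))))) ≤ 5 * (G / Real.log L) ∧
      Ex (tup Q.p Q.L (2 + 1)) (fun w => ind (Far (c * (L * L)) (Ap (Q.pt (w 0)))
        (tb Γ (Q.M (w 0)) 1 (A0 fun j => Q.th (w j.succ))))) ≤ 3 * (G / Real.log L) := by
  have hP0 : 0 ≤ P0 := (abs_nonneg _).trans hP2
  obtain ⟨hd, hδ, he⟩ := hQ.nn
  have hPt := Pt_ge (δ := δ) hc hΓ hR hd he
  obtain ⟨j, hj, D, hD, hmax⟩ := exists_max (X := X) (μ := law Q.p Q.pt) hQ.law Q.s Q.y Q.n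
    (fun _ => rfl) (fun j => 7 ^ j * P0) (Cs c Γ C) (Cs_ge hc hΓ hC 0)
    (by simpa using hP0) K G hK
  have h7 : P0 ≤ 7 ^ j * P0 := le_mul_of_one_le_left hP0 (one_le_pow₀ (by norm_num))
  have e7 : (7 : ℝ) ^ (j + 1) * P0 = 7 * (7 ^ j * P0) := by ring
  obtain ⟨Ap, h1, h2, h3⟩ := apt_ex (C' := Cs c Γ C (j + 1)) (a' := 7 ^ (j + 1) * P0) (G := G)
    (L := L) (Cs_ge hc hΓ hC j) (Cs_mono hc hΓ hC (Nat.le_succ j)) hD hmax
    (by rw [e7]; linarith) hL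
  refine ⟨j, hj, Ap, D, h1, hD, h2, ?_, ?_⟩
  · exact Ln.cons hQ hD hc hΓ hR (by linarith) (Cs_succ c Γ C j).le h2 h3
      (by rw [e7]; linarith)
  · refine h3 (Q.bd Γ 2 A0) b (hB.mono' ?_ le_rfl) (by rw [e7]; linarith)
    have : Gm c Γ ^ 2 * C = Cs c Γ C 0 := by unfold Cs; ring
    rw [this]
    exact Cs_mono hc hΓ hC (by omega)

/-! ### Numbers -/

theorem log_Gm {Γ : ℝ} (hc : 0 < c) (hΓ : 1 ≤ Γ) :
    Real.log (Gm c Γ) = 2 * Real.log c + 2 * Real.log Γ := by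
  have hc' : (0 : ℝ) < c := by exact_mod_cast hc
  unfold Gm
  rw [Real.log_mul (by positivity) (by positivity), Real.log_pow, Real.log_pow]
  push_cast
  ring

/-- The logarithm which bounds everything. -/
noncomputable def el (c : ℕ) (Γ : ℝ) : ℝ := Real.log c + Real.log Γ + 3

theorem el_ge {Γ : ℝ} (hc : 0 < c) (hΓ : 1 ≤ Γ) : 3 ≤ el c Γ := by
  have h1 : 0 ≤ Real.log c := Real.log_nonneg (by exact_mod_cast hc)
  have h2 : 0 ≤ Real.log Γ := Real.log_nonneg hΓ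
  unfold el
  linarith

theorem log_le_el {Γ x : ℝ} (hc : 0 < c) (hΓ : 1 ≤ Γ) (hx0 : 0 < x)
    (hx : x ≤ 16 * ((c : ℝ) ^ 2 * Γ ^ 2)) : Real.log x ≤ 2 * el c Γ := by
  have hc' : (0 : ℝ) < c := by exact_mod_cast hc
  have h1 := Real.log_le_log hx0 hx
  rw [Real.log_mul (by norm_num) (by positivity), Real.log_mul (by positivity) (by positivity),
    Real.log_pow, Real.log_pow] at h1
  have h2 : Real.log 16 ≤ 6 := by
    have : (16 : ℝ) = 2 ^ 4 := by norm_num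
    rw [this, Real.log_pow]
    have := Real.log_two_lt_d9
    push_cast
    linarith
  unfold el
  push_cast at h1
  linarith

theorem Ch2_le {Γ : ℝ} (hc : 0 < c) (hΓ : 1 ≤ Γ) : Ch2 c Γ ≤ 4 * c * el c Γ := by
  have hc1 : (1 : ℝ) ≤ c := by exact_mod_cast hc
  have h0 : (1 : ℝ) ≤ (c : ℝ) ^ 2 := one_le_pow₀ hc1
  have h0' : (1 : ℝ) ≤ Γ ^ 2 := one_le_pow₀ hΓ
  have h00 : (c : ℝ) ≤ (c : ℝ) ^ 2 := by nlinarith
  have h01 : Γ ≤ Γ ^ 2 := by nlinarith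
  have h02 : (1 : ℝ) ≤ (c : ℝ) ^ 2 * Γ ^ 2 := by nlinarith
  have h03 : Γ ^ 2 ≤ (c : ℝ) ^ 2 * Γ ^ 2 := by nlinarith
  have h1 : Real.log (2 * (c * (Γ * Γ)) + 1) ≤ 2 * el c Γ := by
    refine log_le_el hc hΓ (by positivity) ?_
    nlinarith [mul_le_mul_of_nonneg_right h00 (show 0 ≤ Γ ^ 2 by positivity)]
  have h2 : Real.log (2 * Γ + 1) ≤ 2 * el c Γ := log_le_el hc hΓ (by positivity) (by nlinarith)
  unfold Ch2
  nlinarith

theorem Pt_le {Γ d δ e : ℝ} (hc : 0 < c) (hΓ : 1 ≤ Γ) :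
    Pt c d δ e Γ (2 * Γ) ≤ δ + 3 * d + 2 * e + 6 * c * el c Γ := by
  have hc1 : (1 : ℝ) ≤ c := by exact_mod_cast hc
  have h0 : (1 : ℝ) ≤ (c : ℝ) ^ 2 := one_le_pow₀ hc1
  have h0' : (1 : ℝ) ≤ Γ ^ 2 := one_le_pow₀ hΓ
  have h02 : (1 : ℝ) ≤ (c : ℝ) ^ 2 * Γ ^ 2 := by nlinarith
  have h1 : Real.log (Gm c Γ) ≤ 2 * el c Γ := by
    refine log_le_el hc hΓ (by linarith [one_le_Gm hc hΓ]) ?_
    unfold Gm
    nlinarith
  have e0 : (c : ℝ) ^ 2 * Γ * (2 * Γ) = 2 * ((c : ℝ) ^ 2 * Γ ^ 2) := by ring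
  have h2 : Real.log (2 * (1 + (c : ℝ) ^ 2 * Γ * (2 * Γ) + 1) + 1) ≤ 2 * el c Γ := by
    refine log_le_el hc hΓ (by positivity) ?_
    rw [e0]
    nlinarith
  have h3 : Real.log (2 * (1 + (c : ℝ) ^ 2 * Γ * (2 * Γ)) + 1) ≤ 2 * el c Γ := by
    refine log_le_el hc hΓ (by positivity) ?_
    rw [e0]
    nlinarith
  unfold Pt Ctr
  nlinarith

theorem Lm_le {Γ C : ℝ} (hc : 0 < c) (hΓ : 1 ≤ Γ) (hC : 1 ≤ C) (K : ℕ) :
    Lm c (Cs c Γ C K) = Real.log (Nat.factorial c) +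
      c * (Real.log C + (K + 1) * (4 * Real.log c + 4 * Real.log Γ)) := by
  have hG := one_le_Gm hc hΓ
  have hf : (0 : ℝ) < Nat.factorial c := by exact_mod_cast Nat.factorial_pos c
  unfold Lm
  rw [Real.log_mul hf.ne' (pow_ne_zero _ (by linarith [Cs_ge hc hΓ hC K])), Real.log_pow]
  unfold Cs
  rw [Real.log_mul (by positivity) (by linarith), Real.log_pow, Real.log_pow, log_Gm hc hΓ]
  push_cast
  ring

theorem log_Cs {Γ C : ℝ} (hc : 0 < c) (hΓ : 1 ≤ Γ) (hC : 1 ≤ C) (K : ℕ) :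
    Real.log (Cs c Γ C K) = Real.log C + (K + 1) * (4 * Real.log c + 4 * Real.log Γ) := by
  have hG := one_le_Gm hc hΓ
  unfold Cs
  rw [Real.log_mul (by positivity) (by linarith), Real.log_pow, Real.log_pow, log_Gm hc hΓ]
  push_cast
  ring

/-- A threshold for linear functions. -/
theorem ex_ge {a b : ℝ} (ha : 0 < a) : ∃ X0 : ℕ, ∀ X : ℕ, X0 ≤ X → b ≤ a * X := by
  obtain ⟨X0, h⟩ := exists_nat_ge (b / a)
  refine ⟨X0, fun X hX => ?_⟩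
  have h1 : b / a ≤ X := h.trans (by exact_mod_cast hX)
  rw [div_le_iff₀ ha] at h1
  linarith

/-! ### The theorem -/

/-- The near covector of `B` is a near covector of `A`. -/
theorem ad_of_gc {A B : Matrix (Fin c) (Fin c) ℝ} {n₀ : Fin c} (hn₀ : ∀ i, i ≤ n₀) {X b : ℕ}
    {x1 L Δ : ℝ} (hB : B.det ≠ 0) (h : Gc n₀ X b x1 B) (hf : ¬ Far L B A)
    (hΔ : c * (2 ^ (-(x1 * X)) * L) ≤ Δ) :
    ∃ m, Ad A n₀ ((2 : ℝ) ^ ((X : ℝ) / b)) Δ m := by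
  obtain ⟨m, h1, h2, h3⟩ := h
  rw [not_far] at hf
  refine ⟨m, h1, fun i hi => absurd (hn₀ i) (not_le.2 hi), h2, fun j => ?_⟩
  have e : ∑ i, m i * A i j = ∑ l, (∑ i, m i * B i l) * (B⁻¹ * A) l j := by
    have e1 : A = B * (B⁻¹ * A) := by
      rw [← Matrix.mul_assoc, Matrix.mul_nonsing_inv _ (isUnit_iff_ne_zero.2 hB), Matrix.one_mul]
    calc ∑ i, m i * A i j = ∑ i, m i * (B * (B⁻¹ * A)) i j := by rw [← e1]
      _ = ∑ i, ∑ l, m i * (B i l * (B⁻¹ * A) l j) := by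
          refine Finset.sum_congr rfl fun i _ => ?_
          rw [Matrix.mul_apply, Finset.mul_sum]
      _ = ∑ l, ∑ i, m i * (B i l * (B⁻¹ * A) l j) := Finset.sum_comm
      _ = ∑ l, (∑ i, m i * B i l) * (B⁻¹ * A) l j := by
          refine Finset.sum_congr rfl fun l _ => ?_
          rw [Finset.sum_mul]
          refine Finset.sum_congr rfl fun i _ => ?_
          ring
  rw [e]
  calc |∑ l, (∑ i, m i * B i l) * (B⁻¹ * A) l j| ≤
      ∑ l, |(∑ i, m i * B i l) * (B⁻¹ * A) l j| := Finset.abs_sum_le_sum_abs _ _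
    _ ≤ ∑ _l : Fin c, 2 ^ (-(x1 * X)) * L := by
        refine Finset.sum_le_sum fun l _ => ?_
        rw [abs_mul]
        exact mul_le_mul (h3 l) (hf l j) (abs_nonneg _) (by positivity)
    _ = c * (2 ^ (-(x1 * X)) * L) := by simp
    _ ≤ Δ := hΔ

theorem ind_mono {P Q : Prop} (h : P → Q) : ind P ≤ ind Q := by
  have h1 := ind_le_add (P := P) (Q := Q) (R := False) (fun h' => Or.inl (h h'))
  have h0 : ind False = 0 := by unfold ind; simp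
  rw [h0, add_zero] at h1
  exact h1

/-- Transport at one pair. -/
theorem tr_pt {Γ L ρ : ℝ} (hG : 1 ≤ Gm c Γ) {A B M0 M1 : Matrix (Fin c) (Fin c) ℝ}
    (h : ¬ Far L A (tb Γ M0 M1 B)) (hρ : L ≤ ρ) (i j : Fin c) :
    |(A⁻¹ * (M0 * M1⁻¹ * B)) i j| ≤ ρ := by
  rw [not_far] at h
  have k3 := h i j
  have k4 : A⁻¹ * tb Γ M0 M1 B = Gm c Γ • (A⁻¹ * (M0 * M1⁻¹ * B)) := by
    unfold tb
    rw [Matrix.mul_smul]
  rw [k4, Matrix.smul_apply, smul_eq_mul, abs_mul, abs_of_nonneg (by linarith)] at k3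
  have k6 := abs_nonneg ((A⁻¹ * (M0 * M1⁻¹ * B)) i j)
  nlinarith

/-- The body at one tuple. -/
theorem bd_pt {Γ L K1 ρ : ℝ} (hG : 1 ≤ Gm c Γ) {A AA M0 : Matrix (Fin c) (Fin c) ℝ}
    {d : Fin c → ℝ} (kd : AA.det ≠ 0) (h : ¬ Far L A (tb Γ M0 1 AA)) (hL : 0 ≤ L)
    (h2 : ∀ b, |(AA⁻¹ *ᵥ d) b| ≤ K1) (hρ : c * (L * K1) ≤ ρ) (b : Fin c) :
    |(A⁻¹ *ᵥ (M0 *ᵥ d)) b| ≤ ρ := by
  rw [not_far] at h
  obtain ⟨ν, hν⟩ : ∃ ν, ν = AA⁻¹ *ᵥ d := ⟨_, rfl⟩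
  rw [← hν] at h2
  have k5 : d = AA *ᵥ ν := by
    rw [hν, Matrix.mulVec_mulVec, Matrix.mul_nonsing_inv _ (isUnit_iff_ne_zero.2 kd),
      Matrix.one_mulVec]
  have k6 : A⁻¹ *ᵥ (M0 *ᵥ (AA *ᵥ ν)) = (Gm c Γ)⁻¹ • ((A⁻¹ * tb Γ M0 1 AA) *ᵥ ν) := by
    unfold tb
    rw [inv_one, Matrix.mul_one, Matrix.mul_smul, Matrix.smul_mulVec, smul_smul,
      inv_mul_cancel₀ (by linarith), one_smul, Matrix.mulVec_mulVec, Matrix.mulVec_mulVec,
      Matrix.mul_assoc]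
  rw [k5, k6, Pi.smul_apply, smul_eq_mul, abs_mul, abs_of_nonneg (by positivity)]
  have k7 := mulVec_bd h h2 hL b
  have k8 : (Gm c Γ)⁻¹ ≤ 1 := inv_le_one_of_one_le₀ hG
  have k9 := abs_nonneg (((A⁻¹ * tb Γ M0 1 AA) *ᵥ ν) b)
  have k11 := mul_le_mul_of_nonneg_right k8 k9
  linarith

/-- The probability of the complement of an event which follows from `not far`. -/
theorem pb_of_far {W : Type} [Fintype W] {q : W → ℝ} (hq : ∀ w, 0 ≤ q w) {P F : W → Prop}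
    (h : ∀ w, ¬ F w → P w) {x : ℝ} (hF : Ex q (fun w => ind (F w)) ≤ x) :
    Pb q (fun w => ¬ P w) ≤ x := by
  rw [Pb_eq_Ex]
  refine le_trans (Ex_mono hq fun w _ => ind_mono fun hf => ?_) hF
  by_contra hcon
  exact hf (h w hcon)

/-- The covectors of the maximal body. -/
theorem cv_out {Ω Ω' : Type} [Fintype Ω] [Fintype Ω'] {p : Ω → ℝ} {p' : Ω' → ℝ}
    (hp : ∀ ω, 0 ≤ p ω) (hp' : ∀ ω, 0 ≤ p' ω) {T : Type} {Z : Ω → T} {Z' : Ω' → T}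
    (hmar : ∀ z, law p Z z = law p' Z' z)
    {A : Ω → Matrix (Fin c) (Fin c) ℝ} {Ap : T → Matrix (Fin c) (Fin c) ℝ}
    {n₀ : Fin c} (hn₀ : ∀ i, i ≤ n₀) {X B : ℕ} {x1 L R Δ x y : ℝ} (hA : ∀ ω, (A ω).det ≠ 0)
    (hR : R = (2 : ℝ) ^ ((X : ℝ) / B)) (hΔ : c * (2 ^ (-(x1 * X)) * L) ≤ Δ)
    (h1 : x ≤ Pb p (fun ω => Gc n₀ X B x1 (A ω)))
    (h2 : Ex p (fun ω => ind (Far L (Ap (Z ω)) (A ω) ∨ Far L (A ω) (Ap (Z ω)))) ≤ y) :
    x - y ≤ Pb p' (fun ω => ∃ m, Ad (Ap (Z' ω)) n₀ R Δ m) := by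
  have k4 : Ex p (fun ω => ind (Gc n₀ X B x1 (A ω))) ≤
      Ex p (fun ω => ind (∃ m, Ad (Ap (Z ω)) n₀ R Δ m) +
      ind (Far L (Ap (Z ω)) (A ω) ∨ Far L (A ω) (Ap (Z ω)))) := by
    refine Ex_mono hp fun ω _ => ind_le_add fun hg => ?_
    by_cases hf : Far L (Ap (Z ω)) (A ω) ∨ Far L (A ω) (Ap (Z ω))
    · exact Or.inr hf
    · left
      rw [not_or] at hf
      rw [hR]
      exact ad_of_gc hn₀ (hA ω) hg hf.2 hΔ
  rw [Ex_add] at k4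
  have k5 := Ex_law_eq hp hp' hmar (fun P => ind (∃ m, Ad (Ap P) n₀ R Δ m))
  rw [Pb_eq_Ex, ← k5]
  rw [Pb_eq_Ex] at h1
  linarith

/-- The near point of the maximal datum is as in the picture. -/
theorem nf_out {H : QH c k} {X B : ℕ} {n₀ : Fin c} {c0 d δ Γ C a : ℝ} {s : H.Ω → σ}
    {y : H.Ω → υ} {n : H.Ω → Fin c → ℤ} {M : H.Ω → Matrix (Fin c) (Fin c) ℝ} (hp : IsLaw H.p)
    (hV : VCh H X B n₀ c0 d δ Γ s y n M) {D : Dt c σ υ}
    (hD : D.Ok X C (law (lnOf H s y n M).p (lnOf H s y n M).pt) a) :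
    nfb D.p D.n (fun ω => (D.y ω, (D.s ω, D.Z ω))) n₀ X B ≤ (1 - c0) * X * Real.log 2 := by
  refine (nfb_mono hD.law.nonneg D.n (Y := fun ω => (D.y ω, D.s ω)) ?_ n₀ X B).trans
    (le_trans (le_of_eq ?_) hV.nf)
  · intro ω ω' _ _ e
    simp only [Prod.mk.injEq] at e ⊢
    exact ⟨e.1, e.2.1⟩
  · unfold Pool.QC.nfb
    refine Finset.sum_congr rfl fun t _ => ?_
    exact CH_law_eq hD.law.nonneg hp.nonneg (Z₁ := D.pt)
      (Z₂ := fun ω => (s ω, (y ω, n ω))) hD.mar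
      (fun P => P.2.2 n₀ / 2 ^ (X - (t + 1) * X / B))
      (fun P => (P.2.2 n₀ / 2 ^ (X - t * X / B),
        ((fun i : {i : Fin c // i ≠ n₀} => P.2.2 i / 2 ^ (X - (t + 1) * X / B)),
          (P.2.1, P.1))))

/-- The body of a picture gives a body datum. -/
theorem bd_dat {H : QH c k} {X B : ℕ} {n₀ : Fin c} {C c0 d Γ K1 C1 b : ℝ} {s : H.Ω → σ}
    {y : H.Ω → υ} {n : H.Ω → Fin c → ℤ} {M : H.Ω → Matrix (Fin c) (Fin c) ℝ}
    (ok : H.OkNS X C d) (hV : VCh H X B n₀ c0 d d Γ s y n M) (hc : 0 < c) (hΓ : 1 ≤ Γ)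
    (hd : 0 ≤ d) (hb : 0 ≤ b) (hCK : K1 ≤ C1)
    {A0 : H.Tt → H.Tt → H.Tt → Matrix (Fin c) (Fin c) ℝ}
    (hA1 : ∀ t1 t2 t3, (A0 t1 t2 t3).det ≠ 0 ∧ (∀ i j, |A0 t1 t2 t3 i j| ≤ K1) ∧
      ∀ i j, |(A0 t1 t2 t3)⁻¹ i j| ≤ 2 ^ X)
    (hA3 : DF (tup H.p H.line 3) (fun _ => Tx c X)
      (fun w => A0 (H.th (w 1)) (H.th (w 2)) (H.th (w 3)))
      (fun w i => (H.hgt (w 0) i : ℝ) / 2 ^ X)
      (fun w => (H.b (w 0), (H.th (w 0), (H.th (w 1), (H.th (w 2), H.th (w 3)))))) ≤ b) :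
    ((lnOf H s y n M).bd Γ 2 (fun t => A0 (t 0) (t 1) (t 2))).Ok X (Gm c Γ ^ 2 * C1)
      (law (lnOf H s y n M).p (lnOf H s y n M).pt)
      (b + ((2 : ℕ) + 1) * (2 * d + Ch2 c Γ) + Pt c (2 * d + Ch2 c Γ) d d Γ (2 * Γ)) := by
  have hC2 := Ch2_nonneg c (show 0 ≤ Γ by linarith)
  refine Ln.bd_ok (vch_ok ok hV hΓ) hc hΓ (by linarith) 2 (h := H.hgt) hb
    ?_ ?_ ?_ ?_ ?_
  · intro t
    obtain ⟨k1, k2, k3⟩ := hA1 (t 0) (t 1) (t 2)
    exact ⟨k1, fun i j => (k2 i j).trans hCK, k3⟩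
  · intro ω ω' _ _ e
    have e' : (H.line ω, H.th ω) = (H.line ω', H.th ω') := e
    unfold QH.line at e'
    simp only [Prod.mk.injEq] at e'
    unfold QH.hgt
    rw [e'.1.1, e'.1.2.1, e'.2]
  · have k1 : CH H.p H.hgt (fun ω => (H.th ω, H.b ω)) -
        CH H.p H.hgt (fun ω => (H.v ω, (H.th ω, H.b ω))) ≤ d := ok.h2
    have k2 : d ≤ 2 * d + Ch2 c Γ := by linarith
    exact k1.trans k2
  · intro ω ω' x x' e i
    have e' : (y ω, (H.b ω, H.th ω)) = (y ω', (H.b ω', H.th ω')) := e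
    simp only [Prod.mk.injEq] at e'
    have k1 := hV.rel ω ω' x x' e'.1 e'.2.1 e'.2.2 i
    refine le_trans k1 ?_
    linarith
  · refine le_trans ?_ hA3
    have k1 := DF_less (p := tup H.p H.line 3) (fun w => tup_nonneg ok.law.nonneg H.line 3 w) X
      (A := fun w => A0 (H.th (w 1)) (H.th (w 2)) (H.th (w 3))) (n := fun w => H.hgt (w 0))
      (Z := fun w => (H.b (w 0), (H.th (w 0), fun j : Fin (2 + 1) => H.th (w j.succ))))
      (Z' := fun w => (H.b (w 0), (H.th (w 0), (H.th (w 1), (H.th (w 2), H.th (w 3)))))) (by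
        intro w w' _ _ e
        simp only [Prod.mk.injEq] at e ⊢
        refine ⟨e.1, e.2.1, ?_⟩
        funext j
        fin_cases j
        · exact e.2.2.1
        · exact e.2.2.2.1
        · exact e.2.2.2.2)
    exact k1

set_option maxHeartbeats 4000000 in
/-- **The conserved visible body.** -/
theorem pot (c k : ℕ) (n₀ : Fin c) (hn₀ : ∀ i, i ≤ n₀) (c0 x1 zz η : ℝ) (B : ℕ) (hx1 : 0 ≤ x1)
    (hzz : 0 < zz) (hη : 0 < η) (hB : 0 < B) :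
    ∃ io : ℝ, 0 < io ∧ ∀ C : ℝ, 1 ≤ C → ∃ X0 : ℕ, ∀ (H : QH c k) (X : ℕ), X0 ≤ X →
    H.OkNS X C (io * X) → ∀ {σ υ : Type} (s : H.Ω → σ) (y : H.Ω → υ) (n : H.Ω → Fin c → ℤ)
      (M : H.Ω → Matrix (Fin c) (Fin c) ℝ),
    VCh H X B n₀ c0 (io * X) (io * X) (2 ^ (io * X)) s y n M →
    ∃ A : σ × (υ × (Fin c → ℤ)) → Matrix (Fin c) (Fin c) ℝ,
      (∀ P, (A P).det ≠ 0 ∧ (∀ i j, |A P i j| ≤ 2 ^ (zz * X)) ∧
        ∀ i j, |(A P)⁻¹ i j| ≤ 2 ^ X) ∧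
      c0 - x1 - η ≤ Pb H.p (fun ω => ∃ m, Ad (A (s ω, (y ω, n ω))) n₀
        ((2 : ℝ) ^ ((X : ℝ) / B)) (2 ^ (-((x1 - zz) * X))) m) ∧
      Pb (tup H.p H.line 1) (fun w => ¬ ∀ i j,
        |((A (s (w 0), (y (w 0), n (w 0))))⁻¹ *
          (M (w 0) * (M (w 1))⁻¹ * A (s (w 1), (y (w 1), n (w 1))))) i j| ≤ 2 ^ (zz * X)) ≤ η ∧
      Pb (tup H.p H.line 3) (fun w => ¬ ∀ u b,
        |((A (s (w 0), (y (w 0), n (w 0))))⁻¹ *ᵥ (M (w 0) *ᵥ d3 H.tau H.E u (H.th (w 1))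
          (H.th (w 2)) (H.th (w 3)))) b| ≤ 2 ^ (zz * X)) ≤ η := by
  have hc : 0 < c := lt_of_le_of_lt (Nat.zero_le _) n₀.2
  have hc1 : (1 : ℝ) ≤ c := by exact_mod_cast hc
  have hl : 0 < Real.log 2 := Real.log_pos (by norm_num)
  have hl1 : Real.log 2 ≤ 1 := by
    have := Real.log_two_lt_d9
    linarith
  have hBr : (1 : ℝ) ≤ B := by exact_mod_cast hB
  have hlc : 0 ≤ Real.log c := Real.log_nonneg hc1
  -- the constants
  obtain ⟨x', hx'⟩ : ∃ x', x' = η * (zz / 4) * Real.log 2 / 5 := ⟨_, rfl⟩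
  have hx'0 : 0 < x' := by rw [hx']; positivity
  obtain ⟨K, hK⟩ := exists_nat_ge ((c * Real.log 2 + 1) / x')
  rw [div_le_iff₀ hx'0] at hK
  obtain ⟨ε, hε⟩ : ∃ ε, ε = η * Real.log 2 / (8 * B * 7 ^ K) := ⟨_, rfl⟩
  have hε0 : 0 < ε := by rw [hε]; positivity
  obtain ⟨io1, hio1, hbody⟩ := body_s c k ε hε0
  have hK0 : (0 : ℝ) ≤ K := Nat.cast_nonneg K
  obtain ⟨io, hio, e1, e2, e3, e4⟩ : ∃ io : ℝ, 0 < io ∧ io ≤ io1 ∧
      io * (2 * (15 + 66 * c)) ≤ ε ∧ io * (16 * c * (K + 1)) ≤ 1 ∧ io * (8 * (K + 1)) ≤ zz := by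
    refine ⟨min io1 (min (ε / (2 * (15 + 66 * c))) (min (1 / (16 * c * (K + 1)))
      (zz / (8 * (K + 1))))), ?_, min_le_left _ _, ?_, ?_, ?_⟩
    · refine lt_min hio1 (lt_min (by positivity) (lt_min (by positivity) (by positivity)))
    · rw [← le_div_iff₀ (by positivity)]
      exact (min_le_right _ _).trans (min_le_left _ _)
    · rw [← le_div_iff₀ (by positivity)]
      exact (min_le_right _ _).trans ((min_le_right _ _).trans (min_le_left _ _))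
    · rw [← le_div_iff₀ (by positivity)]
      exact (min_le_right _ _).trans ((min_le_right _ _).trans (min_le_right _ _))
  refine ⟨io, hio, fun C hC => ?_⟩
  obtain ⟨K1, X1, hbody⟩ := hbody C hC
  obtain ⟨C1, hC1⟩ : ∃ C1, C1 = max K1 1 := ⟨_, rfl⟩
  have hC1' : 1 ≤ C1 := by rw [hC1]; exact le_max_right _ _
  have hCK : K1 ≤ C1 := by rw [hC1]; exact le_max_left _ _
  have hlC : 0 ≤ Real.log C1 := Real.log_nonneg hC1'
  obtain ⟨X2, h2⟩ := ex_ge (a := zz / 4 * Real.log 2) (b := Real.log ((c : ℝ) ^ 2 * C1))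
    (by positivity)
  obtain ⟨X3, h3⟩ := ex_ge (a := ε / 2) (b := 66 * c * (Real.log c + 3) + |Csb c|) (by positivity)
  obtain ⟨X4, h4⟩ := ex_ge (a := η / 4 * Real.log 2) (b := B * Cr c) (by positivity)
  obtain ⟨X5, h5⟩ := ex_ge (a := (1 : ℝ) / 2) (b := Real.log (Nat.factorial c) +
    c * (Real.log C1 + (K + 1) * (4 * Real.log c)) + 1) (by norm_num)
  obtain ⟨X6, h6⟩ := ex_ge (a := zz / 2 * Real.log 2)
    (b := Real.log C1 + (K + 1) * (4 * Real.log c)) (by positivity)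
  refine ⟨max 1 (max X1 (max X2 (max X3 (max X4 (max X5 X6))))), ?_⟩
  intro H X hX ok σ υ s y n M hV
  have hX1 : 1 ≤ X := (le_max_left _ _).trans hX
  have hXX := (le_max_right _ _).trans hX
  have hXX1 : X1 ≤ X := (le_max_left _ _).trans hXX
  have hXX' := (le_max_right _ _).trans hXX
  have h2 := h2 X ((le_max_left _ _).trans hXX')
  have hXX'' := (le_max_right _ _).trans hXX'
  have h3 := h3 X ((le_max_left _ _).trans hXX'')
  have hXX3 := (le_max_right _ _).trans hXX''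
  have h4 := h4 X ((le_max_left _ _).trans hXX3)
  have hXX4 := (le_max_right _ _).trans hXX3
  have h5 := h5 X ((le_max_left _ _).trans hXX4)
  have h6 := h6 X ((le_max_right _ _).trans hXX4)
  have hXr : (1 : ℝ) ≤ X := by exact_mod_cast hX1
  have hX0 : (0 : ℝ) < X := by linarith
  -- the charts
  obtain ⟨Γ, hΓe⟩ : ∃ Γ : ℝ, Γ = 2 ^ (io * X) := ⟨_, rfl⟩
  rw [← hΓe] at hV
  have hΓ : 1 ≤ Γ := by
    rw [hΓe]
    exact Real.one_le_rpow (by norm_num) (by positivity)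
  have hlΓ : Real.log Γ = io * X * Real.log 2 := by
    rw [hΓe, Real.log_rpow (by norm_num)]
  have hel : el c Γ ≤ Real.log c + 3 + io * X := by
    unfold el
    rw [hlΓ]
    nlinarith [mul_pos hio hX0]
  have hel3 := el_ge hc hΓ
  -- the line system
  have hQ := vch_ok ok hV hΓ
  obtain ⟨Q, hQe⟩ : ∃ Q : Ln c σ υ, Q = lnOf H s y n M := ⟨_, rfl⟩
  obtain ⟨d', hd'⟩ : ∃ d', d' = 2 * (io * X) + Ch2 c Γ := ⟨_, rfl⟩
  rw [← hd'] at hQ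
  have hd'le : d' ≤ 2 * (io * X) + 4 * c * el c Γ := by
    rw [hd']
    linarith [Ch2_le hc hΓ]
  have hd'0 : 0 ≤ d' := by
    rw [hd']
    have := Ch2_nonneg c (show 0 ≤ Γ by linarith)
    positivity
  -- the body
  obtain ⟨A0, hA1, hA2, hA3⟩ := hbody H X hXX1
    { ok with
      h0 := ok.h0.trans (mul_le_mul_of_nonneg_right e1 hX0.le)
      h2 := ok.h2.trans (mul_le_mul_of_nonneg_right e1 hX0.le)
      y_f := by
        have := ok.y_f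
        have := mul_le_mul_of_nonneg_right e1 hX0.le
        linarith
      t_f := by
        have := ok.t_f
        have := mul_le_mul_of_nonneg_right e1 hX0.le
        linarith }
  have hbd := bd_dat (C1 := C1) ok hV hc hΓ (by positivity) (by positivity) hCK hA1 hA3
  rw [← hd'] at hbd
  -- the prices
  obtain ⟨P0, hP0⟩ : ∃ P0, P0 = ε * X + 3 * d' + Pt c d' (io * X) (io * X) Γ (2 * Γ) + |Csb c| :=
    ⟨_, rfl⟩
  have hPt0 : 0 ≤ Pt c d' (io * X) (io * X) Γ (2 * Γ) := by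
    have := Pt_ge (δ := io * X) hc hΓ (R := 2 * Γ) (by linarith) hd'0
      (show 0 ≤ io * X by positivity)
    have := mul_pos hio hX0
    linarith
  have hab := abs_nonneg (Csb c)
  have hεX : 0 ≤ ε * X := by positivity
  have hP0' : P0 ≤ 2 * (ε * X) := by
    have k1 := Pt_le (d := d') (δ := io * X) (e := io * X) hc hΓ
    have k2 : (c : ℝ) * el c Γ ≤ c * (Real.log c + 3 + io * X) :=
      mul_le_mul_of_nonneg_left hel (by linarith)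
    have k3 := mul_le_mul_of_nonneg_right e2 hX0.le
    have k4 : 0 ≤ c * (Real.log c + 3) := by positivity
    have k5 : 0 ≤ c * (io * X) := by positivity
    rw [hP0]
    nlinarith
  -- the potential
  obtain ⟨L, hLe⟩ : ∃ L : ℝ, L = 2 ^ (zz / 4 * X) := ⟨_, rfl⟩
  have hL1 : 1 < L := by
    rw [hLe]
    exact Real.one_lt_rpow (by norm_num) (by positivity)
  have hlL : Real.log L = zz / 4 * X * Real.log 2 := by
    rw [hLe, Real.log_rpow (by norm_num)]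
  have hL4 : L ^ 4 = 2 ^ (zz * X) := by
    rw [hLe, ← Real.rpow_natCast, ← Real.rpow_mul (by norm_num)]
    congr 1
    push_cast
    ring
  have hcL : (c : ℝ) ^ 2 * C1 ≤ L := by
    have k1 : 0 < (c : ℝ) ^ 2 * C1 := by positivity
    rw [← Real.log_le_log_iff k1 (by linarith), hlL]
    linarith
  have hc2L : (c : ℝ) ^ 2 ≤ L := by
    have : (c : ℝ) ^ 2 ≤ (c : ℝ) ^ 2 * C1 := le_mul_of_one_le_right (by positivity) hC1'
    linarith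
  have hc2 : (c : ℝ) ≤ (c : ℝ) ^ 2 := by nlinarith
  obtain ⟨G, hGe⟩ : ∃ G, G = x' * X := ⟨_, rfl⟩
  have hGL : G / Real.log L = η / 5 := by
    rw [hGe, hlL, hx']
    field_simp
  have hKG : Lm c (Cs c Γ C1 K) + c * (X * Real.log 2) < K * G := by
    rw [Lm_le hc hΓ hC1' K, hlΓ, hGe]
    have k1 : (c : ℝ) * ((K + 1) * (4 * (io * X * Real.log 2))) ≤ X / 4 := by
      have k2 := mul_le_mul_of_nonneg_right e3 hX0.le
      have k3 : 0 ≤ io * c * (K + 1) * X := by positivity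
      nlinarith
    have k4 := mul_le_mul_of_nonneg_right hK hX0.le
    nlinarith
  obtain ⟨j, hj, Ap, D, f1, hD, f2, f3, f4⟩ := pot_core hQ hc hΓ (by linarith) hC1' hL1 (P0 := P0)
    hbd (by rw [hP0]; linarith) (by rw [hP0]; linarith) (by
      rw [hP0]
      push_cast
      linarith) hKG
  rw [hGL] at f2 f3 f4
  have hent : Cs c Γ C1 j ≤ 2 ^ (zz * X) := by
    refine (Cs_mono hc hΓ hC1' hj.le).trans ?_
    have k0 := Cs_ge hc hΓ hC1' K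
    rw [← Real.log_le_log_iff (by linarith) (by positivity), log_Cs hc hΓ hC1' K, hlΓ,
      Real.log_rpow (by norm_num)]
    have k2 := mul_le_mul_of_nonneg_right e4 (show 0 ≤ X * Real.log 2 by positivity)
    nlinarith
  have hG1 := one_le_Gm hc hΓ
  refine ⟨Ap, fun P => ⟨(f1 P).1, fun i j => ((f1 P).2.1 i j).trans hent, (f1 P).2.2⟩,
    ?_, ?_, ?_⟩
  · -- the covector
    have k1 := selr hD.law D.n (fun ω => (D.y ω, (D.s ω, D.Z ω))) D.A (by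
      intro ω ω' x x' e
      exact hD.dZ ω ω' x x' (Prod.ext_iff.mp e).2) hD.det (by omega) hB hD.inv hD.fu n₀ hx1
      (c0 := c0) (nf_out ok.law hV hD)
    have k2 : B * (7 ^ j * P0 + Cr c) / (X * Real.log 2) ≤ η / 2 := by
      rw [div_le_iff₀ (by positivity)]
      have k3 : (7 : ℝ) ^ j * P0 ≤ 7 ^ K * (2 * (ε * X)) := by
        have k4 : (7 : ℝ) ^ j ≤ 7 ^ K := pow_le_pow_right₀ (by norm_num) hj.le
        have k5 : 0 ≤ P0 := by rw [hP0]; positivity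
        exact mul_le_mul k4 hP0' k5 (by positivity)
      have k6 : (B : ℝ) * (7 ^ K * (2 * (ε * X))) = η / 4 * Real.log 2 * X := by
        rw [hε]
        field_simp
        ring
      have k7 : (B : ℝ) * (7 ^ j * P0) ≤ B * (7 ^ K * (2 * (ε * X))) :=
        mul_le_mul_of_nonneg_left k3 (by linarith)
      linarith
    have k3 := cv_out (p := D.p) (p' := H.p) (Z := D.pt) (Z' := fun ω => (s ω, (y ω, n ω)))
      (Ap := Ap) hD.law.nonneg ok.law.nonneg hD.mar hn₀ hD.det (L := L)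
      (Δ := 2 ^ (-((x1 - zz) * X))) rfl (by
        have k5 : (2 : ℝ) ^ (-((x1 - zz) * X)) = 2 ^ (-(x1 * X)) * L ^ 4 := by
          rw [hL4, ← Real.rpow_add (by norm_num)]
          congr 1
          ring
        rw [k5]
        have k6 : 0 < (2 : ℝ) ^ (-(x1 * X)) := by positivity
        have k7 : (c : ℝ) * L ≤ L ^ 4 := by
          have k8 : (c : ℝ) ≤ L := hc2.trans hc2L
          have k9 : L * L ≤ L ^ 4 := by
            have : (1 : ℝ) ≤ L ^ 2 := one_le_pow₀ hL1.le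
            nlinarith
          nlinarith
        nlinarith) k1 f2
    refine le_trans ?_ k3
    linarith
  · -- the transport
    refine pb_of_far (fun w => tup_nonneg ok.law.nonneg H.line 1 w) (fun w hf => ?_)
      (le_trans f3 (by linarith))
    intro i j
    refine tr_pt hG1 hf ?_ i j
    rw [← hL4]
    have : 0 ≤ L ^ 3 := by positivity
    nlinarith
  · -- the body
    refine pb_of_far (fun w => tup_nonneg ok.law.nonneg H.line 3 w) (fun w hf => ?_)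
      (le_trans f4 (by linarith))
    intro u b
    refine bd_pt hG1 (K1 := K1) (hA1 (H.th (w 1)) (H.th (w 2)) (H.th (w 3))).1 hf (by positivity)
      (hA2 (w 1) (w 2) (w 3) u) ?_ b
    have t1 : (c : ℝ) * (c * (L * L) * K1) ≤ (c : ℝ) ^ 2 * C1 * L ^ 2 := by
      have : (c : ℝ) ^ 2 * L ^ 2 * K1 ≤ (c : ℝ) ^ 2 * L ^ 2 * C1 :=
        mul_le_mul_of_nonneg_left hCK (by positivity)
      linarith
    have t2 : (c : ℝ) ^ 2 * C1 * L ^ 2 ≤ L * L ^ 2 :=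
      mul_le_mul_of_nonneg_right hcL (by positivity)
    have t3 : L * L ^ 2 ≤ L ^ 4 := by
      have : 0 ≤ L ^ 3 := by positivity
      nlinarith
    rw [← hL4]
    linarith

end Pool.POT
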