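import Pool.Agent.H21.QW.Asm

/-!
# The sum of two bodies (row 366, K_POT)

`sb X A B` is the body spanned by the `c` columns of largest determinant among those of `A`, `B` and
the small axes `2 ^ (-X) e_j`.
-/

set_option autoImplicit false

namespace Pool.POT

open Finset Real
open Matrix
open Pool.Agent.H49.Ent Pool.Agent.H32.Dense Pool.STK Pool.FAD
open Pool.QC (mat)

variable {c : ℕ}

/-- The small cell. -/
noncomputable def Tx (c X : ℕ) : Matrix (Fin c) (Fin c) ℝ :=
  Matrix.diagonal fun _ => ((2 : ℝ) ^ X)⁻¹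

theorem Tx_det (c X : ℕ) : (Tx c X).det ≠ 0 := det_diag fun _ => by positivity

theorem lv_Tx (c X : ℕ) : lv (Tx c X) = -(c * (X * Real.log 2)) := by
  unfold lv Tx
  rw [Matrix.det_diagonal, Finset.prod_const, Finset.card_univ, Fintype.card_fin,
    abs_of_pos (by positivity), Real.log_pow, Real.log_inv, Real.log_pow]
  ring

/-- The family of the columns of `A`, of `B`, and of the small axes. -/
noncomputable def fm (X : ℕ) (A B : Matrix (Fin c) (Fin c) ℝ) :
    Fin c ⊕ (Fin c ⊕ Fin c) → Fin c → ℝ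
  | .inl b => fun i => A i b
  | .inr (.inl b) => fun i => B i b
  | .inr (.inr j) => Pi.single j ((2 : ℝ) ^ X)⁻¹

theorem exists_sb (X : ℕ) (A B : Matrix (Fin c) (Fin c) ℝ) :
    ∃ f : Fin c → Fin c ⊕ (Fin c ⊕ Fin c), ∀ g : Fin c → Fin c ⊕ (Fin c ⊕ Fin c),
      |(mat fun b => fm X A B (g b)).det| ≤ |(mat fun b => fm X A B (f b)).det| := by
  have : Nonempty (Fin c → Fin c ⊕ (Fin c ⊕ Fin c)) := ⟨fun b => .inl b⟩
  exact Finite.exists_max fun f : Fin c → Fin c ⊕ (Fin c ⊕ Fin c) =>
    |(mat fun b => fm X A B (f b)).det|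

/-- The chosen columns. -/
noncomputable def sf (X : ℕ) (A B : Matrix (Fin c) (Fin c) ℝ) : Fin c → Fin c ⊕ (Fin c ⊕ Fin c) :=
  (exists_sb X A B).choose

/-- The sum of two bodies. -/
noncomputable def sb (X : ℕ) (A B : Matrix (Fin c) (Fin c) ℝ) : Matrix (Fin c) (Fin c) ℝ :=
  mat fun b => fm X A B (sf X A B b)

theorem sb_max (X : ℕ) (A B : Matrix (Fin c) (Fin c) ℝ)
    (g : Fin c → Fin c ⊕ (Fin c ⊕ Fin c)) :
    |(mat fun b => fm X A B (g b)).det| ≤ |(sb X A B).det| := (exists_sb X A B).choose_spec g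

theorem sb_det (X : ℕ) (A B : Matrix (Fin c) (Fin c) ℝ) : (sb X A B).det ≠ 0 := by
  have h := sb_max X A B (fun b => .inr (.inr b))
  have e : (mat fun b => fm X A B (.inr (.inr b))) = Tx c X := by
    ext i j
    simp only [mat, fm, Tx, Matrix.of_apply, Matrix.diagonal_apply, Pi.single_apply]
  rw [e] at h
  exact abs_pos.1 ((abs_pos.2 (Tx_det c X)).trans_le h)

/-- All vectors of the family have small coordinates. -/
theorem sb_le (X : ℕ) (A B : Matrix (Fin c) (Fin c) ℝ) (v : Fin c ⊕ (Fin c ⊕ Fin c))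
    (b : Fin c) : |((sb X A B)⁻¹ *ᵥ fm X A B v) b| ≤ 1 := by
  classical
  have hd := sb_det X A B
  have h1 : ((sb X A B)⁻¹ *ᵥ fm X A B v) b =
      (mat fun b' => fm X A B (Function.update (sf X A B) b v b')).det / (sb X A B).det := by
    rw [Matrix.inv_def, Matrix.smul_mulVec, ← Matrix.cramer_eq_adjugate_mulVec, Pi.smul_apply,
      Matrix.cramer_apply, Ring.inverse_eq_inv', smul_eq_mul, div_eq_inv_mul]
    congr 2
    ext i j
    rw [Matrix.updateCol_apply]
    simp only [mat, sb, Matrix.of_apply, Function.update_apply]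
    by_cases e : j = b
    · rw [if_pos e, if_pos e]
    · rw [if_neg e, if_neg e]
  rw [h1, abs_div, div_le_one (abs_pos.2 hd)]
  exact sb_max X A B _

theorem sb_entry (X : ℕ) {A B : Matrix (Fin c) (Fin c) ℝ} {C : ℝ} (hC : 1 ≤ C)
    (hA : ∀ i j, |A i j| ≤ C) (hB : ∀ i j, |B i j| ≤ C) (i j : Fin c) :
    |sb X A B i j| ≤ C := by
  have h : ∀ v i, |fm X A B v i| ≤ C := by
    intro v i
    rcases v with b | b | b
    · exact hA i b
    · exact hB i b
    · simp only [fm, Pi.single_apply]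
      split_ifs
      · rw [abs_of_pos (by positivity)]
        refine le_trans ?_ hC
        exact inv_le_one_of_one_le₀ (one_le_pow₀ (by norm_num))
      · rw [abs_zero]
        linarith
  exact h _ _

/-- The small axes lie in the sum. -/
theorem sb_inv (X : ℕ) (A B : Matrix (Fin c) (Fin c) ℝ) (i j : Fin c) :
    |(sb X A B)⁻¹ i j| ≤ 2 ^ X := by
  have e := sb_le X A B (.inr (.inr j)) i
  have e1 : fm X A B (.inr (.inr j)) = Pi.single j ((2 : ℝ) ^ X)⁻¹ := rfl
  rw [e1, Matrix.mulVec_single] at e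
  simp only [Pi.smul_apply, MulOpposite.smul_eq_mul_unop, MulOpposite.unop_op,
    Matrix.col_apply] at e
  rw [abs_mul, abs_of_pos (by positivity : (0 : ℝ) < ((2 : ℝ) ^ X)⁻¹), ← div_eq_mul_inv,
    div_le_one (by positivity)] at e
  exact e

theorem lv_sb_left (X : ℕ) {A : Matrix (Fin c) (Fin c) ℝ} (B : Matrix (Fin c) (Fin c) ℝ)
    (hA : A.det ≠ 0) : lv A ≤ lv (sb X A B) := by
  have h := sb_max X A B (fun b => .inl b)
  have e : (mat fun b => fm X A B (.inl b)) = A := by
    ext i j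
    simp only [mat, fm, Matrix.of_apply]
  rw [e] at h
  exact Real.log_le_log (abs_pos.2 hA) h

/-- The sum is larger if a column of `B` has a large coordinate in `A`. -/
theorem lv_sb_col (X : ℕ) {A : Matrix (Fin c) (Fin c) ℝ} (B : Matrix (Fin c) (Fin c) ℝ)
    (hA : A.det ≠ 0) (k b : Fin c) (h0 : (A⁻¹ * B) k b ≠ 0) :
    lv A + Real.log |(A⁻¹ * B) k b| ≤ lv (sb X A B) := by
  classical
  have h := sb_max X A B (Function.update (fun b => Sum.inl b) k (Sum.inr (Sum.inl b)))
  have e : (mat fun b' => fm X A B (Function.update (fun b => Sum.inl b) k (Sum.inr (Sum.inl b)) b')) =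
      A.updateCol k (fun i => B i b) := by
    ext i j
    rw [Matrix.updateCol_apply]
    simp only [mat, Matrix.of_apply, Function.update_apply]
    by_cases hj : j = k
    · rw [if_pos hj, if_pos hj]
      rfl
    · rw [if_neg hj, if_neg hj]
      rfl
  have e2 : (A.updateCol k (fun i => B i b)).det = A.det * (A⁻¹ * B) k b := by
    have e3 : (A⁻¹ * B) k b = (A⁻¹ *ᵥ (fun i => B i b)) k := rfl
    rw [e3, Matrix.inv_def, Matrix.smul_mulVec, ← Matrix.cramer_eq_adjugate_mulVec, Pi.smul_apply,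
      Matrix.cramer_apply, Ring.inverse_eq_inv', smul_eq_mul, ← mul_assoc,
      mul_inv_cancel₀ hA, one_mul]
  rw [e, e2, abs_mul] at h
  unfold lv
  rw [← Real.log_mul (abs_ne_zero.2 hA) (abs_ne_zero.2 h0)]
  exact Real.log_le_log (mul_pos (abs_pos.2 hA) (abs_pos.2 h0)) h

/-! ### Fullness -/

/-- Selection of columns. -/
noncomputable def se {ι : Type} (f : Fin c → ι) (g : Fin c → ι) : Matrix (Fin c) (Fin c) ℝ :=
  open Classical in Matrix.of fun i j => if f j = g i then 1 else 0

theorem se_le {ι : Type} (f : Fin c → ι) (g : Fin c → ι) (i : Fin c) :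
    ∑ j, |se f g i j| ≤ c := by
  classical
  calc ∑ j, |se f g i j| ≤ ∑ _j : Fin c, (1 : ℝ) := by
        refine Finset.sum_le_sum fun j _ => ?_
        simp only [se, Matrix.of_apply]
        split_ifs <;> simp
    _ = c := by simp

theorem sb_eq (X : ℕ) (A B : Matrix (Fin c) (Fin c) ℝ) :
    sb X A B = A * se (sf X A B) (fun b => .inl b) + B * se (sf X A B) (fun b => .inr (.inl b)) +
      Tx c X * se (sf X A B) (fun b => .inr (.inr b)) := by
  classical
  ext i j
  simp only [sb, mat, Matrix.of_apply, Matrix.add_apply]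
  rw [Matrix.mul_apply, Matrix.mul_apply, Tx, Matrix.diagonal_mul]
  simp only [se, Matrix.of_apply, mul_ite, mul_one, mul_zero]
  rcases sf X A B j with b | b | b
  · simp [fm]
  · simp [fm]
  · simp only [fm, Pi.single_apply, reduceCtorEq, if_false, Finset.sum_const_zero, zero_add,
      Sum.inr.injEq]
    by_cases h : i = b
    · rw [if_pos h, if_pos h.symm]
    · rw [if_neg h, if_neg (fun e => h e.symm)]

/-- The constant. -/
noncomputable def Csb (c : ℕ) : ℝ := CF c (c + 1) c 2

theorem inc_of_inv {X : ℕ} {A : Matrix (Fin c) (Fin c) ℝ} (h : ∀ i j, |A⁻¹ i j| ≤ 2 ^ X) :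
    Inc ((c : ℝ) + 1) (Tx c X) A := by
  intro i
  calc ∑ j, |(A⁻¹ * Tx c X) i j| ≤ ∑ _j : Fin c, (1 : ℝ) := by
        refine Finset.sum_le_sum fun j _ => ?_
        rw [Tx, Matrix.mul_diagonal, abs_mul,
          abs_of_pos (by positivity : (0 : ℝ) < ((2 : ℝ) ^ X)⁻¹), ← div_eq_mul_inv,
          div_le_one (by positivity)]
        exact h i j
    _ = c := by simp
    _ ≤ (c : ℝ) + 1 := by linarith

/-- Fullness in the sum. -/
theorem DF_sb {Ω ζ : Type} [Fintype Ω] {p : Ω → ℝ} (hp : IsLaw p) {X : ℕ}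
    {A B : Ω → Matrix (Fin c) (Fin c) ℝ} (x : Ω → Fin c → ℝ) (Z : Ω → ζ) (hdA : Det p Z A)
    (hdB : Det p Z B) (hA : ∀ ω, (A ω).det ≠ 0) (hB : ∀ ω, (B ω).det ≠ 0)
    (hiA : ∀ ω i j, |(A ω)⁻¹ i j| ≤ 2 ^ X) (hiB : ∀ ω i j, |(B ω)⁻¹ i j| ≤ 2 ^ X) :
    DF p (fun _ => Tx c X) (fun ω => sb X (A ω) (B ω)) x Z ≤
      DF p (fun _ => Tx c X) A x Z + DF p (fun _ => Tx c X) B x Z + Csb c := by
  have hTT : Inc ((c : ℝ) + 1) (Tx c X) (Tx c X) := by
    have e1 : Inc 1 (Tx c X) (Tx c X) := by
      unfold Tx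
      exact Pool.FEK74.inc_diag (fun _ => by positivity) (fun _ => by positivity)
        (fun _ => by rw [one_mul])
    exact e1.mono (by
      have : (0 : ℝ) ≤ c := Nat.cast_nonneg c
      linarith)
  have key := full_sum (n := c) hp.nonneg hp.sum_one (T := fun _ => Tx c X)
    (W := fun ω => sb X (A ω) (B ω)) (N := 2)
    (![A, B, fun _ => Tx c X]) (![fun ω => se (sf X (A ω) (B ω)) (fun b => .inl b),
      fun ω => se (sf X (A ω) (B ω)) (fun b => .inr (.inl b)),
      fun ω => se (sf X (A ω) (B ω)) (fun b => .inr (.inr b))]) x Z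
    (fun _ _ _ _ _ => rfl) (by
      intro ω ω' a b e
      simp only
      rw [hdA ω ω' a b e, hdB ω ω' a b e])
    (by
      intro k
      fin_cases k
      · exact hdA
      · exact hdB
      · exact fun _ _ _ _ _ => rfl)
    (fun _ => Tx_det c X) (fun ω => sb_det X _ _) (by
      intro k
      fin_cases k
      · exact hA
      · exact hB
      · exact fun _ => Tx_det c X)
    (c := (c : ℝ) + 1) (b := c) (by positivity) (by positivity) (by
      intro k
      fin_cases k
      · exact fun ω => inc_of_inv (hiA ω)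
      · exact fun ω => inc_of_inv (hiB ω)
      · exact fun _ => hTT)
    (by
      intro ω
      rw [Fin.sum_univ_three]
      exact sb_eq _ _ _)
    (by
      intro k
      fin_cases k
      · exact fun ω i => se_le _ _ i
      · exact fun ω i => se_le _ _ i
      · exact fun ω i => se_le _ _ i)
  rw [Fin.sum_univ_three] at key
  have e3 : DF p (fun _ => Tx c X) (fun _ => Tx c X) x Z = 0 := by
    unfold DF
    rw [CH_eq_zero hp.nonneg (X := fun ω => cl (Tx c X) (x ω))
      (W := fun ω => (cl (Tx c X) (x ω), Z ω)) (fun ω ω' _ _ e => (Prod.ext_iff.mp e).1)]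
    simp [Ex]
  simp only [Matrix.cons_val_zero, Matrix.cons_val_one, Matrix.cons_val_two, Matrix.tail_cons,
    Matrix.head_cons] at key
  have e4 : DF p (fun _ => Tx c X) (![A, B, fun _ => Tx c X] 2) x Z =
      DF p (fun _ => Tx c X) (fun _ => Tx c X) x Z := rfl
  unfold Csb
  linarith

end Pool.POT
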