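import Pool.Agent.H21.POT.Lin
import Pool.Agent.H64.QUAD.Res
import Pool.Agent.H98.POT.Selr
import Pool.Agent.H36.LBL.Unq

/-!
# The visible chart of a picture (row 366, K_POT)

`VCh`: the visible near point `(y, n)` of a sample, given the visible record `s`, with the change
of charts `M`. `vch_ok`: it gives a line system.
-/

set_option autoImplicit false

namespace Pool.POT

open Finset Real Matrix
open Pool.Agent.H49.Ent Pool.Agent.H32.Dense Pool.STK Pool.FAD
open Pool.SLO (tup tup_nonneg tup_isLaw)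
open Pool.KS6 (ind ind_nonneg)
open Pool.QC (nfb)
open Pool.QT64 (QH d3 body_s)
open Pool.BFL (Pb)

variable {c k : ℕ} {σ υ : Type}

/-- **The visible chart.** `s` is a function of the context and of the time; `M` of the context and
of `s`; `(y, n)` is the near point in the chart of `s`, in units `2 ^ X`; `Γ` bounds the changes of
charts, `d` the small informations, `δ` the information of the near point and the context. -/
structure VCh (H : QH c k) (X B : ℕ) (n₀ : Fin c) (c0 d δ Γ : ℝ) (s : H.Ω → σ) (y : H.Ω → υ)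
    (n : H.Ω → Fin c → ℤ) (M : H.Ω → Matrix (Fin c) (Fin c) ℝ) : Prop where
  ds : Det H.p (fun ω => (H.b ω, H.th ω)) s
  dM : Det H.p (fun ω => (H.b ω, s ω)) M
  one : ∀ ω i, M ω i i = 1
  low : ∀ ω i j, i < j → M ω i j = 0
  ent : ∀ ω i j, |M ω i j| ≤ Γ
  inv : ∀ ω i j, |(M ω)⁻¹ i j| ≤ Γ
  -- the near point is a function of the line and of `s`, up to few bits
  e1 : CH H.p (fun ω => (y ω, n ω)) (fun ω => (H.line ω, s ω)) ≤ d
  e2 : CH H.p y (fun ω => (H.v ω, (H.b ω, H.th ω))) ≤ d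
  -- the near point is almost independent of the context
  hF : CH H.p (fun ω => (y ω, n ω)) s ≤
    CH H.p (fun ω => (y ω, n ω)) (fun ω => (H.b ω, s ω)) + δ
  -- the change of charts
  rel : ∀ ω ω', 0 < H.p ω → 0 < H.p ω' → y ω = y ω' → H.b ω = H.b ω' → H.th ω = H.th ω' → ∀ i,
    |((M ω)⁻¹ *ᵥ dv (n ω) (n ω')) i - dv (H.hgt ω) (H.hgt ω') i| ≤ Γ
  tr : ∀ ω ω', 0 < H.p ω → 0 < H.p ω' → H.v ω = H.v ω' → H.b ω = H.b ω' → H.th ω = H.th ω' →
    ∀ i, |((M ω)⁻¹ *ᵥ dv (n ω) (n ω')) i - dv (H.nu ω) (H.nu ω') i| ≤ Γ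
  -- the target is not full
  nf : nfb H.p n (fun ω => (y ω, s ω)) n₀ X B ≤ (1 - c0) * X * Real.log 2

/-- The line system of a picture with a visible chart. -/
def lnOf (H : QH c k) (s : H.Ω → σ) (y : H.Ω → υ) (n : H.Ω → Fin c → ℤ)
    (M : H.Ω → Matrix (Fin c) (Fin c) ℝ) : Ln c σ υ where
  Ω := H.Ω
  iΩ := H.iΩ
  Λ := (Fin c → ℤ) × (H.Vt × H.B)
  β := H.B
  V := H.Vt
  Θ := H.Tt
  p := H.p
  L := H.line
  b := H.b
  v := H.v
  th := H.th
  s := s
  y := y
  n := n
  M := M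

theorem det_low {M : Matrix (Fin c) (Fin c) ℝ} (h1 : ∀ i, M i i = 1)
    (h2 : ∀ i j, i < j → M i j = 0) : M.det = 1 := by
  rw [Matrix.det_of_lowerTriangular M]
  · exact Finset.prod_eq_one fun i _ => h1 i
  · intro i j hij
    exact h2 i j (by simpa using hij)

/-- The cost of the passage from the height to the near point. -/
noncomputable def Ch2 (c : ℕ) (Γ : ℝ) : ℝ :=
  c * Real.log (2 * (c * (Γ * Γ)) + 1) + c * Real.log (2 * Γ + 1)

theorem Ch2_nonneg (c : ℕ) {Γ : ℝ} (hΓ : 0 ≤ Γ) : 0 ≤ Ch2 c Γ := by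
  unfold Ch2
  have h1 := Real.log_nonneg (show (1 : ℝ) ≤ 2 * (c * (Γ * Γ)) + 1 by
    have : 0 ≤ (c : ℝ) * (Γ * Γ) := by positivity
    linarith)
  have h2 := Real.log_nonneg (show (1 : ℝ) ≤ 2 * Γ + 1 by linarith)
  positivity

theorem vch_ok {H : QH c k} {X B : ℕ} {n₀ : Fin c} {C c0 d δ Γ : ℝ} {s : H.Ω → σ} {y : H.Ω → υ}
    {n : H.Ω → Fin c → ℤ} {M : H.Ω → Matrix (Fin c) (Fin c) ℝ} (ok : H.OkNS X C d)
    (h : VCh H X B n₀ c0 d δ Γ s y n M) (hΓ : 1 ≤ Γ) :
    (lnOf H s y n M).Ok (2 * d + Ch2 c Γ) δ d Γ (2 * Γ) := by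
  have hp := ok.law.nonneg
  have hd : 0 ≤ d := (CH_nonneg hp _ _).trans h.e1
  have hC := Ch2_nonneg c (show 0 ≤ Γ by linarith)
  have dLb : Det H.p H.line H.b := by
    intro ω ω' _ _ e
    unfold QH.line at e
    simp only [Prod.mk.injEq] at e
    exact e.2.2
  have dLv : Det H.p H.line H.v := by
    intro ω ω' _ _ e
    unfold QH.line at e
    simp only [Prod.mk.injEq] at e
    exact e.2.1
  have dM' : Det H.p (fun ω => (H.b ω, H.th ω)) M := by
    intro ω ω' x x' e
    have h1 := h.ds ω ω' x x' e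
    simp only [Prod.mk.injEq] at e
    exact h.dM ω ω' x x' (Prod.ext e.1 h1)
  refine
    { law := ok.law
      dLb := dLb
      dLv := dLv
      ds := h.ds
      dM := h.dM
      h0 := ?_
      h2 := ?_
      hF := ?_
      e1 := h.e1
      e2 := h.e2
      det := fun ω => det_low (h.one ω) (h.low ω)
      ent := h.ent
      inv := h.inv
      tr := ?_ }
  · have h1 := ok.h0
    have h2 : CH H.p H.th (fun ω => (H.line ω, H.b ω)) = CH H.p H.th H.line := by
      refine CH_congr hp (fun _ _ _ _ e => (Prod.ext_iff.mp e).1)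
        (fun _ _ _ _ e => (Prod.ext_iff.mp e).1) (fun _ _ _ _ e => (Prod.ext_iff.mp e).1) ?_
      intro ω ω' x x' e
      exact Prod.ext e (dLb ω ω' x x' e)
    change CH H.p H.th H.b - CH H.p H.th (fun ω => (H.line ω, H.b ω)) ≤ _
    linarith
  · change MI H.p n H.v (fun ω => (y ω, (H.b ω, H.th ω))) ≤ _
    -- from the height
    have g1 : MI H.p H.hgt H.v (fun ω => (H.th ω, H.b ω)) ≤ d := ok.h2
    have g2 : MI H.p H.hgt H.v (fun ω => (y ω, (H.b ω, H.th ω))) ≤ 2 * d := by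
      have k1 : MI H.p H.hgt H.v (fun ω => (y ω, (H.b ω, H.th ω))) =
          MI H.p H.hgt H.v (fun ω => (y ω, (H.th ω, H.b ω))) := by
        refine MI_congr hp ?_ ?_ ?_ ?_ ?_ ?_ <;>
        · intro ω ω' _ _ e
          simp only [Prod.mk.injEq] at e ⊢
          tauto
      have k2 := MI_chain hp H.hgt H.v y (fun ω => (H.th ω, H.b ω))
      have k3 := MI_chain hp H.hgt y H.v (fun ω => (H.th ω, H.b ω))
      have k4 : MI H.p H.hgt (fun ω => (H.v ω, y ω)) (fun ω => (H.th ω, H.b ω)) =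
          MI H.p H.hgt (fun ω => (y ω, H.v ω)) (fun ω => (H.th ω, H.b ω)) := by
        refine MI_congr hp ?_ ?_ ?_ ?_ ?_ ?_ <;>
        · intro ω ω' _ _ e
          simp only [Prod.mk.injEq] at e ⊢
          tauto
      have k5 := MI_nonneg hp H.hgt y (fun ω => (H.th ω, H.b ω))
      have k6 : MI H.p H.hgt y (fun ω => (H.v ω, (H.th ω, H.b ω))) ≤ d := by
        rw [MI_symm hp]
        refine (MI_le_CH hp _ _ _).trans (le_trans (CH_mono_cond hp ?_) h.e2)
        intro ω ω' _ _ e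
        simp only [Prod.mk.injEq] at e ⊢
        tauto
      linarith
    have g3 : CH H.p n (fun ω => (y ω, (H.b ω, H.th ω))) ≤
        CH H.p H.hgt (fun ω => (y ω, (H.b ω, H.th ω))) +
          c * Real.log (2 * (c * (Γ * Γ)) + 1) := by
      have k1 := CH_le_add hp n H.hgt (fun ω => (y ω, (H.b ω, H.th ω)))
      have k2 := CH_le_vec hp ok.law.sum_one n
        (fun ω => (H.hgt ω, (y ω, (H.b ω, H.th ω)))) (fun _ => c * (Γ * Γ)) (by
          intro ω ω' x x' e i
          simp only [Prod.mk.injEq] at e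
          have k3 : ∀ i, |((M ω)⁻¹ *ᵥ dv (n ω) (n ω')) i| ≤ Γ := by
            intro i
            have := h.rel ω ω' x x' e.2.1 e.2.2.1 e.2.2.2 i
            have k4 : dv (H.hgt ω) (H.hgt ω') i = 0 := by
              unfold dv
              rw [e.1]
              simp
            rw [k4, sub_zero] at this
            exact this
          have k5 : dv (n ω) (n ω') = M ω *ᵥ ((M ω)⁻¹ *ᵥ dv (n ω) (n ω')) := by
            rw [Matrix.mulVec_mulVec, Matrix.mul_nonsing_inv _ (by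
              rw [det_low (h.one ω) (h.low ω)]
              exact isUnit_one), Matrix.one_mulVec]
          have k6 := mulVec_bd (h.ent ω) k3 (by linarith) i
          rw [← k5] at k6
          exact k6)
      rw [Ex_const ok.law.sum_one] at k2
      linarith
    have g4 : CH H.p H.hgt (fun ω => (H.v ω, (y ω, (H.b ω, H.th ω)))) ≤
        CH H.p n (fun ω => (H.v ω, (y ω, (H.b ω, H.th ω)))) + c * Real.log (2 * Γ + 1) := by
      have k1 := CH_le_add hp H.hgt n (fun ω => (H.v ω, (y ω, (H.b ω, H.th ω))))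
      have k2 := CH_le_vec hp ok.law.sum_one H.hgt
        (fun ω => (n ω, (H.v ω, (y ω, (H.b ω, H.th ω))))) (fun _ => Γ) (by
          intro ω ω' x x' e i
          simp only [Prod.mk.injEq] at e
          have := h.rel ω ω' x x' e.2.2.1 e.2.2.2.1 e.2.2.2.2 i
          have k4 : dv (n ω) (n ω') = 0 := by
            funext j
            unfold dv
            rw [e.1]
            simp
          rw [k4, Matrix.mulVec_zero, Pi.zero_apply, zero_sub, abs_neg] at this
          exact this)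
      rw [Ex_const ok.law.sum_one] at k2
      linarith
    unfold MI at g2 ⊢
    unfold Ch2
    linarith
  · change CH H.p (fun ω => (y ω, n ω)) s -
      CH H.p (fun ω => (y ω, n ω)) (fun ω => (H.b ω, s ω)) ≤ δ
    have := h.hF
    linarith
  · intro ω0 ω1 ω0' ω1' x0 x1 x0' x1' e1 e2 e3 i
    change |((M ω0)⁻¹ *ᵥ dv (n ω0) (n ω0')) i - ((M ω1)⁻¹ *ᵥ dv (n ω1) (n ω1')) i| ≤ 2 * Γ
    have e1' : H.line ω1 = H.line ω0 := e1
    have e2' : H.line ω1' = H.line ω0' := e2
    have e3' : (H.v ω0, (H.b ω0, (H.th ω0, H.th ω1))) =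
      (H.v ω0', (H.b ω0', (H.th ω0', H.th ω1'))) := e3
    simp only [Prod.mk.injEq] at e3'
    have b1 := dLb ω1 ω0 x1 x0 e1'
    have b2 := dLb ω1' ω0' x1' x0' e2'
    have v1 := dLv ω1 ω0 x1 x0 e1'
    have v2 := dLv ω1' ω0' x1' x0' e2'
    have k1 := h.tr ω0 ω0' x0 x0' e3'.1 e3'.2.1 e3'.2.2.1 i
    have k2 := h.tr ω1 ω1' x1 x1' (by rw [v1, v2]; exact e3'.1) (by rw [b1, b2]; exact e3'.2.1)
      e3'.2.2.2 i
    have n1 : H.nu ω1 = H.nu ω0 := (Prod.ext_iff.mp e1').1
    have n2 : H.nu ω1' = H.nu ω0' := (Prod.ext_iff.mp e2').1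
    rw [n1, n2] at k2
    rw [abs_le] at k1 k2 ⊢
    constructor <;> linarith [k1.1, k1.2, k2.1, k2.2]

end Pool.POT
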